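import Pool.Agent.E96.GeTwoLim

/-!
# L^p extremal polynomials: approximation of the weight by polynomials
-/

open MeasureTheory Polynomial Set Filter Topology
open scoped Real ENNReal Polynomial ComplexConjugate

namespace Pool.Agent.E96

/-- uniform approximation of a positive continuous function by `g^q`, `g` a polynomial -/
lemma unif_poly {φ : I → ℝ} (hφ : Continuous φ) (hφ0 : ∀ x, 0 < φ x) {q : ℝ} (hq : 0 < q) {κ : ℝ}
    (hκ : 0 < κ) : ∃ g : ℝ[X], (∀ x : I, 0 < g.eval (x : ℝ)) ∧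
      ∀ x : I, |φ x - (g.eval (x : ℝ)) ^ q| ≤ κ := by
  set ψ : I → ℝ := fun x => (φ x) ^ (1 / q) with hψ
  have hψc : Continuous ψ := hφ.rpow_const fun x => Or.inl (hφ0 x).ne'
  have hψ0 : ∀ x, 0 < ψ x := fun x => Real.rpow_pos_of_pos (hφ0 x) _
  have hψq : ∀ x, (ψ x) ^ q = φ x := by
    intro x
    rw [hψ, ← Real.rpow_mul (hφ0 x).le, one_div, inv_mul_cancel₀ hq.ne', Real.rpow_one]
  obtain ⟨m, hm, hm'⟩ : ∃ m : ℝ, 0 < m ∧ ∀ x, m ≤ ψ x := by
    obtain ⟨x₀, -, hx₀⟩ := isCompact_univ.exists_isMinOn (s := (univ : Set I))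
      ⟨⟨0, by norm_num, by norm_num⟩, mem_univ _⟩ hψc.continuousOn
    exact ⟨ψ x₀, hψ0 x₀, fun x => hx₀ (mem_univ x)⟩
  obtain ⟨M, hM⟩ : ∃ M : ℝ, ∀ x, ψ x ≤ M := by
    obtain ⟨x₀, -, hx₀⟩ := isCompact_univ.exists_isMaxOn (s := (univ : Set I))
      ⟨⟨0, by norm_num, by norm_num⟩, mem_univ _⟩ hψc.continuousOn
    exact ⟨ψ x₀, fun x => hx₀ (mem_univ x)⟩
  have huc : UniformContinuousOn (fun y : ℝ => y ^ q) (Icc 0 (M + 1)) :=
    isCompact_Icc.uniformContinuousOn_of_continuous
      (Continuous.continuousOn (Real.continuous_rpow_const hq.le))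
  obtain ⟨η, hη, hηu⟩ := Metric.uniformContinuousOn_iff.1 huc κ hκ
  obtain ⟨g, hg⟩ := exists_polynomial_near_continuousMap (-1) 1 (⟨ψ, hψc⟩ : C(Icc (-1 : ℝ) 1, ℝ))
    (min (min η (m / 2)) 1) (by positivity)
  have hg' : ∀ x : I, |g.eval (x : ℝ) - ψ x| < min (min η (m / 2)) 1 := by
    intro x
    have := ContinuousMap.norm_coe_le_norm (g.toContinuousMapOn (Icc (-1 : ℝ) 1) -
      (⟨ψ, hψc⟩ : C(Icc (-1 : ℝ) 1, ℝ))) x
    rw [Real.norm_eq_abs] at this
    exact lt_of_le_of_lt (by simpa using this) hg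
  have hgpos : ∀ x : I, 0 < g.eval (x : ℝ) := by
    intro x
    have h1 := (hg' x).trans_le ((min_le_left _ _).trans (min_le_right _ _))
    have h2 := (abs_lt.1 h1).1
    have h3 := hm' x
    linarith
  refine ⟨g, hgpos, fun x => ?_⟩
  have h1 := (hg' x).trans_le (min_le_right _ _)
  have h2 := (abs_lt.1 h1).2
  have h3 := hM x
  have h4 := hηu (ψ x) ⟨(hψ0 x).le, by linarith⟩ (g.eval (x : ℝ)) ⟨(hgpos x).le, by linarith⟩ (by
    rw [Real.dist_eq, abs_sub_comm]
    exact (hg' x).trans_le ((min_le_left _ _).trans (min_le_left _ _)))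
  simp only [hψq] at h4
  rw [Real.dist_eq] at h4
  exact h4.le

lemma approx_poly {α : Measure I} [IsFiniteMeasure α] {k : I → ℝ} (hk : Integrable k α)
    (hk0 : ∀ x, 0 ≤ k x) {q : ℝ} (hq : 0 < q) {κ : ℝ} (hκ : 0 < κ) :
    ∃ g : ℝ[X], (∀ x : I, 0 < g.eval (x : ℝ)) ∧
      ∫ x : I, |k x - (g.eval (x : ℝ)) ^ q| ∂α ≤ κ := by
  set m := α.real univ with hm
  have hm0 : 0 ≤ m := measureReal_nonneg
  set κ1 := κ / (1 + 2 * m) with hκ1
  have hκ10 : 0 < κ1 := by positivity
  obtain ⟨φ, hφ, hφi⟩ := hk.exists_boundedContinuous_integral_sub_le hκ10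
  obtain ⟨g, hg, hg'⟩ := unif_poly (φ := fun x => max (φ x) 0 + κ1)
    (by have := φ.continuous; fun_prop)
    (fun x => by have := le_max_right (φ x) 0; linarith) hq hκ10
  refine ⟨g, hg, ?_⟩
  have hgc : Continuous fun x : I => (g.eval (x : ℝ)) ^ q :=
    Continuous.rpow_const (by fun_prop) fun x => Or.inl (hg x).ne'
  have hgi := integrable_of_continuous hgc α
  have h1 : ∫ x : I, |k x - (g.eval (x : ℝ)) ^ q| ∂α ≤ ∫ x : I, (‖k x - φ x‖ + 2 * κ1) ∂α := by
    refine integral_mono (hk.sub hgi).abs ((hk.sub hφi).norm.add (integrable_const _)) fun x => ?_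
    simp only
    have e1 : |k x - max (φ x) 0| ≤ ‖k x - φ x‖ := by
      rw [Real.norm_eq_abs]
      rcases le_total 0 (φ x) with h | h
      · rw [max_eq_left h]
      · rw [max_eq_right h, sub_zero, abs_of_nonneg (hk0 x)]
        refine le_trans ?_ (le_abs_self _)
        linarith
    have e2 : k x - (g.eval (x : ℝ)) ^ q = (k x - max (φ x) 0) + (-κ1) +
        ((max (φ x) 0 + κ1) - (g.eval (x : ℝ)) ^ q) := by ring
    rw [e2]
    refine (abs_add_three _ _ _).trans ?_
    rw [abs_neg, abs_of_pos hκ10]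
    have := hg' x
    linarith
  have hkφ : Integrable (fun x => ‖k x - φ x‖) α := (hk.sub hφi).norm
  rw [integral_add hkφ (integrable_const _), integral_const, smul_eq_mul, ← hm] at h1
  have h2 : κ1 * (1 + 2 * m) = κ := by
    rw [hκ1]; field_simp
  nlinarith

lemma setIntegral_wd {γ : Measure I} {W : I → ℝ} (hW : Continuous W) (hW0 : ∀ x, 0 ≤ W x)
    (f : I → ℝ) {G : Set I} (hG : MeasurableSet G) :
    ∫ x in G, f x ∂(wd γ W) = ∫ x in G, W x * f x ∂γ := by
  rw [wd, setIntegral_withDensity_eq_setIntegral_toReal_smul (by fun_prop)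
    (Eventually.of_forall fun x => ENNReal.ofReal_lt_top) _ hG]
  refine integral_congr_ae (Eventually.of_forall fun x => ?_)
  simp only [smul_eq_mul]
  rw [ENNReal.toReal_ofReal (hW0 x)]

/-- the weight can be made close to the arcsine law -/
theorem exists_near {α : Measure I} [IsFiniteMeasure α] {G0 : Set I} (hG0 : MeasurableSet G0)
    {ε0 : ℝ} (h0 : rho.real G0ᶜ ≤ ε0) (hε0 : 0 ≤ ε0) (hac : rho.restrict G0 ≪ α) {q : ℝ}
    (hq : 0 < q) {ε : ℝ} (hε : 0 < ε) :
    ∃ g : ℝ[X], (∀ x : I, 0 < g.eval (x : ℝ)) ∧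
      ∃ G : Set I, Near (wd α (fun x : I => (g.eval (x : ℝ)) ^ q)) G (ε0 + ε) := by
  set μ0 := rho.restrict G0 with hμ0
  set K := μ0.rnDeriv α with hK
  set k : I → ℝ := fun x => (K x).toReal with hk
  have hKm : Measurable K := Measure.measurable_rnDeriv _ _
  have hkm : Measurable k := hKm.ennreal_toReal
  have hkint : Integrable k α := Measure.integrable_toReal_rnDeriv
  have hk0 : ∀ x, 0 ≤ k x := fun x => ENNReal.toReal_nonneg
  have hμ0K : α.withDensity K = μ0 := Measure.withDensity_rnDeriv_eq _ _ hac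
  have hKtop : ∀ᵐ x ∂α, K x < ∞ := Measure.rnDeriv_lt_top _ _
  have key : ∀ (f : I → ℝ) {A : Set I}, MeasurableSet A →
      ∫ x in A, f x ∂μ0 = ∫ x in A, k x * f x ∂α := by
    intro f A hA
    conv_lhs => rw [← hμ0K]
    rw [setIntegral_withDensity_eq_setIntegral_toReal_smul hKm (ae_restrict_of_ae hKtop) f hA]
    rfl
  set κ := ε ^ 2 / (1 + ε) with hκ
  have hκ0 : 0 < κ := by positivity
  have hκε : κ / ε + κ = ε := by
    rw [hκ]; field_simp
  obtain ⟨g, hg, hgk⟩ := approx_poly hkint hk0 hq hκ0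
  refine ⟨g, hg, ?_⟩
  set W : I → ℝ := fun x : I => (g.eval (x : ℝ)) ^ q with hW
  have hWc : Continuous W := Continuous.rpow_const (by fun_prop) fun x => Or.inl (hg x).ne'
  have hW0 : ∀ x, 0 ≤ W x := fun x => Real.rpow_nonneg (hg x).le _
  have hWi := integrable_of_continuous hWc α
  have hkW : Integrable (fun x => |k x - W x|) α := (hkint.sub hWi).abs
  set γ := wd α W with hγ
  have hγfin : IsFiniteMeasure γ := isFinite_wd hWc
  set G : Set I := G0 ∩ {x | |k x - W x| ≤ ε * k x} with hGdef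
  have hGm : MeasurableSet G := by
    refine hG0.inter (measurableSet_le ?_ ?_)
    · exact (hkm.sub hWc.measurable).abs
    · exact hkm.const_mul _
  -- restriction identities
  have hGr : ∀ f : I → ℝ, ∫ x in G, f x ∂rho = ∫ x in G, k x * f x ∂α := by
    intro f
    rw [← key f hGm, hμ0, Measure.restrict_restrict hGm, inter_eq_left.2 inter_subset_left]
  have hmass : ∀ {A : Set I}, MeasurableSet A → μ0.real A = ∫ x in A, k x ∂α := by
    intro A hA
    have := key (fun _ => (1 : ℝ)) hA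
    simp only [mul_one, integral_const, measureReal_restrict_apply_univ, smul_eq_mul] at this
    exact this
  -- the bad set
  set Bd : Set I := G0 ∩ {x | |k x - W x| ≤ ε * k x}ᶜ with hBd
  have hBm : MeasurableSet Bd := by
    refine hG0.inter (MeasurableSet.compl (measurableSet_le ?_ ?_))
    · exact (hkm.sub hWc.measurable).abs
    · exact hkm.const_mul _
  have hBad : μ0.real Bd ≤ κ / ε := by
    rw [hmass hBm]
    have h1 : ∫ x in Bd, k x ∂α ≤ ∫ x in Bd, |k x - W x| / ε ∂α := by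
      refine setIntegral_mono_on hkint.integrableOn
        (hkW.div_const _).integrableOn hBm fun x hx => ?_
      have h2 : ¬ |k x - W x| ≤ ε * k x := hx.2
      rw [le_div_iff₀ hε, mul_comm]
      exact (not_le.1 h2).le
    have h2 : ∫ x in Bd, |k x - W x| / ε ∂α ≤ ∫ x, |k x - W x| / ε ∂α :=
      setIntegral_le_integral (hkW.div_const _)
        (Eventually.of_forall fun x => by positivity)
    have h4 : ∫ x, |k x - W x| / ε ∂α = (∫ x, |k x - W x| ∂α) / ε := integral_div _ _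
    have h3 : (∫ x, |k x - W x| ∂α) / ε ≤ κ / ε := div_le_div_of_nonneg_right hgk hε.le
    linarith
  have hGc0 : Gᶜ ∩ G0 = Bd := by
    ext x
    simp only [hGdef, hBd, mem_inter_iff, mem_compl_iff, Set.mem_ofPred_eq]
    tauto
  have hGc : μ0.real Gᶜ ≤ κ / ε := by
    have h1 : μ0.real Gᶜ = μ0.real Bd := by
      rw [hμ0, measureReal_restrict_apply hGm.compl, hGc0, measureReal_restrict_apply hBm,
        inter_eq_left.2 (inter_subset_left : Bd ⊆ G0)]
    rw [h1]; exact hBad
  refine ⟨G, ⟨hGm, fun F hF hF0 => ?_, fun F hF hF0 => ?_, ?_, ?_⟩⟩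
  · -- low
    rw [hγ, setIntegral_wd hWc hW0 F hGm]
    obtain ⟨M, hM⟩ : ∃ M : ℝ, ∀ x, F x ≤ M := by
      obtain ⟨x₀, -, hx₀⟩ := isCompact_univ.exists_isMaxOn (s := (univ : Set I))
        ⟨⟨0, by norm_num, by norm_num⟩, mem_univ _⟩ hF.continuousOn
      exact ⟨F x₀, fun x => hx₀ (mem_univ x)⟩
    have hkF : Integrable (fun x => k x * F x) α :=
      hkint.mul_bdd (c := M) hF.aestronglyMeasurable (Eventually.of_forall fun x => by
        rw [Real.norm_eq_abs, abs_of_nonneg (hF0 x)]; exact hM x)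
    have h1 : (1 - (ε0 + ε)) * ∫ x in G, F x ∂rho ≤ (1 - ε) * ∫ x in G, F x ∂rho :=
      mul_le_mul_of_nonneg_right (by linarith) (set_nonneg hF0)
    refine h1.trans ?_
    rw [hGr, ← integral_const_mul]
    refine setIntegral_mono_on (hkF.const_mul _).integrableOn
      (intOn (hWc.mul hF) α G) hGm fun x hx => ?_
    have h2 : |k x - W x| ≤ ε * k x := hx.2
    have h3 := (abs_le.1 h2).2
    have h4 : (1 - ε) * k x ≤ W x := by linarith
    have h5 := mul_le_mul_of_nonneg_right h4 (hF0 x)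
    linarith
  · -- up
    rw [hγ, setIntegral_wd hWc hW0 F hGm]
    obtain ⟨M, hM⟩ : ∃ M : ℝ, ∀ x, F x ≤ M := by
      obtain ⟨x₀, -, hx₀⟩ := isCompact_univ.exists_isMaxOn (s := (univ : Set I))
        ⟨⟨0, by norm_num, by norm_num⟩, mem_univ _⟩ hF.continuousOn
      exact ⟨F x₀, fun x => hx₀ (mem_univ x)⟩
    have hkF : Integrable (fun x => k x * F x) α :=
      hkint.mul_bdd (c := M) hF.aestronglyMeasurable (Eventually.of_forall fun x => by
        rw [Real.norm_eq_abs, abs_of_nonneg (hF0 x)]; exact hM x)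
    have h1 : (1 + ε) * ∫ x in G, F x ∂rho ≤ (1 + (ε0 + ε)) * ∫ x in G, F x ∂rho :=
      mul_le_mul_of_nonneg_right (by linarith) (set_nonneg hF0)
    refine le_trans ?_ h1
    rw [hGr, ← integral_const_mul]
    refine setIntegral_mono_on (intOn (hWc.mul hF) α G)
      (hkF.const_mul _).integrableOn hGm fun x hx => ?_
    have h2 : |k x - W x| ≤ ε * k x := hx.2
    have h3 := (abs_le.1 h2).1
    have h4 : W x ≤ (1 + ε) * k x := by linarith
    have h5 := mul_le_mul_of_nonneg_right h4 (hF0 x)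
    linarith
  · -- outg
    have h1 : γ.real Gᶜ = ∫ x in Gᶜ, W x ∂α := by
      have := setIntegral_wd (γ := α) hWc hW0 (fun _ => (1 : ℝ)) hGm.compl
      simp only [mul_one, integral_const, measureReal_restrict_apply_univ, smul_eq_mul] at this
      exact this
    have h2 : ∫ x in Gᶜ, W x ∂α ≤ ∫ x in Gᶜ, (k x + |k x - W x|) ∂α := by
      refine integral_mono hWi.integrableOn (hkint.add hkW).integrableOn fun x => ?_
      have := neg_abs_le (k x - W x)
      simp only
      linarith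
    rw [integral_add hkint.integrableOn hkW.integrableOn, ← hmass hGm.compl] at h2
    have h3 : ∫ x in Gᶜ, |k x - W x| ∂α ≤ ∫ x, |k x - W x| ∂α :=
      setIntegral_le_integral hkW (Eventually.of_forall fun x => abs_nonneg _)
    rw [h1]
    linarith
  · -- outr
    have h1 : Gᶜ ⊆ G0ᶜ ∪ Bd := by
      intro x hx
      by_cases h : x ∈ G0
      · right
        rw [← hGc0]
        exact ⟨hx, h⟩
      · left; exact h
    have h2 : rho.real Gᶜ ≤ rho.real G0ᶜ + rho.real Bd :=
      (measureReal_mono h1).trans (measureReal_union_le _ _)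
    have h3 : rho.real Bd = μ0.real Bd := by
      rw [hμ0, measureReal_restrict_apply hBm, inter_eq_left.2 (inter_subset_left : Bd ⊆ G0)]
    linarith

end Pool.Agent.E96
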