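import Pool.Agent.E96.Final

/-!
# L^p extremal polynomials: the infimum is attained
-/

open MeasureTheory Polynomial Set Filter Topology
open scoped Real ENNReal Polynomial ComplexConjugate

namespace Pool.Agent.E96

lemma ND_map {α : Measure ℝ} [IsFiniteMeasure α] {a b c h : ℝ} (hab : a < b) (hh : 0 < h)
    (hsub : Ioo a b ⊆ Icc (c - h) (c + h)) (hac : volume.restrict (Ioo a b) ≪ α) :
    ND (α.map (toI c h)) := by
  intro s hs
  rw [pos_iff_ne_zero]
  intro h0
  rw [Measure.map_apply (continuous_toI c h).measurable hs.measurableSet.compl] at h0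
  have h1 := hac h0
  rw [Measure.restrict_apply ((continuous_toI c h).measurable hs.measurableSet.compl)] at h1
  have h2 : volume (toI c h ⁻¹' s ∩ Ioo a b) = 0 := by
    have h3 : toI c h ⁻¹' s ∩ Ioo a b ⊆ (fun y : I => c + h * (y : ℝ)) '' s := by
      rintro x ⟨hx, hx'⟩
      refine ⟨toI c h x, hx, ?_⟩
      simp only
      rw [toI_coe hh (hsub hx')]
      field_simp
      ring
    exact ((hs.image _).subset h3).measure_zero _
  have h4 : volume (Ioo a b) ≤ 0 := by
    calc volume (Ioo a b) ≤ volume ((toI c h ⁻¹' sᶜ ∩ Ioo a b) ∪ (toI c h ⁻¹' s ∩ Ioo a b)) := by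
          refine measure_mono fun x hx => ?_
          by_cases h : toI c h x ∈ s
          · exact Or.inr ⟨h, hx⟩
          · exact Or.inl ⟨h, hx⟩
      _ ≤ _ := measure_union_le _ _
      _ = 0 := by rw [h1, h2, add_zero]
  rw [Real.volume_Ioo] at h4
  have h5 : 0 < ENNReal.ofReal (b - a) := ENNReal.ofReal_pos.2 (by linarith)
  exact absurd h5 (not_lt.2 h4)

/-- the minimum is attained -/
theorem exists_min {α : Measure ℝ} [IsFiniteMeasure α] {a b c h : ℝ} (hab : a < b) (hh : 0 < h)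
    (hsub : Ioo a b ⊆ Icc (c - h) (c + h)) (hac : volume.restrict (Ioo a b) ≪ α)
    (hα : α (Icc (c - h) (c + h))ᶜ = 0) {p : ℝ} (hp : 0 < p) (n : ℕ) :
    ∃ P : ℝ[X], P.Monic ∧ P.natDegree = n ∧ ∀ Q : ℝ[X], Q.Monic → Q.natDegree = n →
      J α p P ≤ J α p Q := by
  have hND := ND_map hab hh hsub hac
  have hfin : IsFiniteMeasure (α.map (toI c h)) := Measure.isFiniteMeasure_map _ _
  have hΦ : Continuous (Function.uncurry fun (_ : I) (y : ℝ) => ((2 ^ n) ^ 2 * y) ^ (p / 2)) := by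
    refine Continuous.rpow_const ?_ fun _ => Or.inr (by positivity)
    exact continuous_const.mul continuous_snd
  obtain ⟨Q, hQ, hQn, hQmin⟩ := exists_min_line hND hp n
    (fun (_ : I) (y : ℝ) => ((2 ^ n) ^ 2 * y) ^ (p / 2)) hΦ (c' := ((2 ^ n) ^ 2) ^ (p / 2))
    (by positivity) (fun x y hy => by rw [Real.mul_rpow (by positivity) hy])
  have hLL : ∀ R : ℝ[X], LL (α.map (toI c h)) 1 (p / 2) n R =
      ∫ x : I, ((2 ^ n) ^ 2 * (R.eval (x : ℝ)) ^ 2) ^ (p / 2) ∂(α.map (toI c h)) := by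
    intro R
    rw [LL]
    refine integral_congr_ae (Eventually.of_forall fun x => ?_)
    simp only [eval_one, div_one, mul_pow]
  obtain ⟨h1, h2⟩ := resc_monic (s := h⁻¹) (t := -c * h⁻¹) (inv_ne_zero hh.ne') hQ hQn
  refine ⟨resc h⁻¹ (-c * h⁻¹) n Q, h1, h2, fun R hR hRn => ?_⟩
  rw [J_eq_LL hh hα n _ hp, J_eq_LL hh hα n R hp]
  have hθ : 0 ≤ ((h / 2) ^ n) ^ p := by positivity
  refine mul_le_mul_of_nonneg_left ?_ hθ
  obtain ⟨h3, h4⟩ := resc_monic (s := h) (t := c) hh.ne' hR hRn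
  have h5 := hQmin _ h3 h4
  rw [← hLL, ← hLL] at h5
  refine le_trans (le_of_eq ?_) h5
  rw [LL, LL]
  refine integral_congr_ae (Eventually.of_forall fun x => ?_)
  simp only [eval_resc]
  have h3 : h⁻¹ * (h * (x : ℝ) + c) + -c * h⁻¹ = x := by field_simp; ring
  rw [h3]
  congr 3
  rw [inv_pow, inv_inv]
  have : h ^ n ≠ 0 := pow_ne_zero _ hh.ne'
  field_simp

/-- the minimum is attained under (H2) -/
theorem exists_min_of_H2 {α : Measure ℝ} [IsFiniteMeasure α] {a b : ℝ} (hab : a < b)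
    (hac : volume.restrict (Ioo a b) ≪ α)
    (H2 : ∀ ε : ℝ, 0 < ε → (α.support \ Ioo (a - ε) (b + ε)).Finite) {p : ℝ} (hp : 0 < p)
    (n : ℕ) :
    ∃ P : ℝ[X], P.Monic ∧ P.natDegree = n ∧ ∀ Q : ℝ[X], Q.Monic → Q.natDegree = n →
      J α p P ≤ J α p Q := by
  have hbd : Bornology.IsBounded (α.support ∪ Ioo a b) := by
    have h1 : α.support ∪ Ioo a b ⊆ (α.support \ Ioo (a - 1) (b + 1)) ∪ Ioo (a - 1) (b + 1) := by
      rintro x (hx | hx)
      · by_cases h : x ∈ Ioo (a - 1) (b + 1)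
        · exact Or.inr h
        · exact Or.inl ⟨hx, h⟩
      · exact Or.inr ⟨by linarith [hx.1], by linarith [hx.2]⟩
    exact ((H2 1 one_pos).isBounded.union (Metric.isBounded_Ioo _ _)).subset h1
  obtain ⟨R, hR, hsub⟩ := hbd.subset_closedBall_lt 0 0
  rw [Real.closedBall_eq_Icc] at hsub
  have hα : α (Icc (0 - R) (0 + R))ᶜ = 0 := by
    refine measure_mono_null ?_ (Measure.measure_compl_support (μ := α))
    exact compl_subset_compl.2 (subset_union_left.trans hsub)
  exact exists_min hab hR (subset_union_right.trans hsub) hac hα hp n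

end Pool.Agent.E96
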