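import Pool.Agent.E96.Poly

/-!
# L^p extremal polynomials: the Bernstein–Szegő identity
-/

open MeasureTheory Polynomial Set Filter Topology
open scoped Real ENNReal Polynomial ComplexConjugate

namespace Pool.Agent.E96

/-- the real part of `q conj t` on the circle, as a polynomial in `x` -/
noncomputable def Phi (N : ℕ) (t q : ℝ[X]) : ℝ[X] :=
  ∑ j ∈ Finset.range (N + 1), ∑ k ∈ Finset.range (N + 1),
    C (q.coeff j * t.coeff k) * Chebyshev.T ℝ ((j : ℤ) - k)

lemma natDegree_Phi_le (N : ℕ) (t q : ℝ[X]) : (Phi N t q).natDegree ≤ N := by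
  unfold Phi
  refine natDegree_sum_le_of_forall_le _ _ fun j hj => ?_
  refine natDegree_sum_le_of_forall_le _ _ fun k hk => ?_
  refine (natDegree_C_mul_le _ _).trans ?_
  rw [Chebyshev.natDegree_T]
  have := Finset.mem_range.1 hj
  have := Finset.mem_range.1 hk
  omega

lemma eval_Phi {N : ℕ} {t q : ℝ[X]} (ht : t.natDegree ≤ N) (hq : q.natDegree ≤ N) (x : I) :
    (Phi N t q).eval (x : ℝ) = (aeval (ez x) q * conj (aeval (ez x) t)).re := by
  rw [Phi, eval_finsetSum, aeval_eq_sum_range' (Nat.lt_succ_of_le hq),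
    aeval_eq_sum_range' (Nat.lt_succ_of_le ht), map_sum, Finset.sum_mul, Complex.re_sum]
  refine Finset.sum_congr rfl fun j _ => ?_
  rw [eval_finsetSum, Finset.mul_sum, Complex.re_sum]
  refine Finset.sum_congr rfl fun k _ => ?_
  rw [eval_mul, eval_C, ← ez_re x, T_eval_re (norm_ez x)]
  simp only [Algebra.smul_def, Complex.coe_algebraMap, map_mul, Complex.conj_ofReal, map_pow,
    conj_ez]
  have : ((q.coeff j : ℝ) : ℂ) * ez x ^ j * (((t.coeff k : ℝ) : ℂ) * (ez x)⁻¹ ^ k)
      = ((q.coeff j * t.coeff k : ℝ) : ℂ) * (ez x) ^ ((j : ℤ) - k) := by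
    rw [zpow_sub₀ (ez_ne_zero x), zpow_natCast, zpow_natCast, inv_pow]
    push_cast
    ring
  rw [this, Complex.re_ofReal_mul]

lemma Phi_add (N : ℕ) (t q r : ℝ[X]) : Phi N t (q + r) = Phi N t q + Phi N t r := by
  unfold Phi
  rw [← Finset.sum_add_distrib]
  refine Finset.sum_congr rfl fun j _ => ?_
  rw [← Finset.sum_add_distrib]
  refine Finset.sum_congr rfl fun k _ => ?_
  rw [coeff_add, add_mul, C_add, add_mul]

lemma Phi_smul (N : ℕ) (t q : ℝ[X]) (a : ℝ) : Phi N t (a • q) = a • Phi N t q := by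
  unfold Phi
  rw [Finset.smul_sum]
  refine Finset.sum_congr rfl fun j _ => ?_
  rw [Finset.smul_sum]
  refine Finset.sum_congr rfl fun k _ => ?_
  rw [coeff_smul, smul_eq_mul, mul_assoc, C_mul, smul_eq_C_mul, mul_assoc]

/-- A nonzero real polynomial has only finitely many zeros on the upper half circle. -/
lemma finite_zeros {q : ℝ[X]} (hq : q ≠ 0) : {x : I | aeval (ez x) q = 0}.Finite := by
  have hq' : q.map (algebraMap ℝ ℂ) ≠ 0 := (Polynomial.map_ne_zero_iff (algebraMap ℝ ℂ).injective).2 hq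
  have h1 : ((q.map (algebraMap ℝ ℂ)).rootSet ℂ).Finite := rootSet_finite _ _
  have h2 : {x : I | aeval (ez x) q = 0} ⊆ ez ⁻¹' ((q.map (algebraMap ℝ ℂ)).rootSet ℂ) := by
    intro x hx
    rw [mem_preimage, mem_rootSet]
    refine ⟨hq', ?_⟩
    have hx' : aeval (ez x) q = 0 := hx
    rw [aeval_map_algebraMap]
    exact hx'
  exact (h1.preimage ez_injective.injOn).subset h2

lemma rho_finite_zero {s : Set I} (hs : s.Finite) : rho s = 0 := by
  have hatom : ∀ x : I, rho {x} = 0 := by
    intro x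
    rw [rho, Measure.smul_apply, Measure.map_apply continuous_cosI.measurable (measurableSet_singleton x)]
    rw [Measure.restrict_apply (continuous_cosI.measurable (measurableSet_singleton x))]
    have : (cosI ⁻¹' {x} ∩ Ioo 0 π).Subsingleton := by
      rintro a ⟨ha, ha'⟩ b ⟨hb, hb'⟩
      have h1 : Real.cos a = Real.cos b := by
        have h2 : cosI a = cosI b := by
          rw [mem_preimage, mem_singleton_iff] at ha hb
          rw [ha, hb]
        exact congrArg Subtype.val h2
      exact Real.injOn_cos ⟨ha'.1.le, ha'.2.le⟩ ⟨hb'.1.le, hb'.2.le⟩ h1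
    rw [this.measure_zero]
    simp
  have : s = ⋃ x ∈ s, {x} := by simp
  rw [this]
  exact (measure_biUnion_null_iff hs.countable).2 fun x _ => hatom x

/-- If `Re (q conj t)` vanishes on the circle, then `q = 0`. -/
lemma eq_zero_of_Phi {N : ℕ} {t q : ℝ[X]} (ht : ZF t) (hN : t.natDegree ≤ N) (hq : q.natDegree ≤ N)
    (h : Phi N t q = 0) : q = 0 := by
  have hre : ∀ x : I, (aeval (ez x) q / aeval (ez x) t).re = 0 := by
    intro x
    have h1 := eval_Phi hN hq x
    rw [h, eval_zero] at h1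
    rw [Complex.div_re]
    rw [Complex.mul_re, Complex.conj_re, Complex.conj_im] at h1
    rw [← add_div]
    rw [show (aeval (ez x) q).re * (aeval (ez x) t).re + (aeval (ez x) q).im * (aeval (ez x) t).im = 0 by linarith]
    simp
  have h2 := integral_ratio (q ^ 2) t 2 ht
  have h3 : ∫ x, (aeval (ez x) (q ^ 2) / aeval (ez x) t ^ 2).re ∂rho =
      - ∫ x, sq q x / sq t x ∂rho := by
    rw [← integral_neg]
    refine integral_congr_ae (Eventually.of_forall fun x => ?_)
    simp only
    rw [map_pow, ← div_pow, sq_eq, sq_eq, ← div_pow, ← norm_div]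
    set w := aeval (ez x) q / aeval (ez x) t with hw
    have hw0 : w.re = 0 := hre x
    rw [← Complex.normSq_eq_norm_sq, Complex.normSq_apply, pow_two, Complex.mul_re, hw0]
    ring
  have h4 : ((q ^ 2).coeff 0) / (t.coeff 0) ^ 2 = (q.coeff 0 / t.coeff 0) ^ 2 := by
    rw [coeff_zero_eq_eval_zero, eval_pow, ← coeff_zero_eq_eval_zero, div_pow]
  rw [h3, h4] at h2
  have hcont : Continuous fun x => sq q x / sq t x :=
    (continuous_sq q).div (continuous_sq t) fun x => (ht.sq_pos x).ne'
  have hnn : ∀ x, 0 ≤ sq q x / sq t x := fun x => div_nonneg (sq_nonneg' q x) (sq_nonneg' t x)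
  have h5 : ∫ x, sq q x / sq t x ∂rho = 0 := by
    have h6 : 0 ≤ ∫ x, sq q x / sq t x ∂rho := integral_nonneg hnn
    nlinarith [sq_nonneg (q.coeff 0 / t.coeff 0)]
  rw [integral_eq_zero_iff_of_nonneg hnn (integrable_of_continuous hcont _)] at h5
  by_contra hq0
  have h6 := rho_finite_zero (finite_zeros hq0)
  have h7 : rho {x : I | aeval (ez x) q = 0}ᶜ = 0 := by
    refine measure_mono_null (fun x hx => ?_) (ae_iff.1 h5)
    simp only [Set.mem_ofPred_eq, Pi.zero_apply]
    have : 0 < sq q x := Complex.normSq_pos.2 hx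
    exact (div_pos this (ht.sq_pos x)).ne'
  have h8 : rho univ ≤ 0 := by
    rw [← union_compl_self {x : I | aeval (ez x) q = 0}]
    refine (measure_union_le _ _).trans ?_
    rw [h6, h7, add_zero]
  rw [measure_univ] at h8
  exact absurd h8 (by simp)

/-- Surjectivity: each polynomial of degree `≤ N` in `x` is `Re (q conj t)`. -/
lemma exists_Phi_eq {N : ℕ} {t : ℝ[X]} (ht : ZF t) (hN : t.natDegree ≤ N) (g : ℝ[X])
    (hg : g.natDegree ≤ N) : ∃ q : ℝ[X], q.natDegree ≤ N ∧ Phi N t q = g := by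
  have hmem : ∀ p : ℝ[X], p ∈ degreeLT ℝ (N + 1) ↔ p.natDegree ≤ N := by
    intro p
    rw [mem_degreeLT]
    constructor
    · intro h
      rcases eq_or_ne p 0 with rfl | hp
      · simp
      · exact Nat.lt_succ_iff.1 ((natDegree_lt_iff_degree_lt hp).2 h)
    · intro h
      exact degree_le_natDegree.trans_lt (Nat.cast_lt.2 (Nat.lt_succ_of_le h))
  have : FiniteDimensional ℝ (degreeLT ℝ (N + 1)) :=
    Module.Finite.equiv (degreeLTEquiv ℝ (N + 1)).symm
  let f : degreeLT ℝ (N + 1) →ₗ[ℝ] degreeLT ℝ (N + 1) :=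
    { toFun := fun q => ⟨Phi N t q, (hmem _).2 (natDegree_Phi_le N t q)⟩
      map_add' := fun q r => Subtype.ext (Phi_add N t q r)
      map_smul' := fun a q => Subtype.ext (Phi_smul N t q a) }
  have hinj : Function.Injective f := by
    rw [← LinearMap.ker_eq_bot, LinearMap.ker_eq_bot']
    intro q hq
    have h1 : Phi N t q = 0 := congrArg Subtype.val hq
    exact Subtype.ext (eq_zero_of_Phi ht hN ((hmem _).1 q.2) h1)
  obtain ⟨q, hq⟩ := (LinearMap.injective_iff_surjective.1 hinj) ⟨g, (hmem g).2 hg⟩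
  exact ⟨q, (hmem _).1 q.2, congrArg Subtype.val hq⟩

/-- `t` is orthogonal to `z, …, z^N` with respect to `β`. -/
def Orth (N : ℕ) (β : Measure I) (t : ℝ[X]) : Prop :=
  ∀ h : ℝ[X], h.natDegree ≤ N → h.coeff 0 = 0 →
    ∫ x, (aeval (ez x) h * conj (aeval (ez x) t)).re ∂β = 0

lemma continuous_re_mul (p q : ℝ[X]) :
    Continuous fun x : I => (aeval (ez x) p * conj (aeval (ez x) q)).re :=
  Complex.continuous_re.comp ((continuous_aeval_ez p).mul
    (Complex.continuous_conj.comp (continuous_aeval_ez q)))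

/-- The Bernstein–Szegő identity. -/
lemma bernstein_szego {N : ℕ} {t : ℝ[X]} {β : Measure I} [IsFiniteMeasure β] (ht : ZF t)
    (hN : t.natDegree ≤ N) (ht0 : t.coeff 0 = 1) (ho : Orth N β t) (g : ℝ[X])
    (hg : g.natDegree ≤ N) :
    (∫ x, sq t x ∂β) * ∫ x, g.eval (x : ℝ) / sq t x ∂rho = ∫ x, g.eval (x : ℝ) ∂β := by
  obtain ⟨q, hq, rfl⟩ := exists_Phi_eq ht hN g hg
  have h1 : ∫ x, (Phi N t q).eval (x : ℝ) / sq t x ∂rho = q.coeff 0 := by
    have h2 := integral_ratio q t 1 ht
    rw [ht0, pow_one, div_one] at h2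
    rw [← h2]
    refine integral_congr_ae (Eventually.of_forall fun x => ?_)
    simp only
    rw [eval_Phi hN hq, pow_one, Complex.div_re, Complex.mul_re, Complex.conj_re, Complex.conj_im,
      sq, ← add_div]
    congr 1
    ring
  have h3 : ∫ x, (Phi N t q).eval (x : ℝ) ∂β = q.coeff 0 * ∫ x, sq t x ∂β := by
    have h4 := ho (q - C (q.coeff 0) * t) ?_ ?_
    · rw [← integral_const_mul]
      have h5 : ∫ x, ((Phi N t q).eval (x : ℝ) - q.coeff 0 * sq t x) ∂β = 0 := by
        rw [← h4]
        refine integral_congr_ae (Eventually.of_forall fun x => ?_)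
        simp only
        rw [eval_Phi hN hq, map_sub, map_mul, aeval_C, sub_mul, Complex.sub_re, mul_assoc,
          Complex.mul_conj, ← sq, Complex.coe_algebraMap, ← Complex.ofReal_mul, Complex.ofReal_re]
      rw [integral_sub] at h5
      · linarith
      · exact integrable_of_continuous (by fun_prop) _
      · exact integrable_of_continuous ((continuous_sq t).const_mul _) _
    · refine (natDegree_sub_le _ _).trans (max_le hq ?_)
      exact (natDegree_C_mul_le _ _).trans hN
    · rw [coeff_sub, coeff_C_mul, ht0]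
      ring
  rw [h1, h3]
  ring

/-- The leading coefficient of `t` is small when `|t|^2` is close to a polynomial of low degree. -/
lemma abs_coeff_le {N : ℕ} {t g : ℝ[X]} (ht : ZF t) (hN : t.natDegree ≤ N) (ht0 : t.coeff 0 = 1)
    (hg : g.natDegree < N) :
    |t.coeff N| ≤ ∫ x, |1 - g.eval (x : ℝ) / sq t x| ∂rho := by
  have h1 : ∫ x, (aeval (ez x) (reflect N t) / (aeval (ez x) t) ^ 1).re ∂rho = t.coeff N := by
    rw [integral_ratio _ _ _ ht, coeff_zero_reflect, ht0]
    simp
  have h2 : ∫ x, (aeval (ez x) (X * lift (N - 1) g) / (aeval (ez x) t) ^ 2).re ∂rho = 0 := by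
    rw [integral_ratio _ _ _ ht]
    simp
  have hg' : g.natDegree ≤ N - 1 := by omega
  have hc1 : Continuous fun x : I => (aeval (ez x) (reflect N t) / (aeval (ez x) t) ^ 1).re :=
    Complex.continuous_re.comp ((continuous_aeval_ez _).div ((continuous_aeval_ez t).pow 1)
      fun x => pow_ne_zero _ (ht.ne x))
  have hc2 : Continuous fun x : I =>
      (aeval (ez x) (X * lift (N - 1) g) / (aeval (ez x) t) ^ 2).re :=
    Complex.continuous_re.comp ((continuous_aeval_ez _).div ((continuous_aeval_ez t).pow 2)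
      fun x => pow_ne_zero _ (ht.ne x))
  have hc3 : Continuous fun x : I => 1 - g.eval (x : ℝ) / sq t x :=
    continuous_const.sub (Continuous.div (by fun_prop) (continuous_sq t)
      fun x => (ht.sq_pos x).ne')
  rw [← h1, ← sub_zero (∫ x, (aeval (ez x) (reflect N t) / (aeval (ez x) t) ^ 1).re ∂rho), ← h2,
    ← integral_sub (integrable_of_continuous hc1 _) (integrable_of_continuous hc2 _)]
  refine abs_integral_le_integral_abs.trans ?_
  refine integral_mono (integrable_of_continuous (hc1.sub hc2).abs _)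
    (integrable_of_continuous hc3.abs _) fun x => ?_
  simp only
  rw [← Complex.sub_re, aeval_reflect_ez hN, map_mul, aeval_X, aeval_lift_ez hg']
  have hne := ht.ne x
  have hnec : conj (aeval (ez x) t) ≠ 0 := by simpa using hne
  have e1 : ((sq t x : ℝ) : ℂ) = aeval (ez x) t * conj (aeval (ez x) t) := by
    rw [sq, Complex.mul_conj]
  have e2 : ez x ^ N * conj (aeval (ez x) t) / (aeval (ez x) t) ^ 1 -
      ez x * (ez x ^ (N - 1) * ((g.eval (x : ℝ) : ℝ) : ℂ)) / (aeval (ez x) t) ^ 2 =
      ez x ^ N * (conj (aeval (ez x) t) / aeval (ez x) t) *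
        ((1 - g.eval (x : ℝ) / sq t x : ℝ) : ℂ) := by
    rw [Complex.ofReal_sub, Complex.ofReal_one, Complex.ofReal_div, e1]
    obtain ⟨M, rfl⟩ : ∃ M, N = M + 1 := ⟨N - 1, by omega⟩
    simp only [Nat.add_sub_cancel]
    generalize aeval (ez x) t = a at hne hnec ⊢
    generalize (starRingEnd ℂ) a = b at hnec ⊢
    field_simp
    ring
  rw [e2]
  refine (Complex.abs_re_le_norm _).trans (le_of_eq ?_)
  rw [norm_mul, norm_mul, norm_pow, norm_ez, one_pow, one_mul, norm_div, Complex.norm_conj,
    div_self (norm_ne_zero_iff.2 hne), one_mul, Complex.norm_real, Real.norm_eq_abs]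

end Pool.Agent.E96
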