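import Mathlib

/-!
# L^p extremal polynomials: the arcsine law and averages of analytic functions
-/

open MeasureTheory Polynomial Set Filter Topology
open scoped Real ENNReal Polynomial ComplexConjugate

namespace Pool.Agent.E96

/-- The interval `[-1,1]` as a type. -/
abbrev I := Set.Icc (-1 : ℝ) 1

/-- The point of the closed upper unit half circle above `x`. -/
noncomputable def ez (x : I) : ℂ := ⟨x, √(1 - (x : ℝ) ^ 2)⟩

lemma ez_re (x : I) : (ez x).re = x := rfl

lemma one_sub_sq_nonneg (x : I) : 0 ≤ 1 - (x : ℝ) ^ 2 := by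
  have h1 := x.2.1
  have h2 := x.2.2
  nlinarith

lemma normSq_ez (x : I) : Complex.normSq (ez x) = 1 := by
  rw [Complex.normSq_apply]
  simp only [ez]
  have := Real.mul_self_sqrt (one_sub_sq_nonneg x)
  nlinarith

lemma norm_ez (x : I) : ‖ez x‖ = 1 := by
  have h := normSq_ez x
  rw [Complex.normSq_eq_norm_sq] at h
  have h0 := norm_nonneg (ez x)
  nlinarith

lemma ez_ne_zero (x : I) : ez x ≠ 0 := by
  intro h
  have := norm_ez x
  rw [h, norm_zero] at this
  exact zero_ne_one this

lemma continuous_ez : Continuous ez := by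
  have h1 : Continuous fun x : I => ((x : ℝ) : ℂ) + (√(1 - (x : ℝ) ^ 2) : ℝ) * Complex.I := by
    fun_prop
  convert h1 using 1
  ext x
  apply Complex.ext <;> simp [ez]

lemma ez_injective : Function.Injective ez := by
  intro x y h
  apply Subtype.ext
  have := congrArg Complex.re h
  simpa [ez_re] using this

lemma conj_ez (x : I) : conj (ez x) = (ez x)⁻¹ := by
  rw [Complex.inv_def, normSq_ez]
  simp

lemma ez_add_inv (x : I) : ez x + (ez x)⁻¹ = 2 * (x : ℝ) := by
  rw [← conj_ez, Complex.add_conj, ez_re]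
  push_cast
  ring

/-- `cos` as a map to `[-1,1]`. -/
noncomputable def cosI (φ : ℝ) : I := ⟨Real.cos φ, Real.neg_one_le_cos _, Real.cos_le_one _⟩

lemma continuous_cosI : Continuous cosI := by
  unfold cosI
  exact Continuous.subtype_mk Real.continuous_cos _

lemma ez_cosI {φ : ℝ} (h0 : 0 ≤ φ) (h1 : φ ≤ π) : ez (cosI φ) = Complex.exp (φ * Complex.I) := by
  apply Complex.ext
  · simp [ez, cosI, Complex.exp_ofReal_mul_I_re]
  · simp only [ez, cosI, Complex.exp_ofReal_mul_I_im]
    have h : 1 - Real.cos φ ^ 2 = Real.sin φ ^ 2 := by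
      have := Real.sin_sq_add_cos_sq φ
      linarith
    rw [h, Real.sqrt_sq (Real.sin_nonneg_of_nonneg_of_le_pi h0 h1)]

/-- The arcsine law on `[-1,1]`: the law of `cos φ`, `φ` uniform in `(0, π)`. -/
noncomputable def rho : Measure I :=
  ENNReal.ofReal π⁻¹ • (volume.restrict (Ioo 0 π)).map cosI

instance : IsProbabilityMeasure rho := by
  constructor
  rw [rho, Measure.smul_apply, Measure.map_apply continuous_cosI.measurable MeasurableSet.univ]
  simp only [preimage_univ, Measure.restrict_apply, MeasurableSet.univ, univ_inter, Real.volume_Ioo,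
    sub_zero, smul_eq_mul]
  rw [← ENNReal.ofReal_mul (by positivity), inv_mul_cancel₀ Real.pi_ne_zero, ENNReal.ofReal_one]

lemma integral_rho {E : Type*} [NormedAddCommGroup E] [NormedSpace ℝ E] (f : I → E)
    (hf : AEStronglyMeasurable f ((volume.restrict (Ioo 0 π)).map cosI)) :
    ∫ x, f x ∂rho = π⁻¹ • ∫ φ in (0 : ℝ)..π, f (cosI φ) := by
  rw [rho, integral_smul_measure, ENNReal.toReal_ofReal (by positivity),
    integral_map continuous_cosI.aemeasurable hf,
    intervalIntegral.integral_of_le Real.pi_pos.le, integral_Ioc_eq_integral_Ioo]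

/-- Averages of functions analytic in the disc which are real on the real axis. -/
lemma integral_re_analytic (f : ℂ → ℂ) (hf : DiffContOnCl ℂ f (Metric.ball 0 1))
    (hfc : ContinuousOn f (Metric.closedBall 0 1))
    (hsymm : ∀ z : ℂ, ‖z‖ = 1 → f (conj z) = conj (f z)) :
    ∫ x, (f (ez x)).re ∂rho = (f 0).re := by
  have hcont : Continuous fun x : I => (f (ez x)).re := by
    refine Complex.continuous_re.comp ?_
    refine hfc.comp_continuous continuous_ez fun x => ?_
    simp [norm_ez]
  rw [integral_rho _ hcont.aestronglyMeasurable]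
  have h1 : Real.circleAverage f 0 1 = f 0 := by
    apply DiffContOnCl.circleAverage
    simpa using hf
  have hcm : ∀ θ : ℝ, circleMap 0 1 θ = Complex.exp (θ * Complex.I) := by
    intro θ
    simp [circleMap]
  have hcm1 : ∀ θ : ℝ, ‖circleMap 0 1 θ‖ = 1 := by
    intro θ
    simp
  set g : ℝ → ℝ := fun θ => (f (circleMap 0 1 θ)).re with hg
  have hgcont : Continuous g := by
    refine Complex.continuous_re.comp ?_
    refine hfc.comp_continuous (continuous_circleMap 0 1) fun x => ?_
    simp
  have hfcont : Continuous fun θ : ℝ => f (circleMap 0 1 θ) := by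
    refine hfc.comp_continuous (continuous_circleMap 0 1) fun x => ?_
    simp
  have h2 : (2 * π)⁻¹ * ∫ θ in (0 : ℝ)..(2 * π), g θ = (f 0).re := by
    rw [← h1, Real.circleAverage]
    have : (∫ θ in (0 : ℝ)..(2 * π), f (circleMap 0 1 θ)).re = ∫ θ in (0 : ℝ)..(2 * π), g θ := by
      have := Complex.reCLM.intervalIntegral_comp_comm
        (hfcont.intervalIntegrable (μ := volume) 0 (2 * π))
      simpa [hg] using this.symm
    rw [Complex.smul_re, this, smul_eq_mul]
  have h3 : ∫ θ in π..(2 * π), g θ = ∫ θ in (0 : ℝ)..π, g θ := by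
    have h4 := intervalIntegral.integral_comp_sub_left (fun θ => g θ) (a := (0 : ℝ)) (b := π) (2 * π)
    have h5 : (2 * π - π) = π := by ring
    rw [h5, sub_zero] at h4
    rw [← h4]
    refine intervalIntegral.integral_congr fun θ _ => ?_
    simp only [hg]
    have h6 : circleMap 0 1 (2 * π - θ) = conj (circleMap 0 1 θ) := by
      rw [hcm, hcm, ← Complex.exp_conj]
      have : ((2 * π - θ : ℝ) : ℂ) * Complex.I = 2 * π * Complex.I + conj ((θ : ℂ) * Complex.I) := by
        simp only [Complex.ofReal_sub, Complex.ofReal_mul, Complex.ofReal_ofNat, map_mul,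
          Complex.conj_ofReal, Complex.conj_I]
        ring
      rw [this, Complex.exp_add, Complex.exp_two_pi_mul_I, one_mul]
    rw [h6, hsymm _ (hcm1 θ), Complex.conj_re]
  have h7 : ∫ θ in (0 : ℝ)..(2 * π), g θ = 2 * ∫ θ in (0 : ℝ)..π, g θ := by
    rw [← intervalIntegral.integral_add_adjacent_intervals
      (hgcont.intervalIntegrable (μ := volume) 0 π) (hgcont.intervalIntegrable (μ := volume) π (2 * π)), h3]
    ring
  have h8 : ∫ φ in (0 : ℝ)..π, (f (ez (cosI φ))).re = ∫ θ in (0 : ℝ)..π, g θ := by
    refine intervalIntegral.integral_congr fun θ hθ => ?_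
    rw [uIcc_of_le Real.pi_pos.le] at hθ
    simp only [hg]
    rw [hcm, ez_cosI hθ.1 hθ.2]
  rw [h8, ← h2, h7, smul_eq_mul]
  have := Real.pi_ne_zero
  field_simp

lemma aeval_conj' (A : ℝ[X]) (z : ℂ) : aeval (conj z) A = conj (aeval z A) := by
  exact Polynomial.aeval_conj A z

/-- `t` has no zero in the closed unit disc. -/
def ZF (t : ℝ[X]) : Prop := ∀ z : ℂ, ‖z‖ ≤ 1 → aeval z t ≠ 0

/-- Averages of ratios of real polynomials. -/
lemma integral_ratio (A t : ℝ[X]) (j : ℕ) (ht : ZF t) :
    ∫ x, (aeval (ez x) A / (aeval (ez x) t) ^ j).re ∂rho = A.coeff 0 / (t.coeff 0) ^ j := by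
  have h := integral_re_analytic (fun z => aeval z A / (aeval z t) ^ j) ?_ ?_ ?_
  · rw [h]
    have hA : aeval (0 : ℂ) A = ((A.coeff 0 : ℝ) : ℂ) := by
      rw [aeval_def, eval₂_at_zero]; simp
    have ht' : aeval (0 : ℂ) t = ((t.coeff 0 : ℝ) : ℂ) := by
      rw [aeval_def, eval₂_at_zero]; simp
    simp only [hA, ht']
    rw [← Complex.ofReal_pow, ← Complex.ofReal_div, Complex.ofReal_re]
  · have : DifferentiableOn ℂ (fun z : ℂ => aeval z A / (aeval z t) ^ j) (Metric.closedBall 0 1) := by
      refine DifferentiableOn.div ?_ ?_ ?_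
      · exact (Polynomial.differentiable_aeval A).differentiableOn
      · exact ((Polynomial.differentiable_aeval t).pow j).differentiableOn
      · intro z hz
        exact pow_ne_zero _ (ht z (by simpa using hz))
    refine DifferentiableOn.diffContOnCl ?_
    rwa [closure_ball (0 : ℂ) one_ne_zero]
  · refine ContinuousOn.div ?_ ?_ ?_
    · exact (Polynomial.continuous_aeval A).continuousOn
    · exact ((Polynomial.continuous_aeval t).pow j).continuousOn
    · intro z hz
      exact pow_ne_zero _ (ht z (by simpa using hz))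
  · intro z _
    simp only [aeval_conj', map_div₀, map_pow]

end Pool.Agent.E96
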