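import Pool.Agent.E96.Fold

/-!
# L^p extremal polynomials: measures close to the arcsine law, the key inequality
-/

open MeasureTheory Polynomial Set Filter Topology
open scoped Real ENNReal Polynomial ComplexConjugate

namespace Pool.Agent.E96

/-- `γ` is close to the arcsine law on `G`, and both have small mass outside of `G`. -/
structure Near (γ : Measure I) (G : Set I) (ε : ℝ) : Prop where
  meas : MeasurableSet G
  low : ∀ F : I → ℝ, Continuous F → (∀ x, 0 ≤ F x) →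
    (1 - ε) * ∫ x in G, F x ∂rho ≤ ∫ x in G, F x ∂γ
  up : ∀ F : I → ℝ, Continuous F → (∀ x, 0 ≤ F x) →
    ∫ x in G, F x ∂γ ≤ (1 + ε) * ∫ x in G, F x ∂rho
  outg : γ.real Gᶜ ≤ ε
  outr : rho.real Gᶜ ≤ ε

section basics

variable {μ : Measure I} [IsFiniteMeasure μ] {G : Set I} {f : I → ℝ}

lemma intOn (hf : Continuous f) (μ : Measure I) [IsFiniteMeasure μ] (G : Set I) :
    IntegrableOn f G μ := (integrable_of_continuous hf μ).integrableOn

lemma split (hG : MeasurableSet G) (hf : Continuous f) :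
    ∫ x, f x ∂μ = ∫ x in G, f x ∂μ + ∫ x in Gᶜ, f x ∂μ :=
  (integral_add_compl hG (integrable_of_continuous hf μ)).symm

lemma set_nonneg (h : ∀ x, 0 ≤ f x) : 0 ≤ ∫ x in G, f x ∂μ := integral_nonneg h

lemma set_le_const {S : ℝ} (hf : Continuous f) (h : ∀ x, f x ≤ S) :
    ∫ x in G, f x ∂μ ≤ S * μ.real G := by
  have h1 : ∫ x in G, f x ∂μ ≤ ∫ _x in G, S ∂μ :=
    integral_mono (intOn hf μ G) (integrable_const S) h
  rwa [setIntegral_const, smul_eq_mul, mul_comm] at h1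

lemma set_mono {g : I → ℝ} (hf : Continuous f) (hg : Continuous g) (h : ∀ x, f x ≤ g x) :
    ∫ x in G, f x ∂μ ≤ ∫ x in G, g x ∂μ :=
  integral_mono (intOn hf μ G) (intOn hg μ G) h

lemma set_le_full (hf : Continuous f) (h : ∀ x, 0 ≤ f x) :
    ∫ x in G, f x ∂μ ≤ ∫ x, f x ∂μ :=
  setIntegral_le_integral (integrable_of_continuous hf μ) (Eventually.of_forall h)

end basics

lemma Near.rho_le_one (G : Set I) : rho.real G ≤ 1 := by
  exact measureReal_le_one

lemma psi_nonneg {q v : ℝ} (hq : 0 < q) (hv : 0 < v) : 0 ≤ (1 - v) * (v ^ (-q) - 1) := by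
  rcases le_total v 1 with h | h
  · exact mul_nonneg (by linarith) (sub_nonneg.2 (Real.one_le_rpow_of_pos_of_le_one_of_nonpos hv h (by linarith)))
  · exact mul_nonneg_of_nonpos_of_nonpos (by linarith)
      (sub_nonpos.2 (Real.rpow_le_one_of_one_le_of_nonpos h (by linarith)))

lemma key_arith {a b a1 b1 a2 b2 W L S ε c : ℝ} (hε0 : 0 ≤ ε) (hε : ε ≤ 1 / 4) (hS : 0 ≤ S)
    (e0 : 0 = a1 - b1 + (a2 - b2)) (ha2 : 0 ≤ a2) (hb2 : b2 ≤ S * ε) (hb : b ≤ S)
    (hlow : (1 - ε) * a ≤ a1) (hup : b1 ≤ (1 + ε) * b) (hW : -(S * ε) ≤ W)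
    (hL : c * L ≤ a - b - W) (hcL0 : 0 ≤ c * L) :
    c * L ≤ 5 * S * ε ∧ a2 - b2 ≤ 3 * S * ε := by
  have h1 : (1 - ε) * (a - b) ≤ a1 - b1 + 2 * (ε * b) := by linarith
  have h2 : ε * b ≤ ε * S := mul_le_mul_of_nonneg_left hb hε0
  have h3 : (1 - ε) * (a - b) ≤ 3 * (S * ε) := by linarith
  have hSε : 0 ≤ S * ε := mul_nonneg hS hε0
  have h4 : a - b ≤ 4 * (S * ε) := by
    by_contra hcon
    push Not at hcon
    have h5 : 3 / 4 * (a - b) ≤ (1 - ε) * (a - b) :=
      mul_le_mul_of_nonneg_right (by linarith) (by linarith)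
    linarith
  refine ⟨by linarith, ?_⟩
  have h6 : -(S * ε) ≤ a - b := by linarith
  have h7 : (1 - ε) * (-(S * ε)) ≤ (1 - ε) * (a - b) :=
    mul_le_mul_of_nonneg_left h6 (by linarith)
  have h8 : 0 ≤ ε * (S * ε) := mul_nonneg hε0 hSε
  linarith

/-- The key inequality. -/
lemma key_ineq {γ : Measure I} [IsFiniteMeasure γ] {G : Set I} {ε : ℝ} (hn : Near γ G ε)
    (hε0 : 0 ≤ ε) (hε : ε ≤ 1 / 4) {S q c : ℝ} (hq : 0 < q) (hS : 0 ≤ S) (hc : 0 < c)
    {v Ω Ω1 : I → ℝ} (hv : Continuous v) (hvp : ∀ x, 0 < v x) (hΩ : Continuous Ω)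
    (hΩ1 : Continuous Ω1) (hΩ0 : ∀ x, 0 ≤ Ω x) (hΩ10 : ∀ x, 0 ≤ Ω1 x)
    (hS1 : ∀ x, 1 ≤ v x → Ω x ≤ S) (hS2 : ∀ x, Ω1 x ≤ S)
    (club : ∫ x, (1 / v x - 1) * Ω x ∂γ = 0) (heart : ∫ x, (1 - v x) * Ω1 x ∂rho = 0)
    (mono : ∀ x, c * ((1 - v x) * ((v x) ^ (-q) - 1)) ≤ (1 - v x) * (Ω x / v x - Ω1 x)) :
    c * ∫ x in G, (1 - v x) * ((v x) ^ (-q) - 1) ∂rho ≤ 5 * S * ε ∧
      ∫ x in Gᶜ, (1 / v x - 1) * Ω x ∂γ ≤ 3 * S * ε := by
  have hvne : ∀ x, v x ≠ 0 := fun x => (hvp x).ne'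
  have hψc : Continuous fun x => (1 - v x) * ((v x) ^ (-q) - 1) := by
    have : Continuous fun x => (v x) ^ (-q) := hv.rpow_const fun x => Or.inl (hvne x)
    fun_prop
  have hfc : Continuous fun x => (1 / v x - 1) * Ω x := by
    have : Continuous fun x => 1 / v x := continuous_const.div hv hvne
    fun_prop
  set A : I → ℝ := fun x => max ((1 / v x - 1) * Ω x) 0 with hA
  set B : I → ℝ := fun x => max (-((1 / v x - 1) * Ω x)) 0 with hB
  have hAc : Continuous A := hfc.max continuous_const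
  have hBc : Continuous B := hfc.neg.max continuous_const
  have hA0 : ∀ x, 0 ≤ A x := fun x => le_max_right _ _
  have hB0 : ∀ x, 0 ≤ B x := fun x => le_max_right _ _
  have hAB : ∀ x, A x - B x = (1 / v x - 1) * Ω x := by
    intro x
    simp only [hA, hB]
    rcases le_total 0 ((1 / v x - 1) * Ω x) with h | h
    · rw [max_eq_left h, max_eq_right (by linarith)]; ring
    · rw [max_eq_right h, max_eq_left (by linarith)]; ring
  have hBS : ∀ x, B x ≤ S := by
    intro x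
    simp only [hB]
    refine max_le ?_ hS
    rcases le_total 1 (v x) with h | h
    · have h1 := hS1 x h
      have h2 : 0 ≤ 1 / v x := by have := hvp x; positivity
      nlinarith [hΩ0 x]
    · have h1 : 1 ≤ 1 / v x := by rw [le_div_iff₀ (hvp x)]; linarith
      nlinarith [hΩ0 x, mul_nonneg (sub_nonneg.2 h1) (hΩ0 x)]
  have hGm := hn.meas
  -- the integrals
  have e1 : ∫ x in G, (1 / v x - 1) * Ω x ∂γ = ∫ x in G, A x ∂γ - ∫ x in G, B x ∂γ := by
    rw [← integral_sub (intOn hAc γ G) (intOn hBc γ G)]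
    simp only [hAB]
  have e2 : ∫ x in Gᶜ, (1 / v x - 1) * Ω x ∂γ = ∫ x in Gᶜ, A x ∂γ - ∫ x in Gᶜ, B x ∂γ := by
    rw [← integral_sub (intOn hAc γ Gᶜ) (intOn hBc γ Gᶜ)]
    simp only [hAB]
  have e3 : ∫ x in G, (1 / v x - 1) * Ω x ∂rho = ∫ x in G, A x ∂rho - ∫ x in G, B x ∂rho := by
    rw [← integral_sub (intOn hAc rho G) (intOn hBc rho G)]
    simp only [hAB]
  have e0 := split hGm hfc (μ := γ)
  rw [club] at e0
  have ha2 : 0 ≤ ∫ x in Gᶜ, A x ∂γ := set_nonneg hA0
  have hb2 : ∫ x in Gᶜ, B x ∂γ ≤ S * ε :=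
    (set_le_const hBc hBS).trans (mul_le_mul_of_nonneg_left hn.outg hS)
  have hb : ∫ x in G, B x ∂rho ≤ S := by
    refine (set_le_const hBc hBS).trans ?_
    have := Near.rho_le_one G
    nlinarith
  have hb0 : 0 ≤ ∫ x in G, B x ∂rho := set_nonneg hB0
  have hlow := hn.low A hAc hA0
  have hup := hn.up B hBc hB0
  -- heart
  have hWc : Continuous fun x => (1 - v x) * Ω1 x := by fun_prop
  have e4 := split hGm hWc (μ := rho)
  rw [heart] at e4
  have hW : -(S * ε) ≤ ∫ x in G, (1 - v x) * Ω1 x ∂rho := by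
    have h1 : ∫ x in Gᶜ, (1 - v x) * Ω1 x ∂rho ≤ ∫ x in Gᶜ, Ω1 x ∂rho := by
      refine set_mono hWc hΩ1 fun x => ?_
      nlinarith [hvp x, hΩ10 x, mul_nonneg (hvp x).le (hΩ10 x)]
    have h2 : ∫ x in Gᶜ, Ω1 x ∂rho ≤ S * ε :=
      (set_le_const hΩ1 hS2).trans (mul_le_mul_of_nonneg_left hn.outr hS)
    linarith
  have hL : c * ∫ x in G, (1 - v x) * ((v x) ^ (-q) - 1) ∂rho ≤
      ∫ x in G, (1 / v x - 1) * Ω x ∂rho - ∫ x in G, (1 - v x) * Ω1 x ∂rho := by
    rw [← integral_const_mul, ← integral_sub (intOn hfc rho G) (intOn hWc rho G)]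
    refine set_mono (hψc.const_mul c) (hfc.sub hWc) fun x => ?_
    refine (mono x).trans (le_of_eq ?_)
    have := hvne x
    field_simp
  have hL0 : 0 ≤ ∫ x in G, (1 - v x) * ((v x) ^ (-q) - 1) ∂rho :=
    set_nonneg fun x => psi_nonneg hq (hvp x)
  have hcL0 := mul_nonneg hc.le hL0
  rw [e1, e2] at e0
  rw [e3] at hL
  rw [e2]
  exact key_arith hε0 hε hS e0 ha2 hb2 hb hlow hup hW hL hcL0

/-- `v^(-q)` is controlled by `ψ` -/
lemma rpow_neg_le {q v η : ℝ} (hq : 0 < q) (hv : 0 < v) (hη : 0 < η) (hη1 : η < 1) :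
    v ^ (-q) ≤ (1 - η) ^ (-q) + ((1 - v) * (v ^ (-q) - 1)) / η := by
  have h0 := psi_nonneg hq hv
  have h1 : 1 ≤ (1 - η) ^ (-q) :=
    Real.one_le_rpow_of_pos_of_le_one_of_nonpos (by linarith) (by linarith) (by linarith)
  rcases le_or_gt (1 - η) v with h | h
  · have h2 : v ^ (-q) ≤ (1 - η) ^ (-q) :=
      Real.rpow_le_rpow_of_nonpos (by linarith) h (by linarith)
    have h3 : 0 ≤ ((1 - v) * (v ^ (-q) - 1)) / η := by positivity
    linarith
  · have h2 : 1 ≤ v ^ (-q) := Real.one_le_rpow_of_pos_of_le_one_of_nonpos hv (by linarith) (by linarith)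
    have h3 : v ^ (-q) - 1 ≤ ((1 - v) * (v ^ (-q) - 1)) / η := by
      rw [le_div_iff₀ hη]
      nlinarith
    linarith

/-- `|v^(-q) - 1|` is controlled by `ψ` -/
lemma abs_rpow_neg_sub_le {q v η : ℝ} (hq : 0 < q) (hv : 0 < v) (hη : 0 < η) (hη1 : η < 1) :
    |v ^ (-q) - 1| ≤ ((1 - η) ^ (-q) - 1) + ((1 - v) * (v ^ (-q) - 1)) / η := by
  have h0 := psi_nonneg hq hv
  have h1 : 1 ≤ (1 - η) ^ (-q) :=
    Real.one_le_rpow_of_pos_of_le_one_of_nonpos (by linarith) (by linarith) (by linarith)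
  rw [abs_le]
  constructor
  · rcases le_total v 1 with h | h
    · have h2 : 1 ≤ v ^ (-q) := Real.one_le_rpow_of_pos_of_le_one_of_nonpos hv h (by linarith)
      have h3 : 0 ≤ ((1 - v) * (v ^ (-q) - 1)) / η := by positivity
      linarith
    · rcases le_total v (1 + η) with h' | h'
      · have h2 : (1 - η) ^ q ≤ v ^ (-q) := by
          rw [Real.rpow_neg hv.le, ← Real.inv_rpow hv.le]
          refine Real.rpow_le_rpow (by linarith) ?_ hq.le
          rw [le_inv_comm₀ (by linarith) hv]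
          refine h'.trans ?_
          rw [le_inv_comm₀ (by linarith) (by linarith), inv_eq_one_div, le_div_iff₀ (by linarith)]
          nlinarith
        have h3 : (1 - η) ^ (-q) = ((1 - η) ^ q)⁻¹ := Real.rpow_neg (by linarith) q
        have h4 : 0 < (1 - η) ^ q := Real.rpow_pos_of_pos (by linarith) q
        have h5 : 2 ≤ (1 - η) ^ q + ((1 - η) ^ q)⁻¹ := by
          set y := (1 - η) ^ q
          have : 0 ≤ (y - 1) ^ 2 / y := by positivity
          have h6 : (y - 1) ^ 2 / y = y + y⁻¹ - 2 := by field_simp; ring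
          linarith
        have h6 : 0 ≤ ((1 - v) * (v ^ (-q) - 1)) / η := by positivity
        rw [h3]
        linarith
      · have h2 : v ^ (-q) ≤ 1 := Real.rpow_le_one_of_one_le_of_nonpos h (by linarith)
        have h3 : 1 - v ^ (-q) ≤ ((1 - v) * (v ^ (-q) - 1)) / η := by
          rw [le_div_iff₀ hη]
          nlinarith
        linarith
  · have := rpow_neg_le hq hv hη hη1
    linarith

/-- the constant controlling `|1 - v|` by `ψ` -/
noncomputable def cη (q η : ℝ) : ℝ := min ((1 - η) ^ (-q) - 1) (1 - (1 + η) ^ (-q))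

lemma cη_pos {q η : ℝ} (hq : 0 < q) (hη : 0 < η) (hη1 : η < 1) : 0 < cη q η := by
  refine lt_min ?_ ?_
  · have := Real.one_lt_rpow_of_pos_of_lt_one_of_neg (by linarith : 0 < 1 - η) (by linarith) (by linarith : -q < 0)
    linarith
  · have := Real.rpow_lt_one_of_one_lt_of_neg (by linarith : 1 < 1 + η) (by linarith : -q < 0)
    linarith

lemma abs_one_sub_le {q v η : ℝ} (hq : 0 < q) (hv : 0 < v) (hη : 0 < η) (hη1 : η < 1) :
    |1 - v| ≤ η + ((1 - v) * (v ^ (-q) - 1)) / cη q η := by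
  have h0 := psi_nonneg hq hv
  have hc := cη_pos hq hη hη1
  have h1 : 0 ≤ ((1 - v) * (v ^ (-q) - 1)) / cη q η := by positivity
  rcases le_total (|1 - v|) η with h | h
  · linarith
  · rcases le_total v 1 with h2 | h2
    · rw [abs_of_nonneg (by linarith)] at h ⊢
      have h3 : (1 - η) ^ (-q) ≤ v ^ (-q) :=
        Real.rpow_le_rpow_of_nonpos hv (by linarith) (by linarith)
      have h4 : cη q η ≤ (1 - η) ^ (-q) - 1 := min_le_left _ _
      have h5 : (1 - v) ≤ ((1 - v) * (v ^ (-q) - 1)) / cη q η := by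
        rw [le_div_iff₀ hc]
        refine mul_le_mul_of_nonneg_left (by linarith) (by linarith)
      linarith
    · rw [abs_of_nonpos (by linarith)] at h ⊢
      have h3 : v ^ (-q) ≤ (1 + η) ^ (-q) :=
        Real.rpow_le_rpow_of_nonpos (by linarith) (by linarith) (by linarith)
      have h4 : cη q η ≤ 1 - (1 + η) ^ (-q) := min_le_right _ _
      have h5 : -(1 - v) ≤ ((1 - v) * (v ^ (-q) - 1)) / cη q η := by
        rw [le_div_iff₀ hc]
        nlinarith
      linarith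

/-- tangent inequality -/
lemma tangent_rpow_neg {q v : ℝ} (hq : 0 < q) (hv : 0 < v) : 1 + q - q * v ≤ v ^ (-q) := by
  have h := one_add_mul_self_le_rpow_one_add (s := v⁻¹ - 1)
    (by have := inv_pos.2 hv; linarith) (p := 1) le_rfl
  -- use convexity of x ↦ x^(-q) through weighted AM-GM
  have h1 := Real.add_one_le_exp (-q * Real.log v)
  have h2 : v ^ (-q) = Real.exp (-q * Real.log v) := by
    rw [Real.rpow_def_of_pos hv, mul_comm]
  have h3 : Real.log v ≤ v - 1 := Real.log_le_sub_one_of_pos hv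
  rw [h2]
  nlinarith

section consequences

variable {γ : Measure I} [IsFiniteMeasure γ] {G : Set I} {ε : ℝ} {q : ℝ} {v : I → ℝ}

lemma Near.total_le (hn : Near γ G ε) (hε0 : 0 ≤ ε) : γ.real univ ≤ 1 + 2 * ε := by
  have h1 := split (μ := γ) hn.meas (f := fun _ => (1 : ℝ)) continuous_const
  have h2 := hn.up (fun _ => 1) continuous_const (fun _ => zero_le_one)
  simp only [integral_const, smul_eq_mul, mul_one, measureReal_restrict_apply_univ] at h1 h2
  have h3 := hn.outg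
  have h4 := Near.rho_le_one G
  rw [h1]
  nlinarith

/-- `∫ |1 - v|` is small -/
lemma Near.integral_abs_le (hn : Near γ G ε) (hq : 0 < q) (hv : Continuous v)
    (hvp : ∀ x, 0 < v x) (hv1 : ∫ x, v x ∂rho = 1) {η L : ℝ} (hη : 0 < η) (hη1 : η < 1)
    (hL : ∫ x in G, (1 - v x) * ((v x) ^ (-q) - 1) ∂rho ≤ L) :
    ∫ x, |1 - v x| ∂rho ≤ 2 * (η + L / cη q η) + 2 * ε := by
  have hψc : Continuous fun x => (1 - v x) * ((v x) ^ (-q) - 1) := by
    have : Continuous fun x => (v x) ^ (-q) := hv.rpow_const fun x => Or.inl (hvp x).ne'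
    fun_prop
  have hc := cη_pos hq hη hη1
  have h1 : ∫ x in G, |1 - v x| ∂rho ≤ η + L / cη q η := by
    have h2 : ∫ x in G, |1 - v x| ∂rho ≤
        ∫ x in G, (η + ((1 - v x) * ((v x) ^ (-q) - 1)) / cη q η) ∂rho := by
      refine set_mono (by fun_prop) (continuous_const.add (hψc.div_const _)) fun x => ?_
      exact abs_one_sub_le hq (hvp x) hη hη1
    rw [integral_add (intOn continuous_const rho G) (intOn (hψc.div_const _) rho G),
      integral_div, setIntegral_const, smul_eq_mul] at h2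
    have h3 := Near.rho_le_one G
    have h4 : (∫ x in G, (1 - v x) * ((v x) ^ (-q) - 1) ∂rho) / cη q η ≤ L / cη q η :=
      div_le_div_of_nonneg_right hL hc.le
    nlinarith
  have h5 : ∫ x in Gᶜ, |1 - v x| ∂rho ≤ ε + ∫ x in Gᶜ, v x ∂rho := by
    have h6 : ∫ x in Gᶜ, |1 - v x| ∂rho ≤ ∫ x in Gᶜ, (1 + v x) ∂rho := by
      refine set_mono (by fun_prop) (by fun_prop) fun x => ?_
      have := (hvp x)
      rw [abs_le]
      constructor <;> linarith
    rw [integral_add (intOn continuous_const rho _) (intOn hv rho _), setIntegral_const, smul_eq_mul,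
      mul_one] at h6
    have := hn.outr
    linarith
  have h7 : ∫ x in Gᶜ, v x ∂rho ≤ ε + ∫ x in G, |1 - v x| ∂rho := by
    have h8 := split (μ := rho) hn.meas hv
    rw [hv1] at h8
    have h9 : ∫ x in G, (1 - v x) ∂rho ≤ ∫ x in G, |1 - v x| ∂rho :=
      set_mono (by fun_prop) (by fun_prop) fun x => le_abs_self _
    rw [integral_sub (intOn continuous_const rho _) (intOn hv rho _), setIntegral_const, smul_eq_mul,
      mul_one] at h9
    have h10 : rho.real G + rho.real Gᶜ = 1 := by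
      rw [measureReal_add_measureReal_compl hn.meas]
      simp
    have := hn.outr
    linarith
  have h11 := split (μ := rho) hn.meas (f := fun x => |1 - v x|) (by fun_prop)
  rw [h11]
  linarith

/-- `∫_G v^(-q) f` upper bound -/
lemma Near.integral_G_le (hq : 0 < q) (hv : Continuous v)
    (hvp : ∀ x, 0 < v x) {η L M : ℝ} (hη : 0 < η) (hη1 : η < 1)
    (hL : ∫ x in G, (1 - v x) * ((v x) ^ (-q) - 1) ∂rho ≤ L) {f : I → ℝ} (hf : Continuous f)
    (hf0 : ∀ x, 0 ≤ f x) (hfM : ∀ x, f x ≤ M) (hM : 0 ≤ M) :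
    ∫ x in G, (v x) ^ (-q) * f x ∂rho ≤ (1 - η) ^ (-q) * ∫ x, f x ∂rho + M * L / η := by
  have hvc : Continuous fun x => (v x) ^ (-q) := hv.rpow_const fun x => Or.inl (hvp x).ne'
  have hψc : Continuous fun x => (1 - v x) * ((v x) ^ (-q) - 1) := by fun_prop
  have h1 : ∫ x in G, (v x) ^ (-q) * f x ∂rho ≤
      ∫ x in G, ((1 - η) ^ (-q) * f x + (M / η) * ((1 - v x) * ((v x) ^ (-q) - 1))) ∂rho := by
    refine set_mono (hvc.mul hf) ((hf.const_mul _).add (hψc.const_mul _)) fun x => ?_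
    have h2 := rpow_neg_le hq (hvp x) hη hη1
    have h3 := psi_nonneg hq (hvp x)
    have h4 : (v x) ^ (-q) * f x ≤
        ((1 - η) ^ (-q) + ((1 - v x) * ((v x) ^ (-q) - 1)) / η) * f x :=
      mul_le_mul_of_nonneg_right h2 (hf0 x)
    refine h4.trans ?_
    have h5 : ((1 - v x) * ((v x) ^ (-q) - 1)) / η * f x ≤
        ((1 - v x) * ((v x) ^ (-q) - 1)) / η * M :=
      mul_le_mul_of_nonneg_left (hfM x) (by positivity)
    have h6 : ((1 - v x) * ((v x) ^ (-q) - 1)) / η * M =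
        (M / η) * ((1 - v x) * ((v x) ^ (-q) - 1)) := by ring
    rw [add_mul]
    linarith
  rw [integral_add (intOn (hf.const_mul _) rho G) (intOn (hψc.const_mul _) rho G),
    integral_const_mul, integral_const_mul] at h1
  have h7 : ∫ x in G, f x ∂rho ≤ ∫ x, f x ∂rho := set_le_full hf hf0
  have h8 : 0 ≤ (1 - η) ^ (-q) := Real.rpow_nonneg (by linarith) _
  have h9 : (M / η) * ∫ x in G, (1 - v x) * ((v x) ^ (-q) - 1) ∂rho ≤ (M / η) * L :=
    mul_le_mul_of_nonneg_left hL (by positivity)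
  have h10 : (M / η) * L = M * L / η := by ring
  nlinarith [mul_le_mul_of_nonneg_left h7 h8]

/-- `∫_G v^(-q) f` lower bound, if `f` is uncorrelated with `v` -/
lemma Near.integral_G_ge (hn : Near γ G ε) (hq : 0 < q) (hv : Continuous v)
    (hvp : ∀ x, 0 < v x) {M : ℝ} {f : I → ℝ} (hf : Continuous f)
    (hf0 : ∀ x, 0 ≤ f x) (hfM : ∀ x, f x ≤ M) (hM : 0 ≤ M)
    (hvf : ∫ x, v x * f x ∂rho = ∫ x, f x ∂rho) :
    ∫ x, f x ∂rho - (1 + q) * M * ε ≤ ∫ x in G, (v x) ^ (-q) * f x ∂rho := by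
  have hvc : Continuous fun x => (v x) ^ (-q) := hv.rpow_const fun x => Or.inl (hvp x).ne'
  have h1 : ∫ x in G, ((1 + q) * f x - q * (v x * f x)) ∂rho ≤ ∫ x in G, (v x) ^ (-q) * f x ∂rho := by
    refine set_mono (by fun_prop) (hvc.mul hf) fun x => ?_
    have h2 := mul_le_mul_of_nonneg_right (tangent_rpow_neg hq (hvp x)) (hf0 x)
    linarith
  have hvf' : Continuous fun x => v x * f x := hv.mul hf
  rw [integral_sub (intOn (hf.const_mul _) rho G) (intOn (hvf'.const_mul q) rho G),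
    integral_const_mul, integral_const_mul] at h1
  have h3 : ∫ x in G, v x * f x ∂rho ≤ ∫ x, f x ∂rho := by
    rw [← hvf]
    exact set_le_full (hv.mul hf) fun x => mul_nonneg (hvp x).le (hf0 x)
  have h4 := split (μ := rho) hn.meas hf
  have h5 : ∫ x in Gᶜ, f x ∂rho ≤ M * ε :=
    (set_le_const hf hfM).trans (mul_le_mul_of_nonneg_left hn.outr hM)
  nlinarith

end consequences

end Pool.Agent.E96
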