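import Pool.Agent.E96.Min

/-!
# L^p extremal polynomials: existence of minimisers
-/

open MeasureTheory Polynomial Set Filter Topology
open scoped Real ENNReal Polynomial ComplexConjugate

namespace Pool.Agent.E96

/-- the polynomial with coefficient vector `a` -/
noncomputable def pl (k : ℕ) (a : Fin k → ℝ) : ℝ[X] := ∑ i, C (a i) * X ^ (i : ℕ)

lemma coeff_pl (k : ℕ) (a : Fin k → ℝ) (i : Fin k) : (pl k a).coeff i = a i := by
  rw [pl, finsetSum_coeff, Finset.sum_eq_single i]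
  · simp
  · intro j _ hj
    rw [coeff_C_mul, coeff_X_pow, if_neg, mul_zero]
    exact fun h => hj (Fin.ext h.symm)
  · simp

lemma coeff_pl_of_le (k : ℕ) (a : Fin k → ℝ) {i : ℕ} (hi : k ≤ i) : (pl k a).coeff i = 0 := by
  rw [pl, finsetSum_coeff]
  refine Finset.sum_eq_zero fun j _ => ?_
  rw [coeff_C_mul, coeff_X_pow, if_neg, mul_zero]
  have := j.2
  omega

lemma natDegree_pl_le (k : ℕ) (a : Fin (k + 1) → ℝ) : (pl (k + 1) a).natDegree ≤ k := by
  rw [natDegree_le_iff_coeff_eq_zero]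
  intro i hi
  exact coeff_pl_of_le _ _ hi

lemma pl_coeff {k : ℕ} {t : ℝ[X]} (h : t.natDegree < k) : pl k (fun i => t.coeff i) = t := by
  ext i
  by_cases hi : i < k
  · exact coeff_pl k (fun i => t.coeff i) ⟨i, hi⟩
  · rw [coeff_pl_of_le _ _ (not_lt.1 hi), coeff_eq_zero_of_natDegree_lt (by omega)]

lemma pl_ne_zero {k : ℕ} {a : Fin k → ℝ} (ha : a ≠ 0) : pl k a ≠ 0 := by
  intro h
  apply ha
  ext i
  rw [← coeff_pl k a i, h]
  simp

lemma pl_smul (k : ℕ) (r : ℝ) (a : Fin k → ℝ) : pl k (r • a) = C r * pl k a := by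
  rw [pl, pl, Finset.mul_sum]
  refine Finset.sum_congr rfl fun i _ => ?_
  rw [Pi.smul_apply, smul_eq_mul, C_mul, mul_assoc]

lemma continuous_integral_param {X : Type*} [TopologicalSpace X] [FirstCountableTopology X]
    [LocallyCompactSpace X] (α : Measure I) [IsFiniteMeasure α] {f : X → I → ℝ}
    (hf : Continuous f.uncurry) : Continuous fun a => ∫ x, f a x ∂α := by
  have := continuous_parametric_integral_of_continuous (μ := α) hf isCompact_univ
  simpa using this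

lemma coercive {α : Measure I} [IsFiniteMeasure α] (hα : ND α) {p : ℝ} (hp : 0 < p) (k : ℕ)
    (G : (Fin k → ℝ) → I → ℝ) (hG : Continuous G.uncurry) (h0 : ∀ a x, 0 ≤ G a x)
    (hhom : ∀ (r : ℝ) a x, 0 ≤ r → G (r • a) x = r ^ p * G a x)
    (hfin : ∀ a, a ≠ 0 → {x | G a x = 0}.Finite) :
    ∃ c : ℝ, 0 < c ∧ ∀ a, c * ‖a‖ ^ p ≤ ∫ x, G a x ∂α := by
  have hcont := continuous_integral_param α hG
  rcases (Metric.sphere (0 : Fin k → ℝ) 1).eq_empty_or_nonempty with hs | hs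
  · refine ⟨1, one_pos, fun a => ?_⟩
    have ha : a = 0 := by
      by_contra ha
      have : ‖a‖⁻¹ • a ∈ Metric.sphere (0 : Fin k → ℝ) 1 := by
        simp [norm_smul, norm_ne_zero_iff.2 ha]
      rw [hs] at this
      exact this
    rw [ha, norm_zero, Real.zero_rpow hp.ne', mul_zero]
    exact integral_nonneg (h0 0)
  · obtain ⟨a₀, ha₀, hmin⟩ := (isCompact_sphere (0 : Fin k → ℝ) 1).exists_isMinOn hs hcont.continuousOn
    have ha₀' : a₀ ≠ 0 := by
      rintro rfl
      simp at ha₀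
    refine ⟨∫ x, G a₀ x ∂α, integral_pos_of_ND hα ?_ (h0 a₀) (hfin a₀ ha₀'), fun a => ?_⟩
    · exact hG.comp (Continuous.prodMk_right a₀)
    rcases eq_or_ne a 0 with rfl | ha
    · rw [norm_zero, Real.zero_rpow hp.ne', mul_zero]
      exact integral_nonneg (h0 0)
    · have hn : 0 < ‖a‖ := norm_pos_iff.2 ha
      have h1 : ‖a‖⁻¹ • a ∈ Metric.sphere (0 : Fin k → ℝ) 1 := by
        simp [norm_smul, hn.ne']
      have h2 := hmin h1
      simp only [Set.mem_ofPred_eq] at h2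
      have h3 : ∫ x, G a x ∂α = ‖a‖ ^ p * ∫ x, G (‖a‖⁻¹ • a) x ∂α := by
        rw [← integral_const_mul]
        refine integral_congr_ae (Eventually.of_forall fun x => ?_)
        simp only
        rw [← hhom _ _ _ hn.le, smul_smul, mul_inv_cancel₀ hn.ne', one_smul]
      rw [h3, mul_comm]
      exact mul_le_mul_of_nonneg_left h2 (by positivity)

lemma exists_min_of_coercive {m : ℕ} {F : (Fin m → ℝ) → ℝ} (hF : Continuous F) {c p : ℝ}
    (hc : 0 < c) (hp : 0 < p) (h : ∀ a, c * ‖a‖ ^ p ≤ F a) : ∃ a, ∀ b, F a ≤ F b := by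
  apply hF.exists_forall_le
  have h1 : Tendsto (fun a : Fin m → ℝ => c * ‖a‖ ^ p) (cocompact _) atTop :=
    ((tendsto_rpow_atTop hp).comp tendsto_norm_cocompact_atTop).const_mul_atTop hc
  exact tendsto_atTop_mono h h1

lemma continuous_aeval_pl (k : ℕ) :
    Continuous fun ax : (Fin k → ℝ) × I => aeval (ez ax.2) (pl k ax.1) := by
  have : (fun ax : (Fin k → ℝ) × I => aeval (ez ax.2) (pl k ax.1)) =
      fun ax => ∑ i : Fin k, ((ax.1 i : ℝ) : ℂ) * (ez ax.2) ^ (i : ℕ) := by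
    ext ax
    simp [pl]
  rw [this]
  have h := continuous_ez
  fun_prop

lemma continuous_eval_pl (k : ℕ) :
    Continuous fun ax : (Fin k → ℝ) × I => (pl k ax.1).eval (ax.2 : ℝ) := by
  have : (fun ax : (Fin k → ℝ) × I => (pl k ax.1).eval (ax.2 : ℝ)) =
      fun ax => ∑ i : Fin k, (ax.1 i) * (ax.2 : ℝ) ^ (i : ℕ) := by
    ext ax
    simp [pl, eval_finsetSum]
  rw [this]
  fun_prop

lemma coercive_circle {α : Measure I} [IsFiniteMeasure α] (hα : ND α) {p : ℝ} (hp : 0 < p) (k : ℕ) :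
    ∃ c : ℝ, 0 < c ∧ ∀ a : Fin k → ℝ, c * ‖a‖ ^ p ≤ ∫ x, (sq (pl k a) x) ^ (p / 2) ∂α := by
  refine coercive hα hp k (fun a x => (sq (pl k a) x) ^ (p / 2)) ?_ ?_ ?_ ?_
  · have h1 : Continuous fun ax : (Fin k → ℝ) × I => sq (pl k ax.1) ax.2 :=
      Complex.continuous_normSq.comp (continuous_aeval_pl k)
    exact h1.rpow_const fun _ => Or.inr (by positivity)
  · intro a x
    exact Real.rpow_nonneg (sq_nonneg' _ _) _
  · intro r a x hr
    rw [pl_smul, sq_C_mul, Real.mul_rpow (sq_nonneg r) (sq_nonneg' _ _), ← Real.rpow_natCast,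
      ← Real.rpow_mul hr]
    congr 2
    push_cast
    ring
  · intro a ha
    refine (finite_zeros (pl_ne_zero ha)).subset fun x hx => ?_
    simp only [Set.mem_ofPred_eq] at hx ⊢
    rw [Real.rpow_eq_zero (sq_nonneg' _ _) (by positivity)] at hx
    exact Complex.normSq_eq_zero.1 hx

lemma coercive_line {α : Measure I} [IsFiniteMeasure α] (hα : ND α) {p : ℝ} (hp : 0 < p) (k : ℕ) :
    ∃ c : ℝ, 0 < c ∧ ∀ a : Fin k → ℝ, c * ‖a‖ ^ p ≤ ∫ x : I, (((pl k a).eval (x : ℝ)) ^ 2) ^ (p / 2) ∂α := by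
  refine coercive hα hp k (fun a x => (((pl k a).eval (x : ℝ)) ^ 2) ^ (p / 2)) ?_ ?_ ?_ ?_
  · have h1 : Continuous fun ax : (Fin k → ℝ) × I => ((pl k ax.1).eval (ax.2 : ℝ)) ^ 2 :=
      (continuous_eval_pl k).pow 2
    exact h1.rpow_const fun _ => Or.inr (by positivity)
  · intro a x
    exact Real.rpow_nonneg (sq_nonneg _) _
  · intro r a x hr
    rw [pl_smul, eval_mul, eval_C, mul_pow, Real.mul_rpow (sq_nonneg r) (sq_nonneg _),
      ← Real.rpow_natCast r, ← Real.rpow_mul hr]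
    congr 2
    push_cast
    ring
  · intro a ha
    have h1 : {x : ℝ | (pl k a).IsRoot x}.Finite := finite_setOfPred_isRoot (pl_ne_zero ha)
    refine (h1.preimage Subtype.val_injective.injOn).subset fun x hx => ?_
    simp only [Set.mem_ofPred_eq] at hx
    rw [Real.rpow_eq_zero (sq_nonneg _) (by positivity)] at hx
    exact pow_eq_zero_iff two_ne_zero |>.1 hx

/-- Existence of the `L^p` extremal polynomial on the circle. -/
lemma exists_min_circle {α : Measure I} [IsFiniteMeasure α] (hα : ND α) {p : ℝ} (hp : 0 < p) (N : ℕ) :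
    ∃ t : ℝ[X], t.natDegree ≤ N ∧ t.coeff 0 = 1 ∧ ∀ q : ℝ[X], q.natDegree ≤ N → q.coeff 0 = 1 →
      ∫ x, (sq t x) ^ (p / 2) ∂α ≤ ∫ x, (sq q x) ^ (p / 2) ∂α := by
  obtain ⟨c, hc, hcb⟩ := coercive_circle hα hp (N + 1)
  have hcons : Continuous fun a : Fin N → ℝ => (Fin.cons 1 a : Fin (N + 1) → ℝ) := by
    refine continuous_pi fun i => ?_
    refine Fin.cases ?_ (fun j => ?_) i
    · simpa using continuous_const
    · simpa using continuous_apply j
  have hFc : Continuous fun a : Fin N → ℝ =>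
      ∫ x, (sq (pl (N + 1) (Fin.cons 1 a)) x) ^ (p / 2) ∂α := by
    refine continuous_integral_param α (f := fun (a : Fin N → ℝ) x =>
      (sq (pl (N + 1) (Fin.cons 1 a)) x) ^ (p / 2)) ?_
    have h1 : Continuous fun ax : (Fin N → ℝ) × I => sq (pl (N + 1) (Fin.cons 1 ax.1)) ax.2 :=
      Complex.continuous_normSq.comp ((continuous_aeval_pl (N + 1)).comp
        ((hcons.comp continuous_fst).prodMk continuous_snd))
    exact h1.rpow_const fun _ => Or.inr (by positivity)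
  have hlow : ∀ a : Fin N → ℝ, c * ‖a‖ ^ p ≤
      ∫ x, (sq (pl (N + 1) (Fin.cons 1 a)) x) ^ (p / 2) ∂α := by
    intro a
    refine le_trans ?_ (hcb (Fin.cons 1 a))
    refine mul_le_mul_of_nonneg_left ?_ hc.le
    refine Real.rpow_le_rpow (norm_nonneg _) ?_ hp.le
    refine (pi_norm_le_iff_of_nonneg (norm_nonneg _)).2 fun i => ?_
    have := norm_le_pi_norm (Fin.cons 1 a : Fin (N + 1) → ℝ) i.succ
    simpa using this
  obtain ⟨a, ha⟩ := exists_min_of_coercive hFc hc hp hlow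
  refine ⟨pl (N + 1) (Fin.cons 1 a), natDegree_pl_le _ _, ?_, fun q hq hq0 => ?_⟩
  · simpa using coeff_pl (N + 1) (Fin.cons 1 a) 0
  · have h1 : pl (N + 1) (Fin.cons 1 (fun i : Fin N => q.coeff (i + 1))) = q := by
      conv_rhs => rw [← pl_coeff (Nat.lt_succ_of_le hq)]
      congr 1
      ext i
      refine Fin.cases ?_ (fun j => ?_) i
      · simp [hq0]
      · simp
    have := ha (fun i : Fin N => q.coeff (i + 1))
    rwa [h1] at this

/-- Existence of monic minimisers on the line. -/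
lemma exists_min_line {α : Measure I} [IsFiniteMeasure α] (hα : ND α) {p : ℝ} (hp : 0 < p) (n : ℕ)
    (Φ : I → ℝ → ℝ) (hΦ : Continuous Φ.uncurry) {c' : ℝ} (hc' : 0 < c')
    (hlow : ∀ x y, 0 ≤ y → c' * y ^ (p / 2) ≤ Φ x y) :
    ∃ P : ℝ[X], P.Monic ∧ P.natDegree = n ∧ ∀ Q : ℝ[X], Q.Monic → Q.natDegree = n →
      ∫ x : I, Φ x ((P.eval (x : ℝ)) ^ 2) ∂α ≤ ∫ x : I, Φ x ((Q.eval (x : ℝ)) ^ 2) ∂α := by
  obtain ⟨c, hc, hcb⟩ := coercive_line hα hp (n + 1)
  have hsnoc : Continuous fun a : Fin n → ℝ => (Fin.snoc a 1 : Fin (n + 1) → ℝ) := by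
    refine continuous_pi fun i => ?_
    refine Fin.lastCases ?_ (fun j => ?_) i
    · simpa using continuous_const
    · simpa using continuous_apply j
  have hmonic : ∀ a : Fin n → ℝ, (pl (n + 1) (Fin.snoc a 1)).Monic ∧
      (pl (n + 1) (Fin.snoc a 1)).natDegree = n := by
    intro a
    have h1 : (pl (n + 1) (Fin.snoc a 1)).coeff n = 1 := by
      have := coeff_pl (n + 1) (Fin.snoc a 1) (Fin.last n)
      simpa using this
    have h2 := natDegree_pl_le n (Fin.snoc a 1)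
    exact ⟨monic_of_natDegree_le_of_coeff_eq_one n h2 h1,
      natDegree_eq_of_le_of_coeff_ne_zero h2 (by rw [h1]; exact one_ne_zero)⟩
  have hcontΦ : Continuous fun ax : (Fin n → ℝ) × I =>
      Φ ax.2 (((pl (n + 1) (Fin.snoc ax.1 1)).eval (ax.2 : ℝ)) ^ 2) := by
    refine hΦ.comp (continuous_snd.prodMk ?_)
    exact ((continuous_eval_pl (n + 1)).comp
        ((hsnoc.comp continuous_fst).prodMk continuous_snd)).pow 2
  have hFc : Continuous fun a : Fin n → ℝ =>
      ∫ x : I, Φ x (((pl (n + 1) (Fin.snoc a 1)).eval (x : ℝ)) ^ 2) ∂α :=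
    continuous_integral_param α (f := fun (a : Fin n → ℝ) x =>
      Φ x (((pl (n + 1) (Fin.snoc a 1)).eval (x : ℝ)) ^ 2)) hcontΦ
  have hlow' : ∀ a : Fin n → ℝ, c' * c * ‖a‖ ^ p ≤
      ∫ x : I, Φ x (((pl (n + 1) (Fin.snoc a 1)).eval (x : ℝ)) ^ 2) ∂α := by
    intro a
    have h1 : c * ‖a‖ ^ p ≤ ∫ x : I, (((pl (n + 1) (Fin.snoc a 1)).eval (x : ℝ)) ^ 2) ^ (p / 2) ∂α := by
      refine le_trans ?_ (hcb (Fin.snoc a 1))
      refine mul_le_mul_of_nonneg_left ?_ hc.le
      refine Real.rpow_le_rpow (norm_nonneg _) ?_ hp.le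
      refine (pi_norm_le_iff_of_nonneg (norm_nonneg _)).2 fun i => ?_
      have := norm_le_pi_norm (Fin.snoc a 1 : Fin (n + 1) → ℝ) i.castSucc
      simpa using this
    have h2 : c' * ∫ x : I, (((pl (n + 1) (Fin.snoc a 1)).eval (x : ℝ)) ^ 2) ^ (p / 2) ∂α ≤
        ∫ x : I, Φ x (((pl (n + 1) (Fin.snoc a 1)).eval (x : ℝ)) ^ 2) ∂α := by
      rw [← integral_const_mul]
      refine integral_mono (integrable_of_continuous ?_ _) (integrable_of_continuous ?_ _) ?_
      · refine Continuous.mul continuous_const ?_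
        refine Continuous.rpow_const (by fun_prop) fun _ => Or.inr (by positivity)
      · exact hcontΦ.comp (Continuous.prodMk_right a)
      · intro x
        exact hlow x _ (sq_nonneg _)
    calc c' * c * ‖a‖ ^ p = c' * (c * ‖a‖ ^ p) := by ring
      _ ≤ _ := mul_le_mul_of_nonneg_left h1 hc'.le
      _ ≤ _ := h2
  obtain ⟨a, ha⟩ := exists_min_of_coercive hFc (mul_pos hc' hc) hp hlow'
  refine ⟨pl (n + 1) (Fin.snoc a 1), (hmonic a).1, (hmonic a).2, fun Q hQ hQn => ?_⟩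
  have h1 : pl (n + 1) (Fin.snoc (fun i : Fin n => Q.coeff i) 1) = Q := by
    conv_rhs => rw [← pl_coeff (Nat.lt_succ_of_le hQn.le)]
    congr 1
    ext i
    refine Fin.lastCases ?_ (fun j => ?_) i
    · have : Q.coeff n = 1 := by
        rw [← hQn]; exact hQ
      simp [this]
    · simp
  have := ha (fun i : Fin n => Q.coeff i)
  simp only [h1] at this
  exact this

end Pool.Agent.E96
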