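import Pool.Agent.E96.Mass

/-!
# L^p extremal polynomials: the ratio theorem on the line
-/

open MeasureTheory Polynomial Set Filter Topology
open scoped Real ENNReal Polynomial ComplexConjugate

namespace Pool.Agent.E96

lemma ac_of_rnDeriv {α : Measure ℝ} [IsFiniteMeasure α] {a b : ℝ}
    (H1 : ∀ᵐ x ∂(volume.restrict (Ioo a b)), 0 < α.rnDeriv volume x) :
    volume.restrict (Ioo a b) ≪ α := by
  refine Measure.AbsolutelyContinuous.mk fun A hA hα => ?_
  have h1 : (volume.withDensity (α.rnDeriv volume)) A = 0 := by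
    refine le_antisymm ?_ zero_le
    rw [← hα]
    exact Measure.withDensity_rnDeriv_le α volume A
  rw [withDensity_apply _ hA, lintegral_eq_zero_iff (Measure.measurable_rnDeriv _ _)] at h1
  have h2 : ∀ᵐ x ∂(volume.restrict A), α.rnDeriv volume x = 0 := h1
  rw [Measure.restrict_apply hA]
  have h3 : ∀ᵐ x ∂(volume.restrict (A ∩ Ioo a b)), False := by
    have e1 := ae_restrict_of_ae_restrict_of_subset (inter_subset_left (s := A) (t := Ioo a b)) h2
    have e2 := ae_restrict_of_ae_restrict_of_subset (inter_subset_right (s := A) (t := Ioo a b)) H1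
    filter_upwards [e1, e2] with x hx1 hx2
    rw [hx1] at hx2
    exact lt_irrefl _ hx2
  have h4 : (volume.restrict (A ∩ Ioo a b)) univ = 0 := by
    rw [ae_iff] at h3
    simpa using h3
  simpa using h4

/-- the outer point masses -/
lemma exists_T {α : Measure ℝ} {a b : ℝ}
    (H2 : (α.support \ Icc a b).Finite) :
    ∃ T : Finset ℝ, (∀ x ∈ T, x ∉ Icc a b) ∧ (∀ x ∈ T, α {x} ≠ 0) ∧
      α (Icc a b ∪ T)ᶜ = 0 := by
  classical
  refine ⟨H2.toFinset.filter fun x => α {x} ≠ 0, ?_, ?_, ?_⟩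
  · intro x hx
    exact ((H2.mem_toFinset.1 (Finset.mem_filter.1 hx).1)).2
  · intro x hx
    exact (Finset.mem_filter.1 hx).2
  · have h1 : (Icc a b ∪ ((H2.toFinset.filter fun x => α {x} ≠ 0 : Finset ℝ) : Set ℝ))ᶜ ⊆
        α.supportᶜ ∪ ⋃ x ∈ H2.toFinset.filter (fun x => α {x} = 0), {x} := by
      intro x hx
      rw [mem_compl_iff, mem_union, not_or] at hx
      by_cases hs : x ∈ α.support
      · right
        simp only [mem_iUnion, mem_singleton_iff, exists_prop, exists_eq_right']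
        refine Finset.mem_filter.2 ⟨H2.mem_toFinset.2 ⟨hs, hx.1⟩, ?_⟩
        by_contra h0
        exact hx.2 (Finset.mem_coe.2 (Finset.mem_filter.2 ⟨H2.mem_toFinset.2 ⟨hs, hx.1⟩, h0⟩))
      · left; exact hs
    refine measure_mono_null h1 (measure_union_null Measure.measure_compl_support ?_)
    refine (measure_biUnion_null_iff
      (Finset.countable_toSet (H2.toFinset.filter fun x => α {x} = 0))).2 fun x hx => ?_
    exact (Finset.mem_filter.1 (Finset.mem_coe.1 hx)).2

section mapping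

variable {α : Measure ℝ} {a b c h : ℝ}

/-- the part of `[-1,1]` corresponding to `(a,b)` -/
def G0 (a b c h : ℝ) : Set I := {y : I | c + h * (y : ℝ) ∈ Ioo a b}

lemma measurableSet_G0 : MeasurableSet (G0 a b c h) := by
  have : Continuous fun y : I => c + h * (y : ℝ) := by fun_prop
  exact this.measurable measurableSet_Ioo

lemma ac_map (hh : 0 < h) (hsub : Ioo a b ⊆ Icc (c - h) (c + h))
    (hac : volume.restrict (Ioo a b) ≪ α) :
    rho.restrict (G0 a b c h) ≪ α.map (toI c h) := by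
  refine Measure.AbsolutelyContinuous.mk fun A hA hν => ?_
  rw [Measure.map_apply (continuous_toI c h).measurable hA] at hν
  have h1 := hac hν
  rw [Measure.restrict_apply ((continuous_toI c h).measurable hA)] at h1
  set N := toI c h ⁻¹' A ∩ Ioo a b with hN
  have h2 : volume ((fun y : ℝ => c + h * y) ⁻¹' N) = 0 := by
    have h3 : (fun y : ℝ => c + h * y) ⁻¹' N ⊆ (fun x : ℝ => (x - c) / h) '' N := by
      intro y hy
      exact ⟨c + h * y, hy, by field_simp; ring⟩
    refine measure_mono_null h3 ?_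
    exact addHaar_image_eq_zero_of_differentiableOn_of_addHaar_eq_zero _ (by fun_prop) h1
  have h3 := rho_null h2
  rw [Measure.restrict_apply hA]
  refine measure_mono_null (fun y hy => ?_) h3
  obtain ⟨hyA, hyG⟩ := hy
  refine ⟨?_, hyG⟩
  rw [mem_preimage]
  have h4 : toI c h (c + h * (y : ℝ)) = y := by
    rw [Subtype.ext_iff, toI_coe hh (hsub hyG)]
    field_simp
    ring
  rw [h4]
  exact hyA

end mapping

/-- the asymptotic two-sided estimate -/
theorem two_sided {α : Measure ℝ} [IsFiniteMeasure α] {a b : ℝ} (hab : a < b)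
    (hac : volume.restrict (Ioo a b) ≪ α)
    (H2 : ∀ ε : ℝ, 0 < ε → (α.support \ Ioo (a - ε) (b + ε)).Finite) {p : ℝ} (hp : 0 < p)
    {δ : ℝ} (hδ : 0 < δ) :
    ∃ n0 : ℕ, ∀ n, n0 ≤ n → 0 < JJ α p n ∧
      JJ α p (n + 1) ≤ (1 + δ) ^ 3 * (((b - a) / 4) ^ p * JJ α p n) ∧
      ((b - a) / 4) ^ p * JJ α p n ≤ (1 + δ) ^ 3 * JJ α p (n + 1) := by
  obtain ⟨ε0, hε0, Hrob⟩ := robust (half_pos hp) hδ
  obtain ⟨s, hs0, hs1, hs⟩ := rho_ends hε0
  set L := (b - a) / 2 with hL
  have hL0 : 0 < L := by rw [hL]; linarith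
  set c := (a + b) / 2 with hc
  -- choice of ε
  obtain ⟨ε, hε, hε1, hε2⟩ : ∃ ε : ℝ, 0 < ε ∧ s < L / (L + ε) ∧ ((L + ε) / L) ^ p < 1 + δ := by
    have t1 : Tendsto (fun ε : ℝ => L / (L + ε)) (𝓝 0) (𝓝 1) := by
      have : ContinuousAt (fun ε : ℝ => L / (L + ε)) 0 :=
        ContinuousAt.div (by fun_prop) (by fun_prop) (by simpa using hL0.ne')
      have h := this.tendsto
      simpa [hL0.ne'] using h
    have t2 : Tendsto (fun ε : ℝ => ((L + ε) / L) ^ p) (𝓝 0) (𝓝 1) := by
      have : ContinuousAt (fun ε : ℝ => ((L + ε) / L) ^ p) 0 :=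
        ContinuousAt.rpow_const (by fun_prop) (Or.inr hp.le)
      have h := this.tendsto
      simpa [hL0.ne'] using h
    have e1 := (t1.eventually_const_lt hs1).filter_mono (nhdsWithin_le_nhds (s := Ioi 0))
    have e2 := (t2.eventually_lt_const (by linarith : (1 : ℝ) < 1 + δ)).filter_mono
      (nhdsWithin_le_nhds (s := Ioi 0))
    obtain ⟨ε, h1, h2, h3⟩ := (e1.and (e2.and self_mem_nhdsWithin)).exists
    exact ⟨ε, h3, h1, h2⟩
  set h := L + ε with hh
  have hh0 : 0 < h := by rw [hh]; linarith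
  have hcl : c - h = a - ε := by rw [hc, hh, hL]; ring
  have hcr : c + h = b + ε := by rw [hc, hh, hL]; ring
  have hab' : c - h < c + h := by linarith
  have hfin : (α.support \ Icc (c - h) (c + h)).Finite := by
    rw [hcl, hcr]
    exact (H2 ε hε).subset (sdiff_subset_sdiff_right Ioo_subset_Icc_self)
  obtain ⟨T, hT1, hT2, hT3⟩ := exists_T hfin
  have hT2' : ∀ x ∈ T, 0 < α.real {x} := fun x hx =>
    ENNReal.toReal_pos (hT2 x hx) (measure_ne_top _ _)
  set w : ℝ[X] := Lagrange.nodal T id with hw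
  set K := Icc (c - h) (c + h) with hK
  set α1 := rmv α K p w with hα1
  have hfin1 : IsFiniteMeasure α1 := isFinite_rmv isCompact_Icc hp w
  have hsub : Ioo a b ⊆ K := by
    rw [hK, hcl, hcr]
    exact fun x hx => ⟨by linarith [hx.1], by linarith [hx.2]⟩
  have hw0 : ∀ x ∈ K, w.eval x ≠ 0 := by
    intro x hx
    refine Lagrange.eval_nodal_not_at_node fun y hy => ?_
    simp only [id]
    rintro rfl
    exact hT1 _ hy hx
  have hwc : Continuous fun x : ℝ => ENNReal.ofReal (|w.eval x| ^ p) := by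
    exact ENNReal.continuous_ofReal.comp (continuous_absp p hp w)
  have hα1K : α1 Kᶜ = 0 := by
    have h1 : (α.restrict K) Kᶜ = 0 := by
      rw [Measure.restrict_apply measurableSet_Icc.compl, hK, compl_inter_self, measure_empty]
    exact withDensity_absolutelyContinuous _ _ h1
  have hac1 : volume.restrict (Ioo a b) ≪ α1 := by
    refine Measure.AbsolutelyContinuous.mk fun A hA h0 => ?_
    rw [hα1, rmv, withDensity_apply _ hA, lintegral_eq_zero_iff hwc.measurable,
      Measure.restrict_restrict hA] at h0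
    have h1 : ∀ᵐ x ∂(α.restrict (A ∩ K)), False := by
      have e1 : ∀ᵐ x ∂(α.restrict (A ∩ K)), x ∈ A ∩ K :=
        ae_restrict_mem (hA.inter measurableSet_Icc)
      filter_upwards [h0, e1] with x hx1 hx2
      rw [Pi.zero_apply, ENNReal.ofReal_eq_zero] at hx1
      have h2 : 0 < |w.eval x| ^ p := Real.rpow_pos_of_pos (abs_pos.2 (hw0 x hx2.2)) p
      linarith
    have h2 : α (A ∩ K) = 0 := by
      rw [ae_iff] at h1
      simpa using h1
    have h3 := hac h2
    rw [Measure.restrict_apply (hA.inter measurableSet_Icc)] at h3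
    rw [Measure.restrict_apply hA]
    exact measure_mono_null (show A ∩ Ioo a b ⊆ A ∩ K ∩ Ioo a b from
      fun x hx => ⟨⟨hx.1, hsub hx.2⟩, hx.2⟩) h3
  -- the measure on `[-1,1]`
  set ν := α1.map (toI c h) with hν
  have hνfin : IsFiniteMeasure ν := Measure.isFiniteMeasure_map _ _
  have hac2 : rho.restrict (G0 a b c h) ≪ ν := ac_map hh0 hsub hac1
  have hG0 : rho.real (G0 a b c h)ᶜ ≤ ε0 := by
    refine le_trans (measureReal_mono fun y hy => ?_) hs
    rw [mem_compl_iff, G0, Set.mem_ofPred_eq, mem_Ioo, not_and_or, not_lt, not_lt] at hy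
    rw [Set.mem_ofPred_eq]
    have h1 : L ≤ h * |(y : ℝ)| := by
      rcases hy with h2 | h2
      · have h3 : L ≤ h * (-(y : ℝ)) := by rw [hL]; rw [hc] at h2; linarith
        exact h3.trans (mul_le_mul_of_nonneg_left (neg_le_abs _) hh0.le)
      · have h3 : L ≤ h * (y : ℝ) := by rw [hL]; rw [hc] at h2; linarith
        exact h3.trans (mul_le_mul_of_nonneg_left (le_abs_self _) hh0.le)
    have h2 : L / h ≤ |(y : ℝ)| := by rw [div_le_iff₀ hh0]; linarith
    exact hε1.le.trans h2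
  obtain ⟨hND, m1, hm1⟩ := Hrob ν (G0 a b c h) measurableSet_G0 hG0 hac2
  obtain ⟨m2, hm2⟩ := rmv_le_JJ hab' hT1 hT2' hT3 hp hδ
  have hJD : ∀ m, JJ α1 p m = ((h / 2) ^ m) ^ p * DD ν 1 (p / 2) m := fun m =>
    JJ_eq_DD hh0 hα1K hp m
  have hDpos : ∀ m, 0 < DD ν 1 (p / 2) m := fun m =>
    DD_pos hND (fun x => by simp) (half_pos hp) m
  have hθm : ∀ m : ℕ, 0 < ((h / 2) ^ m) ^ p := fun m => by positivity
  have hθs : ∀ m : ℕ, ((h / 2) ^ (m + 1)) ^ p = ((h / 2) ^ m) ^ p * (h / 2) ^ p := by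
    intro m
    rw [pow_succ, Real.mul_rpow (by positivity) (by positivity)]
  have hθ0 : 0 < ((b - a) / 4) ^ p := by
    have : 0 < (b - a) / 4 := by linarith
    positivity
  have hθle : ((b - a) / 4) ^ p ≤ (h / 2) ^ p := by
    refine Real.rpow_le_rpow (by linarith) ?_ hp.le
    rw [hh, hL]
    linarith
  have hθge : (h / 2) ^ p ≤ (1 + δ) * ((b - a) / 4) ^ p := by
    have h1 : h / 2 = (L + ε) / L * ((b - a) / 4) := by
      have h2 : (b - a) / 4 = L / 2 := by rw [hL]; ring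
      rw [h2, hh]
      field_simp
    rw [h1, Real.mul_rpow (by positivity) (by linarith)]
    exact mul_le_mul_of_nonneg_right hε2.le hθ0.le
  have h1δ : 0 < 1 + δ := by linarith
  refine ⟨m1 + m2 + T.card, fun n hn => ?_⟩
  obtain ⟨m, rfl⟩ : ∃ m, n = m + T.card := ⟨n - T.card, by omega⟩
  obtain ⟨hD1, hD2⟩ := hm1 m (by omega)
  have hA1 := JJ_le_rmv (T := T) hT3 hp m
  have hA2 := JJ_le_rmv (T := T) hT3 hp (m + 1)
  have hB1 := hm2 m (by omega)
  have hB2 := hm2 (m + 1) (by omega)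
  rw [show m + 1 + T.card = m + T.card + 1 by ring] at hA2 hB2
  have hpos1 : 0 < JJ α1 p m := by
    rw [hJD]
    exact mul_pos (hθm m) (hDpos m)
  have hC1 : JJ α1 p (m + 1) ≤ (1 + δ) * ((h / 2) ^ p * JJ α1 p m) := by
    rw [hJD, hJD, hθs]
    have := mul_le_mul_of_nonneg_left hD1 (mul_pos (hθm m) (by positivity : 0 < (h / 2) ^ p)).le
    linarith
  have hC2 : (h / 2) ^ p * JJ α1 p m ≤ (1 + δ) * JJ α1 p (m + 1) := by
    rw [hJD, hJD, hθs]
    have := mul_le_mul_of_nonneg_left hD2 (mul_pos (hθm m) (by positivity : 0 < (h / 2) ^ p)).le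
    linarith
  refine ⟨?_, ?_, ?_⟩
  · by_contra h0
    have h1 : (1 + δ) * JJ α p (m + T.card) ≤ 0 :=
      mul_nonpos_of_nonneg_of_nonpos h1δ.le (not_lt.1 h0)
    linarith
  · calc JJ α p (m + T.card + 1) ≤ JJ α1 p (m + 1) := hA2
      _ ≤ (1 + δ) * ((h / 2) ^ p * JJ α1 p m) := hC1
      _ ≤ (1 + δ) * (((1 + δ) * ((b - a) / 4) ^ p) * ((1 + δ) * JJ α p (m + T.card))) := by
          refine mul_le_mul_of_nonneg_left ?_ h1δ.le
          exact mul_le_mul hθge hB1 hpos1.le (by positivity)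
      _ = (1 + δ) ^ 3 * (((b - a) / 4) ^ p * JJ α p (m + T.card)) := by ring
  · calc ((b - a) / 4) ^ p * JJ α p (m + T.card) ≤ (h / 2) ^ p * JJ α1 p m :=
          mul_le_mul hθle hA1 (JJ_nonneg _ _ _) (by positivity)
      _ ≤ (1 + δ) * JJ α1 p (m + 1) := hC2
      _ ≤ (1 + δ) * ((1 + δ) * JJ α p (m + T.card + 1)) := mul_le_mul_of_nonneg_left hB2 h1δ.le
      _ ≤ (1 + δ) ^ 3 * JJ α p (m + T.card + 1) := by
          have h1 := JJ_nonneg α p (m + T.card + 1)
          have h2 : (1 + δ) * ((1 + δ) * JJ α p (m + T.card + 1)) =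
            (1 + δ) ^ 2 * JJ α p (m + T.card + 1) := by ring
          rw [h2]
          refine mul_le_mul_of_nonneg_right ?_ h1
          exact pow_le_pow_right₀ (by linarith) (by norm_num)

/-- the ratio theorem for the infima of `∫ |P|^p dα` -/
theorem ratio_JJ {α : Measure ℝ} [IsFiniteMeasure α] {a b : ℝ} (hab : a < b)
    (hac : volume.restrict (Ioo a b) ≪ α)
    (H2 : ∀ ε : ℝ, 0 < ε → (α.support \ Ioo (a - ε) (b + ε)).Finite) {p : ℝ} (hp : 0 < p) :
    Tendsto (fun n => JJ α p (n + 1) / JJ α p n) atTop (𝓝 (((b - a) / 4) ^ p)) := by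
  have hθ0 : 0 < ((b - a) / 4) ^ p := by
    have : 0 < (b - a) / 4 := by linarith
    positivity
  set θ := ((b - a) / 4) ^ p with hθ
  rw [tendsto_order]
  constructor
  · intro l hl
    obtain ⟨δ, hδ, hδl⟩ : ∃ δ : ℝ, 0 < δ ∧ l < θ / (1 + δ) ^ 3 := by
      have t1 : Tendsto (fun δ : ℝ => θ / (1 + δ) ^ 3) (𝓝 0) (𝓝 θ) := by
        have : ContinuousAt (fun δ : ℝ => θ / (1 + δ) ^ 3) 0 :=
          ContinuousAt.div (by fun_prop) (by fun_prop) (by norm_num)
        simpa using this.tendsto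
      have e1 := (t1.eventually_const_lt hl).filter_mono (nhdsWithin_le_nhds (s := Ioi 0))
      obtain ⟨δ, h1, h2⟩ := (e1.and self_mem_nhdsWithin).exists
      exact ⟨δ, h2, h1⟩
    obtain ⟨n0, hn0⟩ := two_sided hab hac H2 hp hδ
    filter_upwards [eventually_ge_atTop n0] with n hn
    obtain ⟨h1, -, h3⟩ := hn0 n hn
    refine hδl.trans_le ?_
    rw [div_le_div_iff₀ (by positivity) h1]
    linarith
  · intro u hu
    obtain ⟨δ, hδ, hδu⟩ : ∃ δ : ℝ, 0 < δ ∧ (1 + δ) ^ 3 * θ < u := by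
      have t1 : Tendsto (fun δ : ℝ => (1 + δ) ^ 3 * θ) (𝓝 0) (𝓝 θ) := by
        have : Continuous (fun δ : ℝ => (1 + δ) ^ 3 * θ) := by fun_prop
        simpa using this.tendsto 0
      have e1 := (t1.eventually_lt_const hu).filter_mono (nhdsWithin_le_nhds (s := Ioi 0))
      obtain ⟨δ, h1, h2⟩ := (e1.and self_mem_nhdsWithin).exists
      exact ⟨δ, h2, h1⟩
    obtain ⟨n0, hn0⟩ := two_sided hab hac H2 hp hδ
    filter_upwards [eventually_ge_atTop n0] with n hn
    obtain ⟨h1, h2, -⟩ := hn0 n hn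
    refine lt_of_le_of_lt ?_ hδu
    rw [div_le_iff₀ h1]
    linarith

end Pool.Agent.E96
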