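import Pool.Agent.E96.Exist

/-!
# L^p extremal polynomials: from the circle to the line
-/

open MeasureTheory Polynomial Set Filter Topology
open scoped Real ENNReal Polynomial ComplexConjugate

namespace Pool.Agent.E96

/-- `2^n P(x) = 2 Re (z^{-n} t(z))` -/
noncomputable def fold (n : ℕ) (t : ℝ[X]) : ℝ[X] :=
  C (2 / 2 ^ n) * ∑ k ∈ Finset.range (2 * n), C (t.coeff k) * Chebyshev.T ℝ ((k : ℤ) - n)

lemma eval_fold {n : ℕ} {t : ℝ[X]} (ht : t.natDegree < 2 * n) (x : I) :
    2 ^ n * (fold n t).eval (x : ℝ) = 2 * ((conj (ez x)) ^ n * aeval (ez x) t).re := by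
  have h2n : (2 : ℝ) ^ n ≠ 0 := by positivity
  have e0 : 2 ^ n * (2 / 2 ^ n : ℝ) = 2 := by field_simp
  rw [fold, eval_mul, eval_C, eval_finsetSum, aeval_eq_sum_range' ht, ← mul_assoc, e0]
  rw [Finset.mul_sum (Finset.range (2 * n)) _ ((conj (ez x)) ^ n), Complex.re_sum]
  congr 1
  refine Finset.sum_congr rfl fun k _ => ?_
  rw [eval_mul, eval_C, ← ez_re x, T_eval_re (norm_ez x), conj_ez, Algebra.smul_def,
    Complex.coe_algebraMap]
  have : (ez x)⁻¹ ^ n * (((t.coeff k : ℝ) : ℂ) * ez x ^ k) =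
      ((t.coeff k : ℝ) : ℂ) * (ez x) ^ ((k : ℤ) - n) := by
    rw [zpow_sub₀ (ez_ne_zero x), zpow_natCast, zpow_natCast, inv_pow]
    ring
  rw [this, Complex.re_ofReal_mul]

lemma coeff_fold {n : ℕ} (hn : 1 ≤ n) {t : ℝ[X]} (ht0 : t.coeff 0 = 1) : (fold n t).coeff n = 1 := by
  rw [fold, coeff_C_mul, finsetSum_coeff, Finset.sum_eq_single 0]
  · have h1 : (Chebyshev.T ℝ (((0 : ℕ) : ℤ) - n)).coeff n = 2 ^ (n - 1) := by
      have h2 := Chebyshev.leadingCoeff_T ℝ (((0 : ℕ) : ℤ) - n)
      rw [leadingCoeff, Chebyshev.natDegree_T] at h2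
      have h3 : (((0 : ℕ) : ℤ) - n).natAbs = n := by omega
      rw [h3] at h2
      exact h2
    rw [ht0, C_1, one_mul, h1]
    obtain ⟨m, rfl⟩ : ∃ m, n = m + 1 := ⟨n - 1, by omega⟩
    simp only [Nat.add_sub_cancel, pow_succ]
    field_simp
  · intro k hk hk0
    rw [coeff_C_mul, coeff_eq_zero_of_natDegree_lt (p := Chebyshev.T ℝ ((k : ℤ) - n)), mul_zero]
    rw [Chebyshev.natDegree_T]
    have := Finset.mem_range.1 hk
    omega
  · intro h
    exact absurd (Finset.mem_range.2 (by omega)) h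

lemma natDegree_fold_le (n : ℕ) (t : ℝ[X]) : (fold n t).natDegree ≤ n := by
  rw [fold]
  refine (natDegree_C_mul_le _ _).trans ?_
  refine natDegree_sum_le_of_forall_le _ _ fun k hk => ?_
  refine (natDegree_C_mul_le _ _).trans ?_
  rw [Chebyshev.natDegree_T]
  have := Finset.mem_range.1 hk
  omega

lemma fold_monic {n : ℕ} (hn : 1 ≤ n) {t : ℝ[X]} (ht0 : t.coeff 0 = 1) : (fold n t).Monic :=
  monic_of_natDegree_le_of_coeff_eq_one n (natDegree_fold_le n t) (coeff_fold hn ht0)

lemma fold_natDegree {n : ℕ} (hn : 1 ≤ n) {t : ℝ[X]} (ht0 : t.coeff 0 = 1) :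
    (fold n t).natDegree = n :=
  natDegree_eq_of_le_of_coeff_ne_zero (natDegree_fold_le n t)
    (by rw [coeff_fold hn ht0]; exact one_ne_zero)

lemma fold_sq {n N : ℕ} (hN : N + 1 = 2 * n) {t : ℝ[X]} (hd : t.natDegree ≤ N) (ht : ZF t) (x : I) :
    (2 ^ n * (fold n t).eval (x : ℝ)) ^ 2 = sq t x * (2 + 2 * yy N t x) := by
  rw [eval_fold (by omega)]
  set a := aeval (ez x) t with ha
  set w := (conj (ez x)) ^ n * a with hw
  have hne : a ≠ 0 := ht.ne x
  have h1 : sq t x = Complex.normSq w := by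
    rw [hw, map_mul, map_pow, Complex.normSq_conj, normSq_ez, one_pow, one_mul, sq]
  have h2 : sq t x * yy N t x = (w ^ 2).re := by
    have h3 : ((sq t x : ℝ) : ℂ) * th N t x = conj (w ^ 2) := by
      rw [sq, ← Complex.mul_conj, th, hw, ← ha, hN]
      simp only [map_pow, map_mul, Complex.conj_conj]
      have e5 : ez x ^ (2 * n) = (ez x ^ n) ^ 2 := by rw [← pow_mul, mul_comm]
      rw [e5]
      field_simp
    rw [yy, ← Complex.re_ofReal_mul, h3, Complex.conj_re]
  have h4 : ∀ w : ℂ, (2 * w.re) ^ 2 = 2 * Complex.normSq w + 2 * (w ^ 2).re := by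
    intro w
    rw [Complex.normSq_apply, pow_two w, Complex.mul_re]
    ring
  rw [h4, ← h2, ← h1]
  ring

/-- orthogonality of the folded polynomial -/
lemma fold_orth {n N : ℕ} (hn : 1 ≤ n) (hN : N + 1 = 2 * n) {β : Measure I} {t : ℝ[X]}
    (hd : t.natDegree ≤ N) (ho : Orth N β t) {R : ℝ[X]} (hR : R.natDegree < n) :
    ∫ x : I, (fold n t).eval (x : ℝ) * R.eval (x : ℝ) ∂β = 0 := by
  have h1 := ho (X * lift (n - 1) R) ?_ ?_
  · have h2 : ∀ x : I, (fold n t).eval (x : ℝ) * R.eval (x : ℝ) = (2 / 2 ^ n) *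
        (aeval (ez x) (X * lift (n - 1) R) * conj (aeval (ez x) t)).re := by
      intro x
      have h3 := eval_fold (n := n) (t := t) (by omega) x
      have h4 : (fold n t).eval (x : ℝ) = (2 / 2 ^ n) * ((conj (ez x)) ^ n * aeval (ez x) t).re := by
        have : (2 : ℝ) ^ n ≠ 0 := by positivity
        field_simp
        linarith
      have h5 : aeval (ez x) (X * lift (n - 1) R) = (ez x) ^ n * ((R.eval (x : ℝ) : ℝ) : ℂ) := by
        rw [map_mul, aeval_X, aeval_lift_ez (by omega)]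
        obtain ⟨m, rfl⟩ : ∃ m, n = m + 1 := ⟨n - 1, by omega⟩
        simp only [Nat.add_sub_cancel]
        ring
      rw [h4, h5, mul_assoc]
      congr 1
      rw [mul_assoc, mul_comm (((R.eval (x : ℝ) : ℝ) : ℂ)), ← mul_assoc, mul_comm (_ * _) (((R.eval (x : ℝ) : ℝ) : ℂ)),
        Complex.re_ofReal_mul, mul_comm]
      congr 1
      rw [← Complex.conj_re]
      simp only [map_mul, map_pow, Complex.conj_conj]
    simp only [h2]
    rw [integral_const_mul, h1, mul_zero]
  · refine natDegree_mul_le.trans ?_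
    have := natDegree_lift_le (n - 1) R
    rw [natDegree_X]
    omega
  · simp

/-- A monic `L²` minimiser on the line is folded from the circle minimiser. -/
lemma eq_fold_of_min {n N : ℕ} (hn : 1 ≤ n) (hN : N + 1 = 2 * n) {β : Measure I} [IsFiniteMeasure β]
    (hβ : ND β) {t : ℝ[X]} (ht : IsMin N β t) {P : ℝ[X]} (hP : P.Monic) (hPn : P.natDegree = n)
    (hmin : ∀ Q : ℝ[X], Q.Monic → Q.natDegree = n →
      ∫ x : I, (P.eval (x : ℝ)) ^ 2 ∂β ≤ ∫ x : I, (Q.eval (x : ℝ)) ^ 2 ∂β) :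
    P = fold n t := by
  set P' := fold n t with hP'
  have h1 := hmin P' (fold_monic hn ht.coeff) (fold_natDegree hn ht.coeff)
  set R := P - P' with hR
  have hRdeg : R.natDegree < n ∨ R = 0 := by
    by_cases h0 : R = 0
    · exact Or.inr h0
    · left
      rw [natDegree_lt_iff_degree_lt h0]
      have h2 : P.degree = P'.degree := by
        rw [degree_eq_natDegree hP.ne_zero, degree_eq_natDegree (fold_monic hn ht.coeff).ne_zero, hPn,
          fold_natDegree hn ht.coeff]
      have h3 := degree_sub_lt_left h2 hP.ne_zero (by rw [hP.leadingCoeff, (fold_monic hn ht.coeff).leadingCoeff])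
      rwa [degree_eq_natDegree hP.ne_zero, hPn] at h3
  rcases hRdeg with hRdeg | h0
  · have h2 := fold_orth hn hN ht.deg ht.orth hRdeg
    have h3 : ∫ x : I, (P.eval (x : ℝ)) ^ 2 ∂β = ∫ x : I, (P'.eval (x : ℝ)) ^ 2 ∂β +
        2 * ∫ x : I, P'.eval (x : ℝ) * R.eval (x : ℝ) ∂β + ∫ x : I, (R.eval (x : ℝ)) ^ 2 ∂β := by
      rw [← integral_const_mul, ← integral_add, ← integral_add]
      · refine integral_congr_ae (Eventually.of_forall fun x => ?_)
        simp only [hR, eval_sub]
        ring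
      · exact integrable_of_continuous (by fun_prop) _
      · exact integrable_of_continuous (by fun_prop) _
      · exact integrable_of_continuous (by fun_prop) _
      · exact integrable_of_continuous (by fun_prop) _
    rw [h2] at h3
    have h4 : ∫ x : I, (R.eval (x : ℝ)) ^ 2 ∂β ≤ 0 := by linarith
    by_contra hne
    have hR0 : R ≠ 0 := sub_ne_zero.2 hne
    have h5 : 0 < ∫ x : I, (R.eval (x : ℝ)) ^ 2 ∂β := by
      refine integral_pos_of_ND hβ (by fun_prop) (fun x => sq_nonneg _) ?_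
      have h6 : {x : ℝ | R.IsRoot x}.Finite := finite_setOfPred_isRoot hR0
      refine (h6.preimage Subtype.val_injective.injOn).subset fun x hx => ?_
      exact pow_eq_zero_iff two_ne_zero |>.1 hx
    linarith
  · exact sub_eq_zero.1 h0

/-- Degree reduction. -/
noncomputable def red (N : ℕ) (t : ℝ[X]) : ℝ[X] :=
  C (1 - (t.coeff N) ^ 2)⁻¹ * (t - C (t.coeff N) * reflect N t)

lemma red_coeff_zero {N : ℕ} {t : ℝ[X]} (h0 : t.coeff 0 = 1) (hc : |t.coeff N| < 1) :
    (red N t).coeff 0 = 1 := by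
  have h1 : (1 - (t.coeff N) ^ 2) ≠ 0 := by
    have := (sq_lt_one_iff_abs_lt_one _).2 hc
    linarith
  rw [red, coeff_C_mul, coeff_sub, coeff_C_mul, coeff_zero_reflect, h0]
  field_simp

lemma natDegree_red_le {N : ℕ} {t : ℝ[X]} (hd : t.natDegree ≤ N + 1) (h0 : t.coeff 0 = 1) :
    (red (N + 1) t).natDegree ≤ N := by
  rw [red]
  refine (natDegree_C_mul_le _ _).trans ?_
  rw [natDegree_le_iff_coeff_eq_zero]
  intro i hi
  rcases Nat.lt_or_ge (N + 1) i with h | h
  · rw [coeff_sub, coeff_C_mul, coeff_eq_zero_of_natDegree_lt (by omega),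
      coeff_eq_zero_of_natDegree_lt (lt_of_le_of_lt (natDegree_reflect_le' hd) h)]
    ring
  · have hi' : i = N + 1 := by omega
    rw [hi', coeff_sub, coeff_C_mul, coeff_reflect, revAt_le le_rfl, Nat.sub_self, h0]
    ring

lemma norm_red_le {N : ℕ} {t : ℝ[X]} (hd : t.natDegree ≤ N) (hc : |t.coeff N| < 1) (x : I) :
    sq (red N t) x ≤ ((1 - |t.coeff N|)⁻¹) ^ 2 * sq t x := by
  set c := t.coeff N with hcdef
  have h1 : 0 < 1 - c ^ 2 := by
    have := (sq_lt_one_iff_abs_lt_one _).2 hc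
    linarith
  have h2 : 0 < 1 - |c| := by linarith
  have hn : ‖aeval (ez x) (red N t)‖ ≤ (1 - |c|)⁻¹ * ‖aeval (ez x) t‖ := by
    rw [red, map_mul, map_sub, map_mul, aeval_C, aeval_C, aeval_reflect_ez hd, norm_mul]
    have h3 : ‖aeval (ez x) t - (algebraMap ℝ ℂ) c * (ez x ^ N * conj (aeval (ez x) t))‖ ≤
        (1 + |c|) * ‖aeval (ez x) t‖ := by
      refine (norm_sub_le _ _).trans ?_
      rw [norm_mul, norm_mul, norm_pow, norm_ez, one_pow, one_mul, Complex.norm_conj,
        Complex.coe_algebraMap, Complex.norm_real, Real.norm_eq_abs]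
      linarith
    have h4 : ‖(algebraMap ℝ ℂ) (1 - c ^ 2)⁻¹‖ = (1 - c ^ 2)⁻¹ := by
      rw [Complex.coe_algebraMap, Complex.norm_real, Real.norm_eq_abs, abs_of_pos (inv_pos.2 h1)]
    rw [h4]
    refine (mul_le_mul_of_nonneg_left h3 (inv_pos.2 h1).le).trans ?_
    rw [← mul_assoc]
    refine mul_le_mul_of_nonneg_right (le_of_eq ?_) (norm_nonneg _)
    have h5 : 1 - c ^ 2 = (1 - |c|) * (1 + |c|) := by
      rw [← sq_abs]
      ring
    rw [h5]
    have h6 : 0 < 1 + |c| := by positivity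
    field_simp
  rw [sq_eq, sq_eq, ← mul_pow]
  exact pow_le_pow_left₀ (norm_nonneg _) hn 2

/-- lower bound for the reduced polynomial -/
lemma norm_red_ge {N : ℕ} {t : ℝ[X]} (hd : t.natDegree ≤ N) (hc : |t.coeff N| < 1) (x : I) :
    ((1 + |t.coeff N|)⁻¹) ^ 2 * sq t x ≤ sq (red N t) x := by
  set c := t.coeff N with hcdef
  have h1 : 0 < 1 - c ^ 2 := by
    have := (sq_lt_one_iff_abs_lt_one _).2 hc
    linarith
  have h2 : 0 < 1 - |c| := by linarith
  have hn : (1 + |c|)⁻¹ * ‖aeval (ez x) t‖ ≤ ‖aeval (ez x) (red N t)‖ := by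
    rw [red, map_mul, map_sub, map_mul, aeval_C, aeval_C, aeval_reflect_ez hd, norm_mul]
    have h3 : (1 - |c|) * ‖aeval (ez x) t‖ ≤
        ‖aeval (ez x) t - (algebraMap ℝ ℂ) c * (ez x ^ N * conj (aeval (ez x) t))‖ := by
      refine le_trans (le_of_eq ?_) (norm_sub_norm_le _ _)
      rw [norm_mul, norm_mul, norm_pow, norm_ez, one_pow, one_mul, Complex.norm_conj,
        Complex.coe_algebraMap, Complex.norm_real, Real.norm_eq_abs]
      ring
    have h4 : ‖(algebraMap ℝ ℂ) (1 - c ^ 2)⁻¹‖ = (1 - c ^ 2)⁻¹ := by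
      rw [Complex.coe_algebraMap, Complex.norm_real, Real.norm_eq_abs, abs_of_pos (inv_pos.2 h1)]
    rw [h4]
    refine le_trans ?_ (mul_le_mul_of_nonneg_left h3 (inv_pos.2 h1).le)
    rw [← mul_assoc]
    refine mul_le_mul_of_nonneg_right (le_of_eq ?_) (norm_nonneg _)
    have h5 : 1 - c ^ 2 = (1 - |c|) * (1 + |c|) := by
      rw [← sq_abs]
      ring
    rw [h5]
    have h6 : 0 < 1 + |c| := by positivity
    field_simp
  rw [sq_eq, sq_eq, ← mul_pow]
  exact pow_le_pow_left₀ (by positivity) hn 2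

/-- the reduced polynomial has no zeros in the closed disc -/
lemma ZF.red {N : ℕ} {t : ℝ[X]} (ht : ZF t) (hd : t.natDegree ≤ N) (hc : |t.coeff N| < 1) :
    ZF (red N t) := by
  intro z hz
  set c := t.coeff N with hcdef
  have h1 : 0 < 1 - c ^ 2 := by
    have := (sq_lt_one_iff_abs_lt_one _).2 hc
    linarith
  have hmax : ‖aeval z (reflect N t) / aeval z t‖ ≤ 1 := by
    have hdiff : DiffContOnCl ℂ (fun w : ℂ => aeval w (reflect N t) / aeval w t) (Metric.ball 0 1) := by
      have : DifferentiableOn ℂ (fun w : ℂ => aeval w (reflect N t) / aeval w t)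
          (Metric.closedBall 0 1) := by
        refine DifferentiableOn.div ?_ ?_ ?_
        · exact (Polynomial.differentiable_aeval _).differentiableOn
        · exact (Polynomial.differentiable_aeval t).differentiableOn
        · intro w hw
          exact ht w (by simpa using hw)
      refine DifferentiableOn.diffContOnCl ?_
      rwa [closure_ball (0 : ℂ) one_ne_zero]
    refine Complex.norm_le_of_forall_mem_frontier_norm_le Metric.isBounded_ball hdiff ?_ ?_
    · intro w hw
      rw [frontier_ball (0 : ℂ) one_ne_zero] at hw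
      have hw1 : ‖w‖ = 1 := by simpa using hw
      have hw0 : w ≠ 0 := by
        rintro rfl
        simp at hw1
      rw [aeval_reflect hd hw0, norm_div, norm_mul, norm_pow, hw1, one_pow, one_mul]
      have h2 : w⁻¹ = conj w := by
        rw [Complex.inv_def, Complex.normSq_eq_norm_sq, hw1]
        simp
      rw [h2, aeval_conj', Complex.norm_conj]
      exact (div_self (norm_ne_zero_iff.2 (ht w hw1.le))).le
    · rw [closure_ball (0 : ℂ) one_ne_zero]
      simpa using hz
  have hne := ht z hz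
  rw [norm_div, div_le_one (norm_pos_iff.2 hne)] at hmax
  rw [Pool.Agent.E96.red, map_mul, map_sub, map_mul, aeval_C, aeval_C]
  refine mul_ne_zero ?_ ?_
  · rw [Complex.coe_algebraMap]
    exact_mod_cast (inv_pos.2 h1).ne'
  · intro h
    have h2 : aeval z t = (algebraMap ℝ ℂ) c * aeval z (reflect N t) := sub_eq_zero.1 h
    have h3 : ‖aeval z t‖ = |c| * ‖aeval z (reflect N t)‖ := by
      conv_lhs => rw [h2]
      rw [norm_mul, Complex.coe_algebraMap, Complex.norm_real, Real.norm_eq_abs]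
    have h4 : 0 < ‖aeval z t‖ := norm_pos_iff.2 hne
    nlinarith [abs_nonneg c, norm_nonneg (aeval z (reflect N t))]

end Pool.Agent.E96
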