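import Pool.Agent.E96.LtTwoLim

/-!
# L^p extremal polynomials, p ≥ 2: the extremal polynomial on the circle
-/

open MeasureTheory Polynomial Set Filter Topology
open scoped Real ENNReal Polynomial ComplexConjugate

namespace Pool.Agent.E96

lemma convex_tangent {q x y : ℝ} (hq : 1 ≤ q) (hx : 0 ≤ x) (hy : 0 ≤ y) :
    x ^ q + q * x ^ (q - 1) * (y - x) ≤ y ^ q := by
  rcases eq_or_lt_of_le hx with h0 | h0
  · rw [← h0]
    rcases eq_or_lt_of_le hq with h1 | h1
    · rw [← h1]; simp
    · rw [Real.zero_rpow (by linarith), Real.zero_rpow (by linarith)]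
      simp only [mul_zero, zero_mul, add_zero]
      exact Real.rpow_nonneg hy _
  · have h1 := one_add_mul_self_le_rpow_one_add (s := y / x - 1)
      (by have : 0 ≤ y / x := by positivity
          linarith) hq
    have h2 : 1 + (y / x - 1) = y / x := by ring
    rw [h2, Real.div_rpow hy hx] at h1
    have h3 : 0 < x ^ q := Real.rpow_pos_of_pos h0 q
    rw [le_div_iff₀ h3] at h1
    refine le_trans (le_of_eq ?_) h1
    rw [Real.rpow_sub h0, Real.rpow_one]
    field_simp

/-- first variation, abstract form -/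
lemma variation_abs {γ : Measure I} [IsFiniteMeasure γ] {q : ℝ} (hq : 1 ≤ q) {a b c g : I → ℝ}
    (ha : Continuous a) (hb : Continuous b) (hc : Continuous c) (hg : Continuous g)
    (hgp : ∀ x, 0 < g x) (hpos : ∀ (s : ℝ) x, 0 ≤ a x + 2 * s * b x + s ^ 2 * c x)
    (hmin : ∀ s : ℝ, 0 < s → ∫ x, (a x / g x) ^ q ∂γ ≤
      ∫ x, ((a x + 2 * s * b x + s ^ 2 * c x) / g x) ^ q ∂γ) :
    0 ≤ ∫ x, (a x / g x) ^ (q - 1) * (2 * b x / g x) ∂γ := by
  have hgne : ∀ x : I, g x ≠ 0 := fun x => (hgp x).ne'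
  have hq0 : 0 ≤ q := by linarith
  have hq1 : 0 ≤ q - 1 := by linarith
  have hYc : Continuous fun sx : ℝ × I =>
      (a sx.2 + 2 * sx.1 * b sx.2 + sx.1 ^ 2 * c sx.2) / g sx.2 :=
    Continuous.div (by fun_prop) (by fun_prop) fun sx => hgne sx.2
  have hHc : Continuous (Function.uncurry fun (s : ℝ) (x : I) =>
      ((a x + 2 * s * b x + s ^ 2 * c x) / g x) ^ (q - 1) * ((2 * b x + s * c x) / g x)) := by
    have h1 : Continuous fun sx : ℝ × I =>
        ((a sx.2 + 2 * sx.1 * b sx.2 + sx.1 ^ 2 * c sx.2) / g sx.2) ^ (q - 1) :=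
      hYc.rpow_const fun _ => Or.inr hq1
    have h2 : Continuous fun sx : ℝ × I => (2 * b sx.2 + sx.1 * c sx.2) / g sx.2 :=
      Continuous.div (by fun_prop) (by fun_prop) fun sx => hgne sx.2
    exact h1.mul h2
  have hcont := continuous_integral_param γ hHc
  have key : ∀ s : ℝ, 0 < s → 0 ≤ ∫ x, ((a x + 2 * s * b x + s ^ 2 * c x) / g x) ^ (q - 1) *
      ((2 * b x + s * c x) / g x) ∂γ := by
    intro s hs
    have hYsc : Continuous fun x => (a x + 2 * s * b x + s ^ 2 * c x) / g x :=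
      Continuous.div (by fun_prop) hg hgne
    have hY0c : Continuous fun x => a x / g x := ha.div hg hgne
    have hHsc : Continuous fun x => ((a x + 2 * s * b x + s ^ 2 * c x) / g x) ^ (q - 1) *
      ((2 * b x + s * c x) / g x) :=
      (hYsc.rpow_const fun _ => Or.inr hq1).mul (Continuous.div (by fun_prop) hg hgne)
    have hYsq : Continuous fun x => ((a x + 2 * s * b x + s ^ 2 * c x) / g x) ^ q :=
      hYsc.rpow_const fun _ => Or.inr hq0
    have hY0q : Continuous fun x => (a x / g x) ^ q := hY0c.rpow_const fun _ => Or.inr hq0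
    have h1 := hmin s hs
    have h4 : ∫ x, ((a x + 2 * s * b x + s ^ 2 * c x) / g x) ^ q ∂γ ≤
        ∫ x, ((a x / g x) ^ q + q * s * (((a x + 2 * s * b x + s ^ 2 * c x) / g x) ^ (q - 1) *
      ((2 * b x + s * c x) / g x))) ∂γ := by
      refine integral_mono (integrable_of_continuous hYsq _)
        (integrable_of_continuous (hY0q.add (hHsc.const_mul _)) _) fun x => ?_
      simp only
      have h0 : 0 ≤ a x := by simpa using hpos 0 x
      have h5 := convex_tangent hq (div_nonneg (hpos s x) (hgp x).le) (div_nonneg h0 (hgp x).le)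
      have h6 : a x / g x - (a x + 2 * s * b x + s ^ 2 * c x) / g x =
          - (s * ((2 * b x + s * c x) / g x)) := by
        have := hgne x
        field_simp
        ring
      rw [h6] at h5
      linarith
    rw [integral_add (integrable_of_continuous hY0q _)
      (integrable_of_continuous (hHsc.const_mul _) _), integral_const_mul] at h4
    have h8 : 0 ≤ q * s * ∫ x, ((a x + 2 * s * b x + s ^ 2 * c x) / g x) ^ (q - 1) *
      ((2 * b x + s * c x) / g x) ∂γ := by linarith
    exact nonneg_of_mul_nonneg_right h8 (by positivity)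
  have h1 := (hcont.tendsto 0).mono_left (nhdsWithin_le_nhds (s := Ioi 0))
  have h2 := ge_of_tendsto h1 (by
    filter_upwards [self_mem_nhdsWithin] with s hs
    exact key s hs)
  refine h2.trans (le_of_eq ?_)
  refine integral_congr_ae (Eventually.of_forall fun x => ?_)
  simp

/-- first variation, one-sided -/
lemma variation_nonneg {γ : Measure I} [IsFiniteMeasure γ] {g : ℝ[X]} {q : ℝ} {N : ℕ} {t : ℝ[X]}
    (hg : ∀ x : I, 0 < g.eval (x : ℝ)) (hq : 1 ≤ q)
    (htd : t.natDegree ≤ N) (ht0 : t.coeff 0 = 1)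
    (hmin : ∀ r : ℝ[X], r.natDegree ≤ N → r.coeff 0 = 1 →
      ∫ x, (sq t x / g.eval (x : ℝ)) ^ q ∂γ ≤ ∫ x, (sq r x / g.eval (x : ℝ)) ^ q ∂γ)
    (h : ℝ[X]) (hd : h.natDegree ≤ N) (h0 : h.coeff 0 = 0) :
    0 ≤ ∫ x, (sq t x / g.eval (x : ℝ)) ^ (q - 1) *
      ((2 * (aeval (ez x) h * conj (aeval (ez x) t)).re) / g.eval (x : ℝ)) ∂γ := by
  refine variation_abs hq (continuous_sq t) (continuous_re_mul h t) (continuous_sq h)
    (g := fun x : I => g.eval (x : ℝ)) (by fun_prop) hg (fun s x => ?_) fun s _ => ?_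
  · rw [← sq_add]
    exact sq_nonneg' _ _
  · simp only [← sq_add]
    refine hmin (t + C s * h) ((natDegree_add_le _ _).trans (max_le htd
      ((natDegree_C_mul_le _ _).trans hd))) (by rw [coeff_add, coeff_C_mul, h0, ht0]; ring)

/-- Structure of circle extremals, `q ≥ 1`. -/
theorem struct_ge {γ : Measure I} [IsFiniteMeasure γ] (hγ : ND γ) {g : ℝ[X]}
    (hg : ∀ x : I, 0 < g.eval (x : ℝ)) {q : ℝ} (hq : 1 ≤ q) {N : ℕ} (hgN : g.natDegree ≤ N) :
    ∃ t : ℝ[X], t.natDegree ≤ N ∧ t.coeff 0 = 1 ∧ ZF t ∧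
      ∫ x, (1 / vv g t x - 1) * (vv g t x) ^ (1 - q) ∂γ = 0 ∧
      ∀ h : ℝ[X], h.natDegree ≤ N →
        ∫ x, (vv g t x) ^ (-q) * (sq h x / sq t x) ∂γ =
          (∫ x, (vv g t x) ^ (-q) ∂γ) * ∫ x, sq h x / sq t x ∂rho := by
  have hgc : Continuous fun x : I => g.eval (x : ℝ) := by fun_prop
  have hgne : ∀ x : I, g.eval (x : ℝ) ≠ 0 := fun x => (hg x).ne'
  set W0 : I → ℝ := fun x => (g.eval (x : ℝ)) ^ (-q) with hW0
  have hW0c : Continuous W0 := hgc.rpow_const fun x => Or.inl (hgne x)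
  have hW0pos : ∀ x, 0 < W0 x := fun x => Real.rpow_pos_of_pos (hg x) _
  set α := wd γ W0 with hα
  have : IsFiniteMeasure α := isFinite_wd hW0c
  have hαND : ND α := ND_wd hγ hW0c (fun x => (hW0pos x).le) (by
    have : {x | W0 x = 0} = ∅ := by
      ext x; simpa using (hW0pos x).ne'
    rw [this]; exact finite_empty)
  obtain ⟨t, htd, ht0, htmin⟩ := exists_min_circle hαND (p := 2 * q) (by linarith) N
  have hconv : ∀ r : ℝ[X], ∫ x, (sq r x) ^ (2 * q / 2) ∂α =
      ∫ x, (sq r x / g.eval (x : ℝ)) ^ q ∂γ := by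
    intro r
    rw [hα, integral_wd hW0c (fun x => (hW0pos x).le)]
    refine integral_congr_ae (Eventually.of_forall fun x => ?_)
    simp only [hW0]
    rw [show 2 * q / 2 = q by ring, Real.div_rpow (sq_nonneg' _ _) (hg x).le,
      Real.rpow_neg (hg x).le]
    ring
  have hmin : ∀ r : ℝ[X], r.natDegree ≤ N → r.coeff 0 = 1 →
      ∫ x, (sq t x / g.eval (x : ℝ)) ^ q ∂γ ≤ ∫ x, (sq r x / g.eval (x : ℝ)) ^ q ∂γ := by
    intro r hr hr0
    rw [← hconv, ← hconv]
    exact htmin r hr hr0
  have htne : t ≠ 0 := by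
    rintro rfl
    simp at ht0
  -- the L² weight
  set W : I → ℝ := fun x => (sq t x / g.eval (x : ℝ)) ^ (q - 1) / g.eval (x : ℝ) with hW
  have hXc : Continuous fun x => sq t x / g.eval (x : ℝ) :=
    Continuous.div (continuous_sq t) hgc hgne
  have hWc : Continuous W :=
    (hXc.rpow_const fun _ => Or.inr (by linarith)).div hgc hgne
  have hW0 : ∀ x, 0 ≤ W x := fun x =>
    div_nonneg (Real.rpow_nonneg (div_nonneg (sq_nonneg' _ _) (hg x).le) _) (hg x).le
  set β := wd γ W with hβ
  have : IsFiniteMeasure β := isFinite_wd hWc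
  have hβND : ND β := ND_wd hγ hWc hW0 (by
    refine (finite_zeros htne).subset fun x hx => ?_
    by_contra hx2
    have h1 : 0 < sq t x := Complex.normSq_pos.2 hx2
    have h2 : 0 < W x := div_pos (Real.rpow_pos_of_pos (div_pos h1 (hg x)) _) (hg x)
    exact h2.ne' hx)
  have horth : Orth N β t := by
    have hone : ∀ h : ℝ[X], h.natDegree ≤ N → h.coeff 0 = 0 →
        0 ≤ ∫ x, (aeval (ez x) h * conj (aeval (ez x) t)).re ∂β := by
      intro h hd h0
      have h1 := variation_nonneg hg hq htd ht0 hmin h hd h0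
      rw [hβ, integral_wd hWc hW0]
      have h2 : ∫ x, (sq t x / g.eval (x : ℝ)) ^ (q - 1) *
          ((2 * (aeval (ez x) h * conj (aeval (ez x) t)).re) / g.eval (x : ℝ)) ∂γ =
          2 * ∫ x, W x * (aeval (ez x) h * conj (aeval (ez x) t)).re ∂γ := by
        rw [← integral_const_mul]
        refine integral_congr_ae (Eventually.of_forall fun x => ?_)
        simp only [hW]
        ring
      rw [h2] at h1
      linarith
    intro h hd h0
    refine le_antisymm ?_ (hone h hd h0)
    have h1 := hone (-h) (by rwa [natDegree_neg]) (by rw [coeff_neg, h0, neg_zero])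
    have h2 : ∫ x, (aeval (ez x) (-h) * conj (aeval (ez x) t)).re ∂β =
        - ∫ x, (aeval (ez x) h * conj (aeval (ez x) t)).re ∂β := by
      rw [← integral_neg]
      refine integral_congr_ae (Eventually.of_forall fun x => ?_)
      simp only [map_neg, neg_mul, Complex.neg_re]
    rw [h2] at h1
    linarith
  have hismin : IsMin N β t := IsMin.of_orth htd ht0 horth
  have hzf := hismin.zf hβND
  have hlam := lam_pos hg hzf
  have hvp := vv_pos hg hzf
  have hvc := continuous_vv hg hzf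
  have hvne : ∀ x, vv g t x ≠ 0 := fun x => (hvp x).ne'
  have hlq : (lam g t) ^ q ≠ 0 := (Real.rpow_pos_of_pos hlam q).ne'
  have hX1 : ∀ x, (sq t x / g.eval (x : ℝ)) ^ (q - 1) =
      (lam g t) ^ (q - 1) * (vv g t x) ^ (1 - q) := by
    intro x
    rw [sq_div_g hg hzf, Real.div_rpow hlam.le (hvp x).le, show (1 - q) = -(q - 1) by ring,
      Real.rpow_neg (hvp x).le]
    ring
  have hvv1 : ∀ x, (vv g t x) ^ (1 - q) = (vv g t x) ^ (-q) * vv g t x := by
    intro x
    rw [show (1 - q) = -q + 1 by ring, Real.rpow_add (hvp x), Real.rpow_one]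
  have hlam1 : (lam g t) ^ (q - 1) * lam g t = (lam g t) ^ q := by
    rw [Real.rpow_sub hlam, Real.rpow_one]
    field_simp
  -- moments of the L² weight
  have hsqβ : ∀ h : ℝ[X], ∫ x, sq h x ∂β =
      (lam g t) ^ q * ∫ x, (vv g t x) ^ (-q) * (sq h x / sq t x) ∂γ := by
    intro h
    rw [hβ, integral_wd hWc hW0, ← integral_const_mul]
    refine integral_congr_ae (Eventually.of_forall fun x => ?_)
    simp only [hW]
    rw [hX1, hvv1, ← hlam1]
    have h1 : vv g t x * sq t x = lam g t * g.eval (x : ℝ) := by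
      rw [vv]
      have := (hzf.sq_pos x).ne'
      field_simp
    have h2 := (hzf.sq_pos x).ne'
    have h3 := hgne x
    have h4 : vv g t x = lam g t * g.eval (x : ℝ) / sq t x := by
      rw [← h1]; field_simp
    have h5 : (lam g t) ^ (q - 1) * ((vv g t x) ^ (-q) * vv g t x) / g.eval (x : ℝ) * sq h x =
        (lam g t) ^ (q - 1) * (vv g t x) ^ (-q) * (vv g t x / g.eval (x : ℝ)) * sq h x := by ring
    have h6 : vv g t x / g.eval (x : ℝ) = lam g t / sq t x := by
      conv_lhs => rw [h4]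
      field_simp
    rw [h5, h6]
    ring
  have hK : ∫ x, sq t x ∂β = (lam g t) ^ q * ∫ x, (vv g t x) ^ (-q) ∂γ := by
    rw [hsqβ]
    congr 1
    refine integral_congr_ae (Eventually.of_forall fun x => ?_)
    simp only
    rw [div_self (hzf.sq_pos x).ne', mul_one]
  refine ⟨t, htd, ht0, hzf, ?_, fun h hd => ?_⟩
  · have hbs := bernstein_szego hzf htd ht0 horth g hgN
    rw [hK] at hbs
    have h1 : ∫ x : I, g.eval (x : ℝ) ∂β = (lam g t) ^ (q - 1) * ∫ x, (vv g t x) ^ (1 - q) ∂γ := by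
      rw [hβ, integral_wd hWc hW0, ← integral_const_mul]
      refine integral_congr_ae (Eventually.of_forall fun x => ?_)
      simp only [hW]
      rw [hX1]
      have := hgne x
      field_simp
    have h2 : ∫ x, g.eval (x : ℝ) / sq t x ∂rho = (lam g t)⁻¹ := by rw [lam, inv_inv]
    rw [h1, h2, ← hlam1] at hbs
    have h3 : (lam g t) ^ (q - 1) ≠ 0 := (Real.rpow_pos_of_pos hlam _).ne'
    have h4 : ∫ x, (vv g t x) ^ (-q) ∂γ = ∫ x, (vv g t x) ^ (1 - q) ∂γ := by
      have h5 : (lam g t) ^ (q - 1) * lam g t * (∫ x, (vv g t x) ^ (-q) ∂γ) * (lam g t)⁻¹ =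
          (lam g t) ^ (q - 1) * ∫ x, (vv g t x) ^ (-q) ∂γ := by
        have := hlam.ne'
        field_simp
      rw [h5] at hbs
      exact mul_left_cancel₀ h3 hbs
    have hc1 : Continuous fun x => (vv g t x) ^ (-q) := hvc.rpow_const fun x => Or.inl (hvne x)
    have hc2 : Continuous fun x => (vv g t x) ^ (1 - q) := hvc.rpow_const fun x => Or.inl (hvne x)
    have h6 : ∫ x, (1 / vv g t x - 1) * (vv g t x) ^ (1 - q) ∂γ =
        ∫ x, (vv g t x) ^ (-q) ∂γ - ∫ x, (vv g t x) ^ (1 - q) ∂γ := by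
      rw [← integral_sub (integrable_of_continuous hc1 _) (integrable_of_continuous hc2 _)]
      refine integral_congr_ae (Eventually.of_forall fun x => ?_)
      simp only
      rw [hvv1]
      have := hvne x
      field_simp
    rw [h6, h4, sub_self]
  · have hbs := bernstein_szego hzf htd ht0 horth (Phi N h h) (natDegree_Phi_le N h h)
    have h1 : ∀ x : I, (Phi N h h).eval (x : ℝ) = sq h x := by
      intro x
      rw [eval_Phi hd hd, Complex.mul_conj, Complex.ofReal_re, sq]
    simp only [h1] at hbs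
    rw [hK, hsqβ h, mul_assoc] at hbs
    exact (mul_left_cancel₀ hlq hbs).symm

end Pool.Agent.E96
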