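import Pool.Agent.E96.GeTwoStep

/-!
# L^p extremal polynomials, p ≥ 2: limit form of the step
-/

open MeasureTheory Polynomial Set Filter Topology
open scoped Real ENNReal Polynomial ComplexConjugate

namespace Pool.Agent.E96

/-- constants -/
noncomputable def Mg (q η ε : ℝ) : ℝ := 2 * (η + 5 * ε / cη q η) + 2 * ε

lemma ptw_ge {q v : ℝ} (hq : 1 ≤ q) (hv : 0 < v) : v ^ (1 - q) ≤ 2 ^ (q - 1) + v ^ (-q) / 2 := by
  have h0 : 0 ≤ v ^ (-q) := Real.rpow_nonneg hv.le _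
  rcases le_total (1 / 2) v with h | h
  · have h1 : v ^ (1 - q) ≤ (1 / 2) ^ (1 - q) :=
      Real.rpow_le_rpow_of_nonpos (by norm_num) h (by linarith)
    have h2 : (1 / 2 : ℝ) ^ (1 - q) = 2 ^ (q - 1) := by
      rw [one_div, Real.inv_rpow (by norm_num), ← Real.rpow_neg (by norm_num)]
      congr 1
      ring
    rw [h2] at h1
    linarith
  · have h1 : v ^ (1 - q) = v ^ (-q) * v := by
      rw [show (1 - q) = -q + 1 by ring, Real.rpow_add hv, Real.rpow_one]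
    have h2 : 0 ≤ (2 : ℝ) ^ (q - 1) := by positivity
    have h3 : v ^ (-q) * v ≤ v ^ (-q) * (1 / 2) := mul_le_mul_of_nonneg_left h h0
    rw [h1]
    linarith

theorem step_ge {γ : Measure I} [IsFiniteMeasure γ] (hγ : ND γ) {G : Set I} {ε : ℝ}
    (hnear : Near γ G ε) (hε0 : 0 ≤ ε) (hε : ε ≤ 1 / 4) {g : ℝ[X]}
    (hg : ∀ x : I, 0 < g.eval (x : ℝ)) {q : ℝ} (hq : 1 ≤ q)
    {η σ : ℝ} (hη : 0 < η) (hη1 : η < 1) (hσ : 0 < σ)
    (hM1 : 1 / 2 ≤ (1 - ε) * (1 - (1 + q) * ε)) (hM2 : Mup q η ε ≤ 2)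
    {n : ℕ} (hn : 2 ≤ n) (hgn : g.natDegree + 3 ≤ 2 * n)
    (hm : 4 * Mg q η ε < 1) (hLo : 0 < Lo q σ η ε) :
    DD γ g q (n + 1) ≤ (Up q η ε / Lo q σ η ε) * DD γ g q n ∧
      DD γ g q (n - 1) ≤ ((((1 - Mg q η ε) * (1 - 4 * Mg q η ε))⁻¹) ^ 2) ^ q *
        ((Up q η ε / Lo q σ η ε) * DD γ g q n) := by
  have hq0 : 0 < q := by linarith
  obtain ⟨N0, hN0⟩ : ∃ N0, 2 * n = N0 + 3 := ⟨2 * n - 3, by omega⟩
  obtain ⟨t, htd, ht0, hzf, club, iso⟩ := struct_ge hγ hg hq (N := N0 + 2) (by omega)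
  have hcp := cp_pos hq0
  have hlam := lam_pos hg hzf
  have hvp := vv_pos hg hzf
  have hvc := continuous_vv hg hzf
  have hlq : 0 < (lam g t) ^ q := Real.rpow_pos_of_pos hlam q
  have hv1 := integral_vv hg hzf
  have hvne : ∀ x, vv g t x ≠ 0 := fun x => (hvp x).ne'
  set v := vv g t with hv
  have hvqc : Continuous fun x => (v x) ^ (-q) := hvc.rpow_const fun x => Or.inl (hvne x)
  have hvqc1 : Continuous fun x => (v x) ^ (1 - q) := hvc.rpow_const fun x => Or.inl (hvne x)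
  have heart : ∫ x, (1 - v x) * (1 : ℝ) ∂rho = 0 := by
    simp only [mul_one]
    rw [integral_sub (integrable_of_continuous continuous_const _)
      (integrable_of_continuous hvc _), hv1]
    simp
  have hkey := key_ineq hnear hε0 hε (S := 1) (q := q) (c := 1) (v := v)
    (Ω := fun x => (v x) ^ (1 - q)) (Ω1 := fun _ => (1 : ℝ)) hq0 zero_le_one one_pos hvc hvp hvqc1
    continuous_const (fun x => Real.rpow_nonneg (hvp x).le _) (fun _ => zero_le_one)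
    (fun x hx => Real.rpow_le_one_of_one_le_of_nonpos hx (by linarith)) (fun _ => le_rfl)
    club heart (fun x => by
      have h1 : (v x) ^ (1 - q) / v x = (v x) ^ (-q) := by
        rw [show (1 - q) = -q + 1 by ring, Real.rpow_add (hvp x), Real.rpow_one]
        have := hvne x
        field_simp
      rw [h1, one_mul])
  obtain ⟨hk1, hk2⟩ := hkey
  have hL : ∫ x in G, (1 - v x) * ((v x) ^ (-q) - 1) ∂rho ≤ 5 * ε := by linarith
  have hE : ∫ x in Gᶜ, (v x) ^ (-q) ∂γ ≤ (6 + 2 ^ q) * ε := by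
    have h1 : ∫ x in Gᶜ, (v x) ^ (-q) ∂γ =
        ∫ x in Gᶜ, (1 / v x - 1) * (v x) ^ (1 - q) ∂γ + ∫ x in Gᶜ, (v x) ^ (1 - q) ∂γ := by
      have hc' : Continuous fun x => (1 / v x - 1) * (v x) ^ (1 - q) :=
        ((continuous_const.div hvc hvne).sub continuous_const).mul hvqc1
      rw [← integral_add (intOn hc' γ _) (intOn hvqc1 γ _)]
      refine integral_congr_ae (Eventually.of_forall fun x => ?_)
      simp only
      have h1 : (v x) ^ (1 - q) = (v x) ^ (-q) * v x := by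
        rw [show (1 - q) = -q + 1 by ring, Real.rpow_add (hvp x), Real.rpow_one]
      rw [h1]
      have := hvne x
      field_simp
      ring
    have h2 : ∫ x in Gᶜ, (v x) ^ (1 - q) ∂γ ≤ ∫ x in Gᶜ, (2 ^ (q - 1) + (v x) ^ (-q) / 2) ∂γ :=
      set_mono hvqc1 (continuous_const.add (hvqc.div_const _)) fun x => ptw_ge hq (hvp x)
    rw [integral_add (intOn continuous_const γ _) (intOn (hvqc.div_const _) γ _), integral_div,
      setIntegral_const, smul_eq_mul] at h2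
    have h3 : γ.real Gᶜ * 2 ^ (q - 1) ≤ ε * 2 ^ (q - 1) :=
      mul_le_mul_of_nonneg_right hnear.outg (by positivity)
    have h4 : (2 : ℝ) ^ q = 2 * 2 ^ (q - 1) := by
      rw [Real.rpow_sub (by norm_num), Real.rpow_one]
      field_simp
    rw [h4]
    linarith
  have hlow := low_main hnear hε0 hε hg hq (n := n) (N := N0 + 2) (by omega) (by omega) htd ht0 hzf
    iso hL hE hη hη1 hσ hM1 hM2
  -- final bound
  have hUp0 : 0 ≤ Up q η ε := by
    have : 0 ≤ (1 - η) ^ (-q) := Real.rpow_nonneg (by linarith) _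
    have h2q : (0 : ℝ) ≤ 2 ^ q := by positivity
    have e1 : 0 ≤ (1 + ε) * ((1 - η) ^ (-q) * cp q + 4 ^ q * (5 * ε) / η) := by positivity
    have e2 : 0 ≤ 4 ^ q * ((6 + 2 ^ q) * ε) := by positivity
    unfold Up
    linarith
  have hfin : (lam g t) ^ q * ((1 + ε) * ((1 - η) ^ (-q) * cp q + 4 ^ q * (5 * ε) / η) +
      4 ^ q * ∫ x in Gᶜ, (v x) ^ (-q) ∂γ) ≤ (Up q η ε / Lo q σ η ε) * DD γ g q n := by
    have h1 : (lam g t) ^ q * ((1 + ε) * ((1 - η) ^ (-q) * cp q + 4 ^ q * (5 * ε) / η) +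
      4 ^ q * ∫ x in Gᶜ, (v x) ^ (-q) ∂γ) ≤ (lam g t) ^ q * Up q η ε := by
      refine mul_le_mul_of_nonneg_left ?_ hlq.le
      have := mul_le_mul_of_nonneg_left hE (by positivity : (0 : ℝ) ≤ 4 ^ q)
      unfold Up
      linarith
    refine h1.trans ?_
    have h2 : (lam g t) ^ q * Up q η ε =
        (Up q η ε / Lo q σ η ε) * ((lam g t) ^ q * Lo q σ η ε) := by
      field_simp
    rw [h2]
    exact mul_le_mul_of_nonneg_left hlow (div_nonneg hUp0 hLo.le)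
  refine ⟨?_, ?_⟩
  · have h1 := DD_le_of_comp hnear hε0 hg hq0 hzf hη hη1 hL (n' := n + 1) (N' := N0 + 4) (by omega)
      (by omega) hzf (by omega) ht0 zero_le_one (fun x => by rw [one_mul])
    rw [Real.one_rpow, one_mul] at h1
    exact h1.trans hfin
  · have hm1 : ∫ x, |1 - v x| ∂rho ≤ Mg q η ε :=
      hnear.integral_abs_le hq0 hvc hvp hv1 hη hη1 hL
    obtain ⟨t', hz', hd', h0', hR⟩ := double_red hg hzf htd ht0 (by omega) hm1 hm
    have h1 := DD_le_of_comp hnear hε0 hg hq0 hzf hη hη1 hL (n' := n - 1) (N' := N0) (by omega)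
      (by omega) hz' hd' h0' (sq_nonneg _) hR
    refine h1.trans ?_
    exact mul_le_mul_of_nonneg_left hfin (Real.rpow_nonneg (sq_nonneg _) q)

/-- limit of `Lo` as `ε → 0` -/
noncomputable def Lo0 (q σ η : ℝ) : ℝ :=
  cp q - 4 * q * (4 ^ (q - 1) * (12 * σ * Hz q + (3 * ((1 - η) ^ (-q) - 1)) / (4 * σ)))

lemma tendsto_Lo (q σ η : ℝ) : Tendsto (fun ε : ℝ => Lo q σ η ε) (𝓝 0) (𝓝 (Lo0 q σ η)) := by
  have : Continuous fun ε : ℝ => Lo q σ η ε := by
    unfold Lo Rc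
    fun_prop
  have h := this.tendsto 0
  have h0 : Lo q σ η 0 = Lo0 q σ η := by
    unfold Lo Rc Lo0
    simp only [mul_zero, add_zero, sub_zero, one_mul, zero_div]
    ring
  rwa [h0] at h

lemma tendsto_Up (q η : ℝ) :
    Tendsto (fun ε : ℝ => Up q η ε) (𝓝 0) (𝓝 ((1 - η) ^ (-q) * cp q)) := by
  have : Continuous fun ε : ℝ => Up q η ε := by
    unfold Up
    fun_prop
  have h := this.tendsto 0
  have h0 : Up q η 0 = (1 - η) ^ (-q) * cp q := by
    unfold Up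
    simp only [mul_zero, add_zero, one_mul, zero_div]
  rwa [h0] at h

lemma tendsto_Mg (q η : ℝ) : Tendsto (fun ε : ℝ => Mg q η ε) (𝓝 0) (𝓝 (2 * η)) := by
  have : Continuous fun ε : ℝ => Mg q η ε := by
    unfold Mg
    fun_prop
  have h := this.tendsto 0
  have h0 : Mg q η 0 = 2 * η := by
    unfold Mg; ring
  rwa [h0] at h

lemma tendsto_Mup (q η : ℝ) : Tendsto (fun ε : ℝ => Mup q η ε) (𝓝 0) (𝓝 ((1 - η) ^ (-q))) := by
  have : Continuous fun ε : ℝ => Mup q η ε := by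
    unfold Mup
    fun_prop
  have h := this.tendsto 0
  have h0 : Mup q η 0 = (1 - η) ^ (-q) := by
    unfold Mup; ring
  rwa [h0] at h

lemma tendsto_Lo0 (q σ : ℝ) :
    Tendsto (fun η : ℝ => Lo0 q σ η) (𝓝 0) (𝓝 (cp q - 4 * q * (4 ^ (q - 1) * (12 * σ * Hz q)))) := by
  have : ContinuousAt (fun η : ℝ => Lo0 q σ η) 0 := by
    unfold Lo0
    have h1 : ContinuousAt (fun η : ℝ => (1 - η) ^ (-q)) 0 :=
      ContinuousAt.rpow_const (by fun_prop) (Or.inl (by norm_num))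
    fun_prop
  have h := this.tendsto
  have h0 : Lo0 q σ 0 = cp q - 4 * q * (4 ^ (q - 1) * (12 * σ * Hz q)) := by
    unfold Lo0
    simp
  rwa [h0] at h

lemma tendsto_rpowη (q : ℝ) : Tendsto (fun η : ℝ => (1 - η) ^ (-q)) (𝓝 0) (𝓝 1) := by
  have h1 : ContinuousAt (fun η : ℝ => (1 - η) ^ (-q)) 0 :=
      ContinuousAt.rpow_const (by fun_prop) (Or.inl (by norm_num))
  simpa using h1.tendsto

lemma lim_ge {q δ : ℝ} (hq : 1 ≤ q) (hδ : 0 < δ) :
    ∃ σ η ε : ℝ, 0 < σ ∧ 0 < η ∧ η < 1 ∧ 0 < ε ∧ ε < 1 / 4 ∧ 4 * Mg q η ε < 1 ∧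
      0 < Lo q σ η ε ∧ Mup q η ε ≤ 2 ∧ 1 / 2 ≤ (1 - ε) * (1 - (1 + q) * ε) ∧
      Up q η ε / Lo q σ η ε < 1 + δ ∧
      ((((1 - Mg q η ε) * (1 - 4 * Mg q η ε))⁻¹) ^ 2) ^ q * (Up q η ε / Lo q σ η ε) < 1 + δ := by
  have hcp := cp_pos (show 0 < q by linarith)
  -- choice of σ
  obtain ⟨σ, hσ, hσ1, hσ2⟩ : ∃ σ : ℝ, 0 < σ ∧ 0 < cp q - 4 * q * (4 ^ (q - 1) * (12 * σ * Hz q)) ∧
      cp q / (cp q - 4 * q * (4 ^ (q - 1) * (12 * σ * Hz q))) < 1 + δ := by
    have t1 : Tendsto (fun σ : ℝ => cp q - 4 * q * (4 ^ (q - 1) * (12 * σ * Hz q))) (𝓝 0)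
        (𝓝 (cp q)) := by
      have : Continuous fun σ : ℝ => cp q - 4 * q * (4 ^ (q - 1) * (12 * σ * Hz q)) := by fun_prop
      simpa using this.tendsto 0
    have t2 : Tendsto (fun σ : ℝ => cp q / (cp q - 4 * q * (4 ^ (q - 1) * (12 * σ * Hz q)))) (𝓝 0)
        (𝓝 1) := by
      have := (tendsto_const_nhds (x := cp q)).div t1 hcp.ne'
      rwa [div_self hcp.ne'] at this
    have e1 := (t1.eventually_const_lt hcp).filter_mono (nhdsWithin_le_nhds (s := Ioi 0))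
    have e2 := (t2.eventually_lt_const (by linarith : (1 : ℝ) < 1 + δ)).filter_mono
      (nhdsWithin_le_nhds (s := Ioi 0))
    obtain ⟨σ, h1, h2, h3⟩ := (e1.and (e2.and self_mem_nhdsWithin)).exists
    exact ⟨σ, h3, h1, h2⟩
  -- choice of η
  obtain ⟨η, hη, hη1, hη2, hη3, hη4, hη5⟩ : ∃ η : ℝ, 0 < η ∧ η < 1 / 16 ∧ (1 - η) ^ (-q) < 2 ∧
      0 < Lo0 q σ η ∧ (1 - η) ^ (-q) * cp q / Lo0 q σ η < 1 + δ ∧
      ((((1 - 2 * η) * (1 - 4 * (2 * η)))⁻¹) ^ 2) ^ q * ((1 - η) ^ (-q) * cp q / Lo0 q σ η) <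
        1 + δ := by
    have t1 := tendsto_Lo0 q σ
    have t2 := tendsto_rpowη q
    have t3 : Tendsto (fun η : ℝ => (1 - η) ^ (-q) * cp q / Lo0 q σ η) (𝓝 0)
        (𝓝 (cp q / (cp q - 4 * q * (4 ^ (q - 1) * (12 * σ * Hz q))))) := by
      have := (t2.mul_const (cp q)).div t1 hσ1.ne'
      rwa [one_mul] at this
    have t4 : Tendsto (fun η : ℝ => ((((1 - 2 * η) * (1 - 4 * (2 * η)))⁻¹) ^ 2) ^ q) (𝓝 0)
        (𝓝 1) := by
      have : ContinuousAt (fun η : ℝ => ((((1 - 2 * η) * (1 - 4 * (2 * η)))⁻¹) ^ 2) ^ q) 0 := by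
        refine ContinuousAt.rpow_const ?_ (Or.inl (by norm_num))
        refine ContinuousAt.pow ?_ 2
        exact ContinuousAt.inv₀ (by fun_prop) (by norm_num)
      simpa using this.tendsto
    have t5 := t4.mul t3
    rw [one_mul] at t5
    have e1 := (t1.eventually_const_lt hσ1).filter_mono (nhdsWithin_le_nhds (s := Ioi 0))
    have e2 := (t2.eventually_lt_const (by norm_num : (1 : ℝ) < 2)).filter_mono
      (nhdsWithin_le_nhds (s := Ioi 0))
    have e3 := (t3.eventually_lt_const hσ2).filter_mono (nhdsWithin_le_nhds (s := Ioi 0))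
    have e5 := (t5.eventually_lt_const hσ2).filter_mono (nhdsWithin_le_nhds (s := Ioi 0))
    have e6 : ∀ᶠ s : ℝ in 𝓝[>] 0, s < 1 / 16 :=
      (eventually_lt_nhds (by norm_num : (0 : ℝ) < 1 / 16)).filter_mono nhdsWithin_le_nhds
    obtain ⟨η, h1, h2, h3, h5, h6, h7⟩ := (e1.and (e2.and (e3.and (e5.and (e6.and
      self_mem_nhdsWithin))))).exists
    exact ⟨η, h7, h6, h2, h1, h3, h5⟩
  -- choice of ε
  have t1 := tendsto_Lo q σ η
  have t2 := tendsto_Up q η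
  have t3 := t2.div t1 hη3.ne'
  have t4 := tendsto_Mg q η
  have hne : (1 - 2 * η) * (1 - 4 * (2 * η)) ≠ 0 := mul_ne_zero (by linarith) (by linarith)
  have t5 : Tendsto (fun ε : ℝ => ((((1 - Mg q η ε) * (1 - 4 * Mg q η ε))⁻¹) ^ 2) ^ q *
      (Up q η ε / Lo q σ η ε)) (𝓝 0) (𝓝 (((((1 - 2 * η) * (1 - 4 * (2 * η)))⁻¹) ^ 2) ^ q *
        ((1 - η) ^ (-q) * cp q / Lo0 q σ η))) := by
    refine Tendsto.mul ?_ t3
    refine Tendsto.rpow_const ?_ (Or.inl (pow_ne_zero 2 (inv_ne_zero hne)))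
    refine Tendsto.pow ?_ 2
    refine Tendsto.inv₀ ?_ hne
    exact (t4.const_sub 1).mul ((t4.const_mul 4).const_sub 1)
  have t6 := tendsto_Mup q η
  have t7 : Tendsto (fun ε : ℝ => (1 - ε) * (1 - (1 + q) * ε)) (𝓝 0) (𝓝 1) := by
    have : Continuous fun ε : ℝ => (1 - ε) * (1 - (1 + q) * ε) := by fun_prop
    simpa using this.tendsto 0
  have e1 := (t1.eventually_const_lt hη3).filter_mono (nhdsWithin_le_nhds (s := Ioi 0))
  have e3 := (t3.eventually_lt_const hη4).filter_mono (nhdsWithin_le_nhds (s := Ioi 0))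
  have e4 := ((t4.const_mul 4).eventually_lt_const
    (show 4 * (2 * η) < 1 by linarith)).filter_mono (nhdsWithin_le_nhds (s := Ioi 0))
  have e5 := (t5.eventually_lt_const hη5).filter_mono (nhdsWithin_le_nhds (s := Ioi 0))
  have e6 := (t6.eventually_lt_const hη2).filter_mono (nhdsWithin_le_nhds (s := Ioi 0))
  have e7 := (t7.eventually_const_lt (by norm_num : (1 / 2 : ℝ) < 1)).filter_mono
    (nhdsWithin_le_nhds (s := Ioi 0))
  have e8 : ∀ᶠ s : ℝ in 𝓝[>] 0, s < 1 / 4 :=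
    (eventually_lt_nhds (by norm_num : (0 : ℝ) < 1 / 4)).filter_mono nhdsWithin_le_nhds
  obtain ⟨ε, h1, h3, h4, h5, h6, h7, h8, h9⟩ := (e1.and (e3.and (e4.and (e5.and (e6.and (e7.and
    (e8.and self_mem_nhdsWithin))))))).exists
  exact ⟨σ, η, ε, hσ, hη, by linarith, h9, h8, h4, h1, h6.le, h7.le, h3, h5⟩

theorem stepProp_ge {q : ℝ} (hq : 1 ≤ q) : StepProp q := by
  intro δ hδ
  obtain ⟨σ, η, ε, hσ, hη, hη1, hε, hε4, hm, hLo, hM2, hM1, hA, hB⟩ := lim_ge hq hδ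
  refine ⟨ε, hε, fun γ _ hγ G hG g hg n hn hgn => ?_⟩
  have hd := DD_pos hγ hg (show 0 < q by linarith) n
  obtain ⟨a1, a2⟩ := step_ge hγ hG hε.le hε4.le hg hq hη hη1 hσ hM1 hM2 hn hgn hm hLo
  refine ⟨a1.trans (mul_le_mul_of_nonneg_right hA.le hd.le), a2.trans ?_⟩
  rw [← mul_assoc]
  exact mul_le_mul_of_nonneg_right hB.le hd.le

theorem stepProp {q : ℝ} (hq : 0 < q) : StepProp q := by
  rcases lt_or_ge q 1 with h | h
  · exact stepProp_lt hq h
  · exact stepProp_ge h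

end Pool.Agent.E96
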