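import Pool.Agent.E96.GeTwo

/-!
# L^p extremal polynomials, p ≥ 2: the lower bound on the line, algebraic part
-/

open MeasureTheory Polynomial Set Filter Topology
open scoped Real ENNReal Polynomial ComplexConjugate

namespace Pool.Agent.E96

lemma coeff_lift_top (m : ℕ) (g : ℝ[X]) : (lift m g).coeff (2 * m) = g.coeff m / 2 ^ m := by
  have hdeg : ∀ j : ℕ, ((X ^ 2 + 1 : ℝ[X]) ^ j).natDegree ≤ 2 * j := by
    intro j
    refine natDegree_pow_le.trans ?_
    have : (X ^ 2 + 1 : ℝ[X]).natDegree ≤ 2 := by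
      compute_degree
    nlinarith
  rw [lift, finsetSum_coeff, Finset.sum_eq_single m]
  · have h1 : (X ^ 2 + 1 : ℝ[X]).Monic := by
      have := monic_X_pow_add_C (R := ℝ) 1 (two_ne_zero)
      simpa using this
    have h2 := h1.pow m
    have h3 : (X ^ 2 + 1 : ℝ[X]).natDegree = 2 := by
      compute_degree!
    have h4 : ((X ^ 2 + 1 : ℝ[X]) ^ m).natDegree = 2 * m := by
      rw [h1.natDegree_pow, h3, mul_comm]
    have h5 : ((X ^ 2 + 1 : ℝ[X]) ^ m).coeff (2 * m) = 1 := by
      rw [← h4]; exact h2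
    rw [Nat.sub_self, pow_zero, mul_one, coeff_C_mul, h5, mul_one]
  · intro j hj hjm
    have hj' : j < m := by
      have := Finset.mem_range.1 hj
      omega
    apply coeff_eq_zero_of_natDegree_lt
    have h2 : (C (g.coeff j / 2 ^ j) * X ^ (m - j) : ℝ[X]).natDegree ≤ m - j :=
      natDegree_C_mul_X_pow_le _ _
    refine lt_of_le_of_lt natDegree_mul_le ?_
    have := hdeg j
    omega
  · intro h
    exact absurd (Finset.mem_range.2 (by omega)) h

/-- difference between the lifted polynomial and `t + z^{2n} conj t` -/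
noncomputable def dif (n N : ℕ) (t P : ℝ[X]) : ℝ[X] :=
  C (2 ^ n) * lift n P - t - X * reflect N t

lemma natDegree_dif_le {n N : ℕ} (hN : N + 1 = 2 * n) {t P : ℝ[X]}
    (hd : t.natDegree ≤ N) (h0 : t.coeff 0 = 1) (hP : P.coeff n = 1) :
    (dif n N t P).natDegree ≤ N := by
  rw [natDegree_le_iff_coeff_eq_zero]
  intro i hi
  have h1 : t.coeff i = 0 := coeff_eq_zero_of_natDegree_lt (by omega)
  obtain ⟨k, rfl⟩ : ∃ k, i = k + 1 := ⟨i - 1, by omega⟩
  rcases Nat.lt_or_ge (2 * n) (k + 1) with h | h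
  · have h2 : (lift n P).coeff (k + 1) = 0 :=
      coeff_eq_zero_of_natDegree_lt (lt_of_le_of_lt (natDegree_lift_le n P) h)
    have h3 : (reflect N t).coeff k = 0 :=
      coeff_eq_zero_of_natDegree_lt (lt_of_le_of_lt (natDegree_reflect_le' hd) (by omega))
    rw [dif, coeff_sub, coeff_sub, coeff_C_mul, h1, h2, coeff_X_mul, h3]
    ring
  · have hk : k = N := by omega
    have h2 : (lift n P).coeff (k + 1) = 1 / 2 ^ n := by
      rw [hk, hN, coeff_lift_top, hP]
    have h3 : (reflect N t).coeff k = 1 := by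
      rw [hk, coeff_reflect, revAt_le le_rfl, Nat.sub_self, h0]
    rw [dif, coeff_sub, coeff_sub, coeff_C_mul, h1, h2, coeff_X_mul, h3]
    field_simp
    ring

lemma coeff_zero_dif {n N : ℕ} {t P : ℝ[X]} (h0 : t.coeff 0 = 1) (hP : P.coeff n = 1) :
    (dif n N t P).coeff 0 = 0 := by
  rw [dif, coeff_sub, coeff_sub, coeff_C_mul, coeff_lift_zero, hP, h0, mul_coeff_zero]
  simp

lemma aeval_dif {n N : ℕ} (hN : N + 1 = 2 * n) {t P : ℝ[X]} (hd : t.natDegree ≤ N)
    (hPn : P.natDegree ≤ n) (x : I) :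
    aeval (ez x) (dif n N t P) = (ez x) ^ n * ((2 ^ n * P.eval (x : ℝ) : ℝ) : ℂ) -
      aeval (ez x) t - (ez x) ^ (2 * n) * conj (aeval (ez x) t) := by
  rw [dif, map_sub, map_sub, map_mul, map_mul, aeval_lift_ez hPn, aeval_X, aeval_reflect_ez hd,
    aeval_C, ← hN, pow_succ (ez x) N, Complex.coe_algebraMap]
  push_cast
  ring

/-- the function `w = h / t` -/
noncomputable def ww (n N : ℕ) (t P : ℝ[X]) (x : I) : ℂ :=
  aeval (ez x) (dif n N t P) / aeval (ez x) t

/-- its real part -/
noncomputable def rr (n N : ℕ) (t P : ℝ[X]) (x : I) : ℝ := (ww n N t P x).re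

/-- its squared modulus -/
noncomputable def uu (n N : ℕ) (t P : ℝ[X]) (x : I) : ℝ := sq (dif n N t P) x / sq t x

section alg

variable {n N : ℕ} {t P : ℝ[X]}

lemma continuous_ww (ht : ZF t) : Continuous (ww n N t P) :=
  (continuous_aeval_ez _).div (continuous_aeval_ez t) ht.ne

lemma continuous_rr (ht : ZF t) : Continuous (rr n N t P) :=
  Complex.continuous_re.comp (continuous_ww ht)

lemma continuous_uu (ht : ZF t) : Continuous (uu n N t P) :=
  (continuous_sq _).div (continuous_sq t) fun x => (ht.sq_pos x).ne'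

lemma uu_eq (x : I) : uu n N t P x = Complex.normSq (ww n N t P x) := by
  rw [uu, ww, sq, sq, map_div₀]

lemma uu_nonneg (x : I) : 0 ≤ uu n N t P x := by
  rw [uu_eq]; exact Complex.normSq_nonneg _

lemma rr_sq_le (x : I) : (rr n N t P x) ^ 2 ≤ uu n N t P x := by
  rw [uu_eq, rr, Complex.normSq_apply]
  nlinarith [mul_self_nonneg (ww n N t P x).im]

lemma th_conj_ww (hN : N + 1 = 2 * n) (hd : t.natDegree ≤ N) (ht : ZF t)
    (hPn : P.natDegree ≤ n) (x : I) : th N t x * conj (ww n N t P x) = ww n N t P x := by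
  have hz := ez_ne_zero x
  have hne := ht.ne x
  have hnec : conj (aeval (ez x) t) ≠ 0 := by simpa using hne
  rw [th, ww, aeval_dif hN hd hPn, hN]
  simp only [map_div₀, map_sub, map_mul, map_pow, Complex.conj_ofReal, Complex.conj_conj, conj_ez]
  have e5 : ez x ^ (2 * n) = (ez x ^ n) ^ 2 := by rw [← pow_mul, mul_comm]
  rw [inv_pow, inv_pow, e5]
  have hzn : ez x ^ n ≠ 0 := pow_ne_zero _ hz
  generalize ez x ^ n = Z at hzn ⊢
  generalize aeval (ez x) t = a at hne hnec ⊢
  generalize (starRingEnd ℂ) a = b at hnec ⊢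
  field_simp
  ring

/-- squared modulus of `s(1+θ) + w` -/
lemma quad_nonneg (hN : N + 1 = 2 * n) (hd : t.natDegree ≤ N) (ht : ZF t)
    (hPn : P.natDegree ≤ n) (s : ℝ) (x : I) :
    Complex.normSq ((s : ℂ) * (1 + th N t x) + ww n N t P x) =
      s ^ 2 * (2 + 2 * yy N t x) + 4 * s * rr n N t P x + uu n N t P x := by
  have h1 := th_conj_ww hN hd ht hPn x
  have h2 : Complex.normSq (th N t x) = 1 := by
    rw [Complex.normSq_eq_norm_sq, norm_th ht, one_pow]
  rw [uu_eq, rr, yy]
  set θ := th N t x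
  set w := ww n N t P x
  have h3 : (θ * conj w).re = w.re := by rw [h1]
  rw [Complex.mul_re, Complex.conj_re, Complex.conj_im] at h3
  rw [Complex.normSq_apply] at h2
  rw [Complex.normSq_apply, Complex.normSq_apply]
  simp only [Complex.add_re, Complex.add_im, Complex.mul_re, Complex.mul_im, Complex.ofReal_re,
    Complex.ofReal_im, Complex.one_re, Complex.one_im]
  linear_combination (s ^ 2) * h2 + 2 * s * h3

lemma line_sq (hN : N + 1 = 2 * n) (hd : t.natDegree ≤ N) (ht : ZF t)
    (hPn : P.natDegree ≤ n) (x : I) :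
    (2 ^ n * P.eval (x : ℝ)) ^ 2 =
      sq t x * ((2 + 2 * yy N t x) + 4 * rr n N t P x + uu n N t P x) := by
  have h1 := quad_nonneg hN hd ht hPn 1 x
  simp only [one_pow, one_mul, mul_one, Complex.ofReal_one] at h1
  rw [← h1, sq, ← map_mul]
  have h2 : aeval (ez x) t * (1 + th N t x + ww n N t P x) =
      (ez x) ^ n * ((2 ^ n * P.eval (x : ℝ) : ℝ) : ℂ) := by
    rw [th, ww, aeval_dif hN hd hPn, hN]
    have := ht.ne x
    field_simp
    ring
  rw [h2, map_mul, map_pow, normSq_ez, one_pow, one_mul, Complex.normSq_ofReal]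
  ring

lemma integral_ww_th (hd : t.natDegree ≤ N) (ht : ZF t) (h0 : t.coeff 0 = 1) (hP : P.coeff n = 1)
    (k : ℕ) : ∫ x, (ww n N t P x * (th N t x) ^ k).re ∂rho = 0 := by
  have h1 := integral_ratio (dif n N t P * (X * reflect N t) ^ k) t (k + 1) ht
  have h2 : (dif n N t P * (X * reflect N t) ^ k).coeff 0 = 0 := by
    rw [mul_coeff_zero, coeff_zero_dif h0 hP, zero_mul]
  rw [h2, zero_div] at h1
  rw [← h1]
  refine integral_congr_ae (Eventually.of_forall fun x => ?_)
  simp only
  rw [ww, th_eq hd, div_pow, div_mul_div_comm, ← pow_succ', ← map_pow, ← map_mul]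

lemma integral_rr_comp (hN : N + 1 = 2 * n) (hd : t.natDegree ≤ N) (ht : ZF t)
    (h0 : t.coeff 0 = 1) (hP : P.coeff n = 1) (hPn : P.natDegree ≤ n) (F : ℝ → ℝ)
    (hF : Continuous F) : ∫ x, rr n N t P x * F (yy N t x) ∂rho = 0 := by
  have hz : ∫ x, rr n N t P x ∂rho = 0 := by
    have := integral_ww_th hd ht h0 hP 0
    simpa [rr] using this
  have h1 := integral_comp_of_moments (w := rr n N t P) (continuous_rr ht) (continuous_yy N ht)
    (yy_mem ht) (fun j hj => ?_) F hF
  · rw [h1, hz, zero_mul]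
  · obtain ⟨i, rfl⟩ : ∃ i, j = i + 1 := ⟨j - 1, by omega⟩
    have h2 := integral_ww_th hd ht h0 hP (i + 1)
    have h3 := integral_ww_th hd ht h0 hP i
    have hwc := continuous_ww (n := n) (N := N) (P := P) ht
    have htc := continuous_th N ht
    have hc : ∀ k : ℕ, Continuous fun x => (ww n N t P x * (th N t x) ^ k).re := fun k =>
      Complex.continuous_re.comp (hwc.mul (htc.pow k))
    have h4 : ∫ x, (2⁻¹ * (ww n N t P x * (th N t x) ^ (i + 1)).re +
        2⁻¹ * (ww n N t P x * (th N t x) ^ i).re) ∂rho = 0 := by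
      rw [integral_add (integrable_of_continuous ((hc (i + 1)).const_mul _) _)
        (integrable_of_continuous ((hc i).const_mul _) _), integral_const_mul, integral_const_mul,
        h2, h3]
      ring
    rw [← h4]
    refine integral_congr_ae (Eventually.of_forall fun x => ?_)
    simp only
    rw [yy, T_eval_re (norm_th ht x), zpow_natCast, rr]
    have h5 := th_conj_ww hN hd ht hPn x
    set θ := th N t x
    set w := ww n N t P x
    have h6 : w * θ ^ i = θ ^ (i + 1) * conj w := by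
      conv_lhs => rw [← h5]
      ring
    rw [h6]
    generalize θ ^ (i + 1) = V
    simp only [Complex.mul_re, Complex.conj_re, Complex.conj_im]
    ring

end alg

end Pool.Agent.E96
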