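import Pool.Agent.E96.GeTwoT

/-!
# L^p extremal polynomials, p ≥ 2: the step
-/

open MeasureTheory Polynomial Set Filter Topology
open scoped Real ENNReal Polynomial ComplexConjugate

namespace Pool.Agent.E96

/-- constants -/
noncomputable def Hz (q : ℝ) : ℝ := 10 + 4 * 4 ^ q
/-- constants -/
noncomputable def Rc (q η ε : ℝ) : ℝ :=
  (1 + ε) * (1 - η) ^ (-q) - (1 - ε) + (1 + ε) * (5 * ε) / η + (6 + 2 ^ q) * ε + 2 * ε +
    2 * ((1 - η) ^ (-q) - 1 + 5 * ε / η)
/-- constants -/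
noncomputable def Lo (q σ η ε : ℝ) : ℝ :=
  (1 - ε) * (cp q - (1 + q) * 4 ^ q * ε) -
    4 * q * (4 ^ (q - 1) * (12 * σ * Hz q + Rc q η ε / (4 * σ)))
/-- constants -/
noncomputable def Mup (q η ε : ℝ) : ℝ := (1 + ε) * ((1 - η) ^ (-q) + 5 * ε / η) + (6 + 2 ^ q) * ε
/-- constants -/
noncomputable def Up (q η ε : ℝ) : ℝ :=
  (1 + ε) * ((1 - η) ^ (-q) * cp q + 4 ^ q * (5 * ε) / η) + 4 ^ q * ((6 + 2 ^ q) * ε)

lemma cp_le {q : ℝ} (hq : 0 < q) : cp q ≤ 4 ^ q := by
  have hc : Continuous fun x : I => (2 + 2 * (x : ℝ)) ^ q :=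
    Continuous.rpow_const (by fun_prop) fun _ => Or.inr hq.le
  have h1 : cp q ≤ ∫ _x : I, (4 : ℝ) ^ q ∂rho := by
    rw [cp]
    exact integral_mono (integrable_of_continuous hc _) (integrable_const _) fun x =>
      rpow_two_add_le hq x.2
  simpa using h1

/-- `∫ v^{-q} f dγ` upper bound -/
lemma int_le {γ : Measure I} [IsFiniteMeasure γ] {G : Set I} {ε : ℝ} (hnear : Near γ G ε)
    (hε0 : 0 ≤ ε) {q : ℝ} (hq : 0 < q) {v : I → ℝ} (hvc : Continuous v)
    (hvp : ∀ x, 0 < v x) {η L E K : ℝ} (hη : 0 < η) (hη1 : η < 1)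
    (hL : ∫ x in G, (1 - v x) * ((v x) ^ (-q) - 1) ∂rho ≤ L)
    (hE : ∫ x in Gᶜ, (v x) ^ (-q) ∂γ ≤ E) {f : I → ℝ} (hf : Continuous f)
    (hf0 : ∀ x, 0 ≤ f x) (hfK : ∀ x, f x ≤ K) (hK : 0 ≤ K) :
    ∫ x, (v x) ^ (-q) * f x ∂γ ≤
      (1 + ε) * ((1 - η) ^ (-q) * ∫ x, f x ∂rho + K * L / η) + K * E := by
  have hvqc : Continuous fun x => (v x) ^ (-q) := hvc.rpow_const fun x => Or.inl (hvp x).ne'
  have hvf0 : ∀ x, 0 ≤ (v x) ^ (-q) * f x := fun x =>
    mul_nonneg (Real.rpow_nonneg (hvp x).le _) (hf0 x)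
  have hvfc : Continuous fun x => (v x) ^ (-q) * f x := hvqc.mul hf
  rw [split (μ := γ) hnear.meas hvfc]
  refine add_le_add ?_ ?_
  · have h2 := hnear.up _ hvfc hvf0
    have h3 := Near.integral_G_le (G := G) hq hvc hvp hη hη1 hL hf hf0 hfK hK
    refine h2.trans ?_
    exact mul_le_mul_of_nonneg_left h3 (by linarith)
  · have h4 : ∫ x in Gᶜ, (v x) ^ (-q) * f x ∂γ ≤ ∫ x in Gᶜ, K * (v x) ^ (-q) ∂γ := by
      refine set_mono hvfc (hvqc.const_mul _) fun x => ?_
      rw [mul_comm]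
      exact mul_le_mul_of_nonneg_right (hfK x) (Real.rpow_nonneg (hvp x).le _)
    rw [integral_const_mul] at h4
    exact h4.trans (mul_le_mul_of_nonneg_left hE hK)

lemma le_one_add_rpow {q x : ℝ} (hq : 1 ≤ q) (hx : 0 ≤ x) : x ≤ 1 + x ^ q := by
  rcases le_total x 1 with h | h
  · have : 0 ≤ x ^ q := Real.rpow_nonneg hx q
    linarith
  · have : x ^ (1 : ℝ) ≤ x ^ q := Real.rpow_le_rpow_of_exponent_le h hq
    rw [Real.rpow_one] at this
    linarith

/-- the lower bound on the line -/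
theorem low_main {γ : Measure I} [IsFiniteMeasure γ] {G : Set I} {ε : ℝ} (hnear : Near γ G ε)
    (hε0 : 0 ≤ ε) (hε : ε ≤ 1 / 4) {g : ℝ[X]} (hg : ∀ x : I, 0 < g.eval (x : ℝ)) {q : ℝ}
    (hq : 1 ≤ q) {n N : ℕ} (hN : N + 1 = 2 * n) (hgN : g.natDegree ≤ N) {t : ℝ[X]}
    (hd : t.natDegree ≤ N) (h0 : t.coeff 0 = 1) (hzf : ZF t)
    (iso : ∀ h : ℝ[X], h.natDegree ≤ N →
        ∫ x, (vv g t x) ^ (-q) * (sq h x / sq t x) ∂γ =
          (∫ x, (vv g t x) ^ (-q) ∂γ) * ∫ x, sq h x / sq t x ∂rho)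
    (hL : ∫ x in G, (1 - vv g t x) * ((vv g t x) ^ (-q) - 1) ∂rho ≤ 5 * ε)
    (hE : ∫ x in Gᶜ, (vv g t x) ^ (-q) ∂γ ≤ (6 + 2 ^ q) * ε)
    {η σ : ℝ} (hη : 0 < η) (hη1 : η < 1) (hσ : 0 < σ)
    (hM1 : 1 / 2 ≤ (1 - ε) * (1 - (1 + q) * ε)) (hM2 : Mup q η ε ≤ 2) :
    (lam g t) ^ q * Lo q σ η ε ≤ DD γ g q n := by
  have hq0 : 0 < q := by linarith
  have hlam := lam_pos hg hzf
  have hvp := vv_pos hg hzf
  have hvc := continuous_vv hg hzf
  have hyc := continuous_yy N hzf
  have hlq : 0 < (lam g t) ^ q := Real.rpow_pos_of_pos hlam q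
  have hcp := cp_pos hq0
  have hcple := cp_le hq0
  have h4q : (0 : ℝ) ≤ 4 ^ q := by positivity
  have h4q1 : (0 : ℝ) ≤ 4 ^ (q - 1) := by positivity
  set v := vv g t with hv
  set A : I → ℝ := fun x => (v x) ^ (-q) with hA
  have hAc : Continuous A := hvc.rpow_const fun x => Or.inl (hvp x).ne'
  have hA0 : ∀ x, 0 ≤ A x := fun x => Real.rpow_nonneg (hvp x).le _
  set D : I → ℝ := fun x => 2 + 2 * yy N t x with hD
  have hDc : Continuous D := by fun_prop
  have hD0 : ∀ x, 0 ≤ D x := fun x => by have := (yy_mem (N := N) hzf x).1; simp only [hD]; linarith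
  have hD4 : ∀ x, D x ≤ 4 := fun x => by have := (yy_mem (N := N) hzf x).2; simp only [hD]; linarith
  set F : I → ℝ := fun x => (D x) ^ (q - 1) with hF
  have hFc : Continuous F := hDc.rpow_const fun _ => Or.inr (by linarith)
  have hF0 : ∀ x, 0 ≤ F x := fun x => Real.rpow_nonneg (hD0 x) _
  have hFK : ∀ x, F x ≤ 4 ^ (q - 1) := fun x =>
    Real.rpow_le_rpow (hD0 x) (hD4 x) (by linarith)
  have hDqc : Continuous fun x => (D x) ^ q := hDc.rpow_const fun _ => Or.inr hq0.le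
  set M := ∫ x, A x ∂γ with hM
  -- bounds for M
  have hMup : M ≤ 2 := by
    have h1 := int_le hnear hε0 hq0 hvc hvp hη hη1 hL hE (f := fun _ => (1 : ℝ)) continuous_const
      (fun _ => zero_le_one) (fun _ => le_rfl) zero_le_one
    simp only [mul_one, integral_const, probReal_univ, smul_eq_mul, one_mul] at h1
    exact h1.trans hM2
  have hMlow : 1 / 2 ≤ M := by
    have h1 := hnear.integral_G_ge hq0 hvc hvp (f := fun _ => (1 : ℝ)) (M := 1) continuous_const
      (fun _ => zero_le_one) (fun _ => le_rfl) zero_le_one (by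
        simp only [mul_one, integral_const, probReal_univ, smul_eq_mul]
        exact integral_vv hg hzf)
    simp only [mul_one, integral_const, probReal_univ, smul_eq_mul] at h1
    have h2 := hnear.low A hAc hA0
    have h3 : (1 - ε) * (1 - (1 + q) * ε) ≤ (1 - ε) * ∫ x in G, A x ∂rho :=
      mul_le_mul_of_nonneg_left h1 (by linarith)
    have h4 : ∫ x in G, A x ∂γ ≤ M := set_le_full hAc hA0
    linarith
  -- Rc is nonnegative
  have hη2 : 1 ≤ (1 - η) ^ (-q) :=
    Real.one_le_rpow_of_pos_of_le_one_of_nonpos (by linarith) (by linarith) (by linarith)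
  have hRc1 : 0 ≤ (1 + ε) * (1 - η) ^ (-q) - (1 - ε) := by nlinarith
  have hRc : 0 ≤ Rc q η ε := by
    have h2q : (0 : ℝ) ≤ 2 ^ q := by positivity
    have e1 : 0 ≤ (1 + ε) * (5 * ε) / η := by positivity
    have e2 : 0 ≤ (6 + 2 ^ q) * ε := by positivity
    have e3 : 0 ≤ 5 * ε / η := by positivity
    unfold Rc
    linarith
  have hHz : 0 ≤ Hz q := by unfold Hz; positivity
  have hbad : 0 ≤ 4 * q * (4 ^ (q - 1) * (12 * σ * Hz q + Rc q η ε / (4 * σ))) := by positivity
  have hLocp : Lo q σ η ε ≤ cp q := by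
    have h1 : 0 ≤ (1 + q) * 4 ^ q * ε := by positivity
    have h2 : (1 - ε) * (cp q - (1 + q) * 4 ^ q * ε) ≤ (1 - ε) * cp q :=
      mul_le_mul_of_nonneg_left (by linarith) (by linarith)
    have h3 : 0 ≤ ε * cp q := by positivity
    unfold Lo
    linarith
  refine le_DD fun P hP hPn => ?_
  have hPc : P.coeff n = 1 := by rw [← hPn]; exact hP
  have hPn' : P.natDegree ≤ n := hPn.le
  set r := rr n N t P with hr
  set u := uu n N t P with hu
  have hrc : Continuous r := continuous_rr hzf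
  have huc : Continuous u := continuous_uu hzf
  have hu0 : ∀ x, 0 ≤ u x := uu_nonneg
  have hZ0 : ∀ x, 0 ≤ D x + 4 * r x + u x := by
    intro x
    have h1 := quad_nonneg hN hd hzf hPn' 1 x
    simp only [one_pow, one_mul, mul_one] at h1
    have h2 := Complex.normSq_nonneg (((1 : ℝ) : ℂ) * (1 + th N t x) + ww n N t P x)
    rw [Complex.ofReal_one, one_mul] at h2
    rw [Complex.ofReal_one, one_mul] at h1
    rw [h1] at h2
    exact h2
  have hZ2 : ∀ x, 0 ≤ 4 * D x + 8 * r x + u x := by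
    intro x
    have h1 := quad_nonneg hN hd hzf hPn' 2 x
    have h2 := Complex.normSq_nonneg (((2 : ℝ) : ℂ) * (1 + th N t x) + ww n N t P x)
    rw [h1] at h2
    have h3 : 4 * D x + 8 * r x + u x = 2 ^ 2 * (2 + 2 * yy N t x) + 4 * 2 * rr n N t P x +
      uu n N t P x := by
      simp only [hD, hr, hu]
      ring
    rw [h3]
    exact h2
  have hZc : Continuous fun x => D x + 4 * r x + u x := by fun_prop
  have hZqc : Continuous fun x => (D x + 4 * r x + u x) ^ q := hZc.rpow_const fun _ => Or.inr hq0.le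
  set B := ∫ x, A x * (D x + 4 * r x + u x) ^ q ∂γ with hB
  have hLL : LL γ g q n P = (lam g t) ^ q * B := by
    rw [LL, hB, ← integral_const_mul]
    refine integral_congr_ae (Eventually.of_forall fun x => ?_)
    simp only
    rw [line_sq hN hd hzf hPn' x]
    have h1 : sq t x * (2 + 2 * yy N t x + 4 * rr n N t P x + uu n N t P x) / g.eval (x : ℝ) =
        lam g t * ((v x)⁻¹ * (D x + 4 * r x + u x)) := by
      have h2 := sq_div_g hg hzf x
      have h3 : sq t x * (2 + 2 * yy N t x + 4 * rr n N t P x + uu n N t P x) / g.eval (x : ℝ) =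
          (sq t x / g.eval (x : ℝ)) * (D x + 4 * r x + u x) := by ring
      rw [h3, h2]
      ring
    rw [h1, Real.mul_rpow hlam.le (mul_nonneg (inv_nonneg.2 (hvp x).le) (hZ0 x)),
      Real.mul_rpow (inv_nonneg.2 (hvp x).le) (hZ0 x), Real.inv_rpow (hvp x).le,
      ← Real.rpow_neg (hvp x).le]
  rw [hLL]
  refine mul_le_mul_of_nonneg_left ?_ hlq.le
  rcases le_or_gt (cp q) B with hcase | hcase
  · linarith
  -- the mass of u
  set H := ∫ x, u x ∂rho with hH
  have hMH : ∫ x, A x * u x ∂γ = M * H := iso (dif n N t P) (natDegree_dif_le hN hd h0 hPc)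
  have hH0 : 0 ≤ H := integral_nonneg hu0
  have hAuc : Continuous fun x => A x * u x := hAc.mul huc
  have hAZc : Continuous fun x => A x * (D x + 4 * r x + u x) ^ q := hAc.mul hZqc
  have hHle : M * H ≤ 10 * M + 2 * B := by
    rw [← hMH]
    have h1 : ∫ x, A x * u x ∂γ ≤ ∫ x, (10 * A x + 2 * (A x * (D x + 4 * r x + u x) ^ q)) ∂γ := by
      refine integral_mono (integrable_of_continuous hAuc _)
        (integrable_of_continuous ((hAc.const_mul _).add (hAZc.const_mul _)) _) fun x => ?_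
      simp only
      have h2 := le_one_add_rpow hq (hZ0 x)
      have h3 := hZ2 x
      have h4 := hD4 x
      have h5 : u x ≤ 10 + 2 * (D x + 4 * r x + u x) ^ q := by linarith
      have h6 := mul_le_mul_of_nonneg_left h5 (hA0 x)
      linarith
    rw [integral_add (integrable_of_continuous (hAc.const_mul _) _)
      (integrable_of_continuous (hAZc.const_mul _) _), integral_const_mul, integral_const_mul] at h1
    exact h1
  have hHHz : H ≤ Hz q := by
    have hM0 : 0 < M := by linarith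
    have h1 : M * H ≤ M * Hz q := by
      refine hHle.trans ?_
      have h2 : 2 * B ≤ M * (4 * 4 ^ q) := by
        have h3 : 1 / 2 * (4 * 4 ^ q) ≤ M * (4 * 4 ^ q) :=
          mul_le_mul_of_nonneg_right hMlow (by positivity)
        linarith
      unfold Hz
      linarith
    exact le_of_mul_le_mul_left h1 hM0
  have hAu2 : ∫ x, A x * u x ∂γ ≤ 2 * Hz q := by
    rw [hMH]
    exact mul_le_mul hMup hHHz hH0 (by norm_num)
  -- τ
  have hψc : Continuous fun x => (1 - v x) * ((v x) ^ (-q) - 1) :=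
    (continuous_const.sub hvc).mul (hAc.sub continuous_const)
  have hτ : ∫ x in G, |A x - 1| ∂rho ≤ ((1 - η) ^ (-q) - 1) + 5 * ε / η := by
    have h1 : ∫ x in G, |A x - 1| ∂rho ≤
        ∫ x in G, (((1 - η) ^ (-q) - 1) + ((1 - v x) * ((v x) ^ (-q) - 1)) / η) ∂rho := by
      refine set_mono (hAc.sub continuous_const).abs (continuous_const.add (hψc.div_const _))
        fun x => ?_
      exact abs_rpow_neg_sub_le hq0 (hvp x) hη hη1
    rw [integral_add (intOn continuous_const rho G) (intOn (hψc.div_const _) rho G),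
      integral_div, setIntegral_const, smul_eq_mul] at h1
    have h3 := Near.rho_le_one G
    have h4 : (∫ x in G, (1 - v x) * ((v x) ^ (-q) - 1) ∂rho) / η ≤ 5 * ε / η :=
      div_le_div_of_nonneg_right hL hη.le
    have h5 : rho.real G * ((1 - η) ^ (-q) - 1) ≤ 1 * ((1 - η) ^ (-q) - 1) :=
      mul_le_mul_of_nonneg_right h3 (by linarith)
    linarith
  -- F integral
  have hFcont : Continuous fun y : ℝ => (2 + 2 * y) ^ (q - 1) :=
    Continuous.rpow_const (by fun_prop) fun _ => Or.inr (by linarith)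
  have hrF : ∫ x, r x * F x ∂rho = 0 :=
    integral_rr_comp hN hd hzf h0 hPc hPn' (fun y => (2 + 2 * y) ^ (q - 1)) hFcont
  set c := ∫ x, F x ∂rho with hc
  have hc0 : 0 ≤ c := integral_nonneg hF0
  have hcK : c ≤ 4 ^ (q - 1) := by
    have h1 : c ≤ ∫ _x : I, (4 : ℝ) ^ (q - 1) ∂rho :=
      integral_mono (integrable_of_continuous hFc _) (integrable_const _) hFK
    simpa using h1
  have hU := int_le hnear hε0 hq0 hvc hvp hη hη1 hL hE hFc hF0 hFK h4q1
  have hT := T_lower hnear hε0 hε hAc hFc hrc huc hA0 hF0 hFK h4q1 rr_sq_le hσ hrF hHHz hHz hAu2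
    hτ hU
  -- arithmetic for T
  have hT2 : -(4 ^ (q - 1) * (12 * σ * Hz q + Rc q η ε / (4 * σ))) ≤ ∫ x, A x * F x * r x ∂γ := by
    refine le_trans ?_ hT
    rw [← hc]
    have e1 : c * ((1 + ε) * (1 - η) ^ (-q) - (1 - ε)) ≤
        4 ^ (q - 1) * ((1 + ε) * (1 - η) ^ (-q) - (1 - ε)) :=
      mul_le_mul_of_nonneg_right hcK hRc1
    have e2 := div_le_div_of_nonneg_right e1 (by positivity : 0 ≤ 4 * σ)
    have e3 : (1 - ε) * (c / (4 * σ)) - ((1 + ε) * ((1 - η) ^ (-q) * c + 4 ^ (q - 1) * (5 * ε) / η) +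
        4 ^ (q - 1) * ((6 + 2 ^ q) * ε)) / (4 * σ) -
        4 ^ (q - 1) * (12 * σ * Hz q + (2 * ε + 2 * ((1 - η) ^ (-q) - 1 + 5 * ε / η)) / (4 * σ)) =
        -(c * ((1 + ε) * (1 - η) ^ (-q) - (1 - ε)) / (4 * σ)) - 4 ^ (q - 1) * (12 * σ * Hz q +
          ((1 + ε) * (5 * ε) / η + (6 + 2 ^ q) * ε + 2 * ε +
            2 * ((1 - η) ^ (-q) - 1 + 5 * ε / η)) / (4 * σ)) := by
      field_simp
      ring
    have e4 : -(4 ^ (q - 1) * (12 * σ * Hz q + Rc q η ε / (4 * σ))) =
        -(4 ^ (q - 1) * ((1 + ε) * (1 - η) ^ (-q) - (1 - ε)) / (4 * σ)) -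
        4 ^ (q - 1) * (12 * σ * Hz q +
          ((1 + ε) * (5 * ε) / η + (6 + 2 ^ q) * ε + 2 * ε +
            2 * ((1 - η) ^ (-q) - 1 + 5 * ε / η)) / (4 * σ)) := by
      unfold Rc
      field_simp
      ring
    rw [e3, e4]
    linarith
  -- the main term
  have hmain : (1 - ε) * (cp q - (1 + q) * 4 ^ q * ε) ≤ ∫ x, A x * (D x) ^ q ∂γ := by
    have h1 := LL_lower hnear (by linarith) hg hq0 hzf hd hgN
    have h2 : ∫ x, (lam g t / vv g t x * (2 + 2 * yy N t x)) ^ q ∂γ =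
        (lam g t) ^ q * ∫ x, A x * (D x) ^ q ∂γ := by
      rw [← integral_const_mul]
      refine integral_congr_ae (Eventually.of_forall fun x => ?_)
      simp only
      rw [div_eq_mul_inv, mul_assoc,
        Real.mul_rpow hlam.le (mul_nonneg (inv_nonneg.2 (hvp x).le) (hD0 x)),
        Real.mul_rpow (inv_nonneg.2 (hvp x).le) (hD0 x), Real.inv_rpow (hvp x).le,
        ← Real.rpow_neg (hvp x).le]
    rw [h2] at h1
    have h3 : (lam g t) ^ q * ((1 - ε) * (cp q - (1 + q) * 4 ^ q * ε)) ≤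
        (lam g t) ^ q * ∫ x, A x * (D x) ^ q ∂γ := by
      refine le_trans (le_of_eq ?_) h1
      ring
    exact le_of_mul_le_mul_left h3 hlq
  have hADc : Continuous fun x => A x * (D x) ^ q := hAc.mul hDqc
  have hAFrc : Continuous fun x => A x * F x * r x := (hAc.mul hFc).mul hrc
  have hBlow : ∫ x, A x * (D x) ^ q ∂γ + 4 * q * ∫ x, A x * F x * r x ∂γ ≤ B := by
    rw [← integral_const_mul, ← integral_add (integrable_of_continuous hADc _)
      (integrable_of_continuous (hAFrc.const_mul _) _)]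
    refine integral_mono (integrable_of_continuous (hADc.add (hAFrc.const_mul _)) _)
      (integrable_of_continuous hAZc _) fun x => ?_
    simp only
    have h1 := convex_tangent hq (hD0 x) (hZ0 x)
    have h2 : 0 ≤ q * (D x) ^ (q - 1) * u x := by
      have := hF0 x
      have := hu0 x
      positivity
    have h3 : (D x) ^ q + 4 * q * (F x * r x) ≤ (D x + 4 * r x + u x) ^ q := by
      refine le_trans ?_ h1
      simp only [hF]
      linarith
    have h4 := mul_le_mul_of_nonneg_left h3 (hA0 x)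
    linarith
  have h5 : 4 * q * (-(4 ^ (q - 1) * (12 * σ * Hz q + Rc q η ε / (4 * σ)))) ≤
      4 * q * ∫ x, A x * F x * r x ∂γ := mul_le_mul_of_nonneg_left hT2 (by positivity)
  unfold Lo
  linarith

end Pool.Agent.E96
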