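import Pool.Agent.E96.GeTwoLow

/-!
# L^p extremal polynomials, p ≥ 2: the lower bound on the line, analytic part
-/

open MeasureTheory Polynomial Set Filter Topology
open scoped Real ENNReal Polynomial ComplexConjugate

namespace Pool.Agent.E96

lemma T_arith {ε σ K H0 τ U c X1 X2 X3 X4 X5 T : ℝ} (hε0 : 0 ≤ ε) (hε : ε ≤ 1 / 4)
    (hσ : 0 < σ) (hK : 0 ≤ K) (hH0 : 0 ≤ H0) (hτ : 0 ≤ τ)
    (h1 : (1 - ε) * X2 ≤ X1) (h2 : X3 - K * (8 * σ * H0 + τ / (2 * σ)) ≤ X2)
    (h3 : c / (4 * σ) - K * (2 * σ * H0 + ε / (2 * σ)) ≤ X3)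
    (h4 : X4 ≤ K * (2 * H0)) (h5 : X5 ≤ U) (hT : T = X1 - σ * X4 - X5 / (4 * σ)) :
    (1 - ε) * (c / (4 * σ)) - U / (4 * σ) - K * (12 * σ * H0 + (2 * ε + 2 * τ) / (4 * σ)) ≤ T := by
  have e1 : (1 - ε) * (c / (4 * σ) - K * (2 * σ * H0 + ε / (2 * σ)) -
      K * (8 * σ * H0 + τ / (2 * σ))) ≤ X1 :=
    le_trans (mul_le_mul_of_nonneg_left (by linarith) (by linarith)) h1
  have e2 : σ * X4 ≤ σ * (K * (2 * H0)) := mul_le_mul_of_nonneg_left h4 hσ.le
  have e3 : X5 / (4 * σ) ≤ U / (4 * σ) := div_le_div_of_nonneg_right h5 (by positivity)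
  have e4 : 0 ≤ K * (2 * σ * H0 + ε / (2 * σ)) := by positivity
  have e5 : 0 ≤ K * (8 * σ * H0 + τ / (2 * σ)) := by positivity
  have e6 : (1 - ε) * (c / (4 * σ)) - K * (2 * σ * H0 + ε / (2 * σ)) -
      K * (8 * σ * H0 + τ / (2 * σ)) ≤ X1 := by
    refine le_trans ?_ e1
    have : 0 ≤ ε * (K * (2 * σ * H0 + ε / (2 * σ)) + K * (8 * σ * H0 + τ / (2 * σ))) := by positivity
    linarith
  have e7 : K * (12 * σ * H0 + (2 * ε + 2 * τ) / (4 * σ)) =
      K * (2 * σ * H0 + ε / (2 * σ)) + K * (8 * σ * H0 + τ / (2 * σ)) + σ * (K * (2 * H0)) := by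
    field_simp
    ring
  rw [e7, hT]
  linarith

lemma T_lower {γ : Measure I} [IsFiniteMeasure γ] {G : Set I} {ε : ℝ} (hn : Near γ G ε)
    (hε0 : 0 ≤ ε) (hε : ε ≤ 1 / 4) {A F r u : I → ℝ} (hA : Continuous A) (hF : Continuous F)
    (hr : Continuous r) (hu : Continuous u) (hA0 : ∀ x, 0 ≤ A x) (hF0 : ∀ x, 0 ≤ F x) {K : ℝ}
    (hFK : ∀ x, F x ≤ K) (hK : 0 ≤ K) (hru : ∀ x, (r x) ^ 2 ≤ u x) {σ : ℝ} (hσ : 0 < σ)
    (hrF : ∫ x, r x * F x ∂rho = 0) {H0 τ U : ℝ} (hH : ∫ x, u x ∂rho ≤ H0) (hH0 : 0 ≤ H0)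
    (hAu : ∫ x, A x * u x ∂γ ≤ 2 * H0) (hτ : ∫ x in G, |A x - 1| ∂rho ≤ τ)
    (hU : ∫ x, A x * F x ∂γ ≤ U) :
    (1 - ε) * ((∫ x, F x ∂rho) / (4 * σ)) - U / (4 * σ) -
      K * (12 * σ * H0 + (2 * ε + 2 * τ) / (4 * σ)) ≤ ∫ x, A x * F x * r x ∂γ := by
  have hu0 : ∀ x, 0 ≤ u x := fun x => (sq_nonneg _).trans (hru x)
  have hσ4 : 0 < 4 * σ := by positivity
  set ζ : I → ℝ := fun x => r x + σ * u x + 1 / (4 * σ) with hζ
  have hζc : Continuous ζ := by fun_prop
  have hζ0 : ∀ x, 0 ≤ ζ x := by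
    intro x
    have h1 : σ * (r x) ^ 2 ≤ σ * u x := mul_le_mul_of_nonneg_left (hru x) hσ.le
    have h2 : σ * (r x) ^ 2 + r x + 1 / (4 * σ) = σ * (r x + 1 / (2 * σ)) ^ 2 := by
      field_simp
      ring
    have h3 : 0 ≤ σ * (r x + 1 / (2 * σ)) ^ 2 := by positivity
    simp only [hζ]
    linarith
  have hζ1 : ∀ x, ζ x ≤ 2 * σ * u x + 1 / (2 * σ) := by
    intro x
    have h1 : σ * (r x) ^ 2 ≤ σ * u x := mul_le_mul_of_nonneg_left (hru x) hσ.le
    have h2 : σ * (r x) ^ 2 - r x + 1 / (4 * σ) = σ * (r x - 1 / (2 * σ)) ^ 2 := by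
      field_simp
      ring
    have h3 : 0 ≤ σ * (r x - 1 / (2 * σ)) ^ 2 := by positivity
    have h4 : 1 / (2 * σ) = 1 / (4 * σ) + 1 / (4 * σ) := by field_simp; norm_num
    simp only [hζ]
    rw [h4]
    linarith
  have hτ0 : 0 ≤ τ := le_trans (set_nonneg fun x => abs_nonneg _) hτ
  have hAFζc : Continuous fun x => A x * F x * ζ x := (hA.mul hF).mul hζc
  have hFζc : Continuous fun x => F x * ζ x := hF.mul hζc
  have hAuc : Continuous fun x => A x * u x := hA.mul hu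
  have hAbs : Continuous fun x => |A x - 1| := (hA.sub continuous_const).abs
  have hbd : Continuous fun x => 2 * σ * u x + 1 / (2 * σ) := by fun_prop
  refine T_arith (X1 := ∫ x, A x * F x * ζ x ∂γ) (X2 := ∫ x in G, A x * F x * ζ x ∂rho)
    (X3 := ∫ x in G, F x * ζ x ∂rho) (X4 := ∫ x, A x * F x * u x ∂γ)
    (X5 := ∫ x, A x * F x ∂γ) hε0 hε hσ hK hH0 hτ0 ?_ ?_ ?_ ?_ hU ?_
  · -- h1
    have hnn : ∀ x, 0 ≤ A x * F x * ζ x := fun x => mul_nonneg (mul_nonneg (hA0 x) (hF0 x)) (hζ0 x)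
    exact (hn.low _ hAFζc hnn).trans (set_le_full hAFζc hnn)
  · -- h2
    have e1 : ∫ x in G, (F x * ζ x - K * (2 * σ * ((A x + 1) * u x) + |A x - 1| * (1 / (2 * σ)))) ∂rho
        ≤ ∫ x in G, A x * F x * ζ x ∂rho := by
      refine set_mono ?_ hAFζc fun x => ?_
      · exact hFζc.sub (by fun_prop)
      · have h1 : -(|A x - 1|) ≤ A x - 1 := neg_abs_le _
        have h2 : 0 ≤ F x * ζ x := mul_nonneg (hF0 x) (hζ0 x)
        have h3 : F x * ζ x ≤ K * (2 * σ * u x + 1 / (2 * σ)) :=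
          mul_le_mul (hFK x) (hζ1 x) (hζ0 x) hK
        have h4 : |A x - 1| * (F x * ζ x) ≤ |A x - 1| * (K * (2 * σ * u x + 1 / (2 * σ))) :=
          mul_le_mul_of_nonneg_left h3 (abs_nonneg _)
        have h5 : |A x - 1| ≤ A x + 1 := by
          rw [abs_le]
          constructor <;> linarith [hA0 x]
        have h6 : |A x - 1| * u x ≤ (A x + 1) * u x := mul_le_mul_of_nonneg_right h5 (hu0 x)
        have h7 : K * (2 * σ) * (|A x - 1| * u x) ≤ K * (2 * σ) * ((A x + 1) * u x) :=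
          mul_le_mul_of_nonneg_left h6 (by positivity)
        have h8 : -(|A x - 1|) * (F x * ζ x) ≤ (A x - 1) * (F x * ζ x) :=
          mul_le_mul_of_nonneg_right h1 h2
        linarith
    have hc1 : Continuous fun x => K * (2 * σ * ((A x + 1) * u x) + |A x - 1| * (1 / (2 * σ))) := by
      fun_prop
    have hc2 : Continuous fun x => 2 * σ * ((A x + 1) * u x) := by fun_prop
    have hc3 : Continuous fun x => |A x - 1| * (1 / (2 * σ)) := by fun_prop
    rw [integral_sub (intOn hFζc rho G) (intOn hc1 rho G), integral_const_mul,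
      integral_add (intOn hc2 rho G) (intOn hc3 rho G), integral_const_mul, integral_mul_const] at e1
    have e2 : ∫ x in G, (A x + 1) * u x ∂rho ≤ 4 * H0 := by
      have e3 : ∫ x in G, (A x + 1) * u x ∂rho =
          ∫ x in G, A x * u x ∂rho + ∫ x in G, u x ∂rho := by
        rw [← integral_add (intOn hAuc rho G) (intOn hu rho G)]
        refine integral_congr_ae (Eventually.of_forall fun x => ?_)
        simp only
        ring
      have hnn : ∀ x, 0 ≤ A x * u x := fun x => mul_nonneg (hA0 x) (hu0 x)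
      have e4 := hn.low _ hAuc hnn
      have e5 : ∫ x in G, A x * u x ∂γ ≤ 2 * H0 := (set_le_full hAuc hnn).trans hAu
      have e6 : ∫ x in G, u x ∂rho ≤ H0 := (set_le_full hu hu0).trans hH
      have e7 : 0 ≤ ∫ x in G, A x * u x ∂rho := set_nonneg hnn
      have e8 : 3 / 4 * ∫ x in G, A x * u x ∂rho ≤ (1 - ε) * ∫ x in G, A x * u x ∂rho :=
        mul_le_mul_of_nonneg_right (by linarith) e7
      rw [e3]
      linarith
    have e9 : (∫ x in G, |A x - 1| ∂rho) * (1 / (2 * σ)) ≤ τ * (1 / (2 * σ)) :=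
      mul_le_mul_of_nonneg_right hτ (by positivity)
    have e10 : 2 * σ * ∫ x in G, (A x + 1) * u x ∂rho ≤ 2 * σ * (4 * H0) :=
      mul_le_mul_of_nonneg_left e2 (by positivity)
    have e11 : K * (2 * σ * ∫ x in G, (A x + 1) * u x ∂rho +
        (∫ x in G, |A x - 1| ∂rho) * (1 / (2 * σ))) ≤ K * (8 * σ * H0 + τ / (2 * σ)) := by
      refine mul_le_mul_of_nonneg_left ?_ hK
      have : τ / (2 * σ) = τ * (1 / (2 * σ)) := by ring
      rw [this]
      linarith
    linarith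
  · -- h3
    have e1 := split (μ := rho) hn.meas hFζc
    have e2 : ∫ x in Gᶜ, F x * ζ x ∂rho ≤ K * (2 * σ * H0 + ε / (2 * σ)) := by
      have e3 : ∫ x in Gᶜ, F x * ζ x ∂rho ≤ ∫ x in Gᶜ, K * (2 * σ * u x + 1 / (2 * σ)) ∂rho :=
        set_mono hFζc (by fun_prop) fun x => mul_le_mul (hFK x) (hζ1 x) (hζ0 x) hK
      rw [integral_const_mul, integral_add (intOn (hu.const_mul _) rho _)
        (intOn continuous_const rho _), integral_const_mul, setIntegral_const, smul_eq_mul] at e3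
      refine e3.trans (mul_le_mul_of_nonneg_left ?_ hK)
      have e4 : ∫ x in Gᶜ, u x ∂rho ≤ H0 := (set_le_full hu hu0).trans hH
      have e5 : 2 * σ * ∫ x in Gᶜ, u x ∂rho ≤ 2 * σ * H0 :=
        mul_le_mul_of_nonneg_left e4 (by positivity)
      have e6 : rho.real Gᶜ * (1 / (2 * σ)) ≤ ε * (1 / (2 * σ)) :=
        mul_le_mul_of_nonneg_right hn.outr (by positivity)
      have : ε / (2 * σ) = ε * (1 / (2 * σ)) := by ring
      rw [this]
      linarith
    have e7 : (∫ x, F x ∂rho) / (4 * σ) ≤ ∫ x, F x * ζ x ∂rho := by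
      have hc1 : Continuous fun x => r x * F x := hr.mul hF
      have hc2 : Continuous fun x => F x * (1 / (4 * σ)) := by fun_prop
      have e8 : ∫ x, (r x * F x + F x * (1 / (4 * σ))) ∂rho ≤ ∫ x, F x * ζ x ∂rho := by
        refine integral_mono (integrable_of_continuous (hc1.add hc2) _)
          (integrable_of_continuous hFζc _) fun x => ?_
        simp only [hζ]
        have : 0 ≤ F x * (σ * u x) := mul_nonneg (hF0 x) (mul_nonneg hσ.le (hu0 x))
        linarith
      rw [integral_add (integrable_of_continuous hc1 _) (integrable_of_continuous hc2 _), hrF,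
        integral_mul_const] at e8
      have : (∫ x, F x ∂rho) / (4 * σ) = (∫ x, F x ∂rho) * (1 / (4 * σ)) := by ring
      rw [this]
      linarith
    linarith
  · -- h4
    have hc1 : Continuous fun x => A x * F x * u x := (hA.mul hF).mul hu
    have e1 : ∫ x, A x * F x * u x ∂γ ≤ ∫ x, K * (A x * u x) ∂γ := by
      refine integral_mono (integrable_of_continuous hc1 _)
        (integrable_of_continuous (hAuc.const_mul _) _) fun x => ?_
      simp only
      have h1 := mul_le_mul_of_nonneg_right (hFK x) (mul_nonneg (hA0 x) (hu0 x))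
      linarith
    rw [integral_const_mul] at e1
    exact e1.trans (mul_le_mul_of_nonneg_left hAu hK)
  · -- hT
    have hc1 : Continuous fun x => A x * F x * u x := (hA.mul hF).mul hu
    have hc2 : Continuous fun x => A x * F x := hA.mul hF
    have hc3 : Continuous fun x => A x * F x * ζ x - σ * (A x * F x * u x) :=
      hAFζc.sub (hc1.const_mul _)
    have e1 : ∫ x, A x * F x * ζ x ∂γ - σ * ∫ x, A x * F x * u x ∂γ -
        (∫ x, A x * F x ∂γ) / (4 * σ) = ∫ x, ((A x * F x * ζ x - σ * (A x * F x * u x)) -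
          (A x * F x) / (4 * σ)) ∂γ := by
      rw [integral_sub (integrable_of_continuous hc3 _)
        (integrable_of_continuous (hc2.div_const _) _),
        integral_sub (integrable_of_continuous hAFζc _)
        (integrable_of_continuous (hc1.const_mul _) _), integral_const_mul, integral_div]
    rw [e1]
    refine integral_congr_ae (Eventually.of_forall fun x => ?_)
    simp only [hζ]
    ring

end Pool.Agent.E96
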