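import Pool.Agent.E96.Robust

/-!
# L^p extremal polynomials: transfer to an interval of the line
-/

open MeasureTheory Polynomial Set Filter Topology
open scoped Real ENNReal Polynomial ComplexConjugate

namespace Pool.Agent.E96

/-- `∫ |P|^p dα` -/
noncomputable def J (α : Measure ℝ) (p : ℝ) (P : ℝ[X]) : ℝ := ∫ x, |P.eval x| ^ p ∂α

/-- the infimum of `∫ |P|^p dα` over monic `P` of degree `n` -/
noncomputable def JJ (α : Measure ℝ) (p : ℝ) (n : ℕ) : ℝ :=
  sInf {r | ∃ P : ℝ[X], P.Monic ∧ P.natDegree = n ∧ r = J α p P}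

lemma J_nonneg (α : Measure ℝ) (p : ℝ) (P : ℝ[X]) : 0 ≤ J α p P :=
  integral_nonneg fun _ => Real.rpow_nonneg (abs_nonneg _) _

lemma JJ_le {α : Measure ℝ} {p : ℝ} {n : ℕ} {P : ℝ[X]} (hP : P.Monic) (hPn : P.natDegree = n) :
    JJ α p n ≤ J α p P := by
  refine csInf_le ⟨0, ?_⟩ ⟨P, hP, hPn, rfl⟩
  rintro r ⟨Q, _, _, rfl⟩
  exact J_nonneg α p Q

lemma le_JJ {α : Measure ℝ} {p : ℝ} {n : ℕ} {a : ℝ}
    (h : ∀ P : ℝ[X], P.Monic → P.natDegree = n → a ≤ J α p P) : a ≤ JJ α p n := by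
  refine le_csInf ⟨_, X ^ n, monic_X_pow n, natDegree_X_pow n, rfl⟩ ?_
  rintro r ⟨Q, hQ, hQn, rfl⟩
  exact h Q hQ hQn

lemma JJ_nonneg (α : Measure ℝ) (p : ℝ) (n : ℕ) : 0 ≤ JJ α p n :=
  le_JJ fun P _ _ => J_nonneg α p P

/-- affine map of `[c-h, c+h]` onto `[-1,1]` -/
noncomputable def toI (c h : ℝ) (x : ℝ) : I := Set.projIcc (-1) 1 (by norm_num) ((x - c) / h)

lemma continuous_toI (c h : ℝ) : Continuous (toI c h) :=
  continuous_projIcc.comp (by fun_prop)

lemma toI_coe {c h x : ℝ} (hh : 0 < h) (hx : x ∈ Icc (c - h) (c + h)) :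
    (toI c h x : ℝ) = (x - c) / h := by
  have h1 : (x - c) / h ∈ Icc (-1 : ℝ) 1 := by
    constructor
    · rw [le_div_iff₀ hh]
      have := hx.1
      linarith
    · rw [div_le_iff₀ hh]
      have := hx.2
      linarith
  rw [toI, projIcc_of_mem _ h1]

/-- rescaled polynomial -/
noncomputable def resc (s t : ℝ) (n : ℕ) (P : ℝ[X]) : ℝ[X] := C ((s ^ n)⁻¹) * P.comp (C s * X + C t)

lemma eval_resc (s t : ℝ) (n : ℕ) (P : ℝ[X]) (x : ℝ) :
    (resc s t n P).eval x = (s ^ n)⁻¹ * P.eval (s * x + t) := by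
  simp [resc, eval_comp]

lemma resc_monic {s t : ℝ} (hs : s ≠ 0) {n : ℕ} {P : ℝ[X]} (hP : P.Monic) (hPn : P.natDegree = n) :
    (resc s t n P).Monic ∧ (resc s t n P).natDegree = n := by
  have h1 : (C s * X + C t : ℝ[X]).natDegree = 1 := natDegree_linear hs
  have h2 : (C s * X + C t : ℝ[X]).leadingCoeff = s := leadingCoeff_linear hs
  have h3 : (P.comp (C s * X + C t)).natDegree = n := by
    rw [natDegree_comp, h1, hPn, mul_one]
  have h4 : (P.comp (C s * X + C t)).leadingCoeff = s ^ n := by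
    rw [leadingCoeff_comp (by rw [h1]; exact one_ne_zero), hP.leadingCoeff, h2, hPn, one_mul]
  have h5 : (s ^ n)⁻¹ ≠ 0 := inv_ne_zero (pow_ne_zero n hs)
  refine ⟨?_, ?_⟩
  · rw [Monic, resc, leadingCoeff_mul, leadingCoeff_C, h4]
    exact inv_mul_cancel₀ (pow_ne_zero n hs)
  · rw [resc, natDegree_C_mul h5, h3]

lemma abs_rpow_eq (y p : ℝ) : (y ^ 2) ^ (p / 2) = |y| ^ p := by
  rw [← sq_abs, ← Real.rpow_natCast, ← Real.rpow_mul (abs_nonneg y)]
  congr 1
  push_cast
  ring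

section affine

variable {α : Measure ℝ} {c h : ℝ}

lemma J_eq_LL {p : ℝ} (hh : 0 < h) (hα : α (Icc (c - h) (c + h))ᶜ = 0)
    (n : ℕ) (P : ℝ[X]) (hp : 0 < p) :
    J α p P = ((h / 2) ^ n) ^ p * LL (α.map (toI c h)) 1 (p / 2) n (resc h c n P) := by
  have hc : Continuous fun x : I =>
      ((2 ^ n * (resc h c n P).eval (x : ℝ)) ^ 2 / (1 : ℝ[X]).eval (x : ℝ)) ^ (p / 2) := by
    simp only [eval_one, div_one]
    exact Continuous.rpow_const (by fun_prop) fun _ => Or.inr (by positivity)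
  rw [J, LL, integral_map (continuous_toI c h).aemeasurable hc.aestronglyMeasurable,
    ← integral_const_mul]
  have hae : ∀ᵐ x ∂α, x ∈ Icc (c - h) (c + h) := hα
  refine integral_congr_ae ?_
  filter_upwards [hae] with x hx
  rw [toI_coe hh hx, eval_resc, eval_one, div_one, abs_rpow_eq]
  have h1 : h * ((x - c) / h) + c = x := by field_simp; ring
  rw [h1]
  have h2 : 0 ≤ (h / 2) ^ n := by positivity
  rw [← abs_of_nonneg h2, ← Real.mul_rpow (abs_nonneg _) (abs_nonneg _), ← abs_mul]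
  congr 2
  rw [div_pow]
  field_simp

lemma JJ_eq_DD {p : ℝ} (hh : 0 < h) (hα : α (Icc (c - h) (c + h))ᶜ = 0) (hp : 0 < p) (n : ℕ) :
    JJ α p n = ((h / 2) ^ n) ^ p * DD (α.map (toI c h)) 1 (p / 2) n := by
  have hθ : 0 < ((h / 2) ^ n) ^ p := by positivity
  have hg : ∀ x : I, 0 < (1 : ℝ[X]).eval (x : ℝ) := fun x => by simp
  refine le_antisymm ?_ ?_
  · rw [← div_le_iff₀' hθ]
    refine le_DD fun Q hQ hQn => ?_
    rw [div_le_iff₀' hθ]
    obtain ⟨h1, h2⟩ := resc_monic (s := h⁻¹) (t := -c * h⁻¹) (inv_ne_zero hh.ne') hQ hQn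
    refine (JJ_le h1 h2).trans (le_of_eq ?_)
    rw [J_eq_LL hh hα n _ hp]
    congr 1
    rw [LL, LL]
    refine integral_congr_ae (Eventually.of_forall fun x => ?_)
    simp only [eval_resc]
    have h3 : h⁻¹ * (h * (x : ℝ) + c) + -c * h⁻¹ = x := by field_simp; ring
    rw [h3]
    congr 3
    rw [inv_pow, inv_inv]
    have : h ^ n ≠ 0 := pow_ne_zero _ hh.ne'
    field_simp
  · refine le_JJ fun P hP hPn => ?_
    rw [J_eq_LL hh hα n P hp]
    obtain ⟨h1, h2⟩ := resc_monic (s := h) (t := c) hh.ne' hP hPn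
    exact mul_le_mul_of_nonneg_left (DD_le hg h1 h2) hθ.le

end affine

/-- null sets of the line are null for the arcsine law -/
lemma rho_null {N : Set ℝ} (hN : volume N = 0) : rho {y : I | (y : ℝ) ∈ N} = 0 := by
  set N' := toMeasurable volume N with hN'
  have hN'0 : volume N' = 0 := by rw [hN', measure_toMeasurable, hN]
  have hN'm : MeasurableSet N' := measurableSet_toMeasurable _ _
  have hsub : {y : I | (y : ℝ) ∈ N} ⊆ {y : I | (y : ℝ) ∈ N'} := fun y hy =>
    subset_toMeasurable _ _ hy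
  refine measure_mono_null hsub ?_
  have hm : MeasurableSet {y : I | (y : ℝ) ∈ N'} := measurable_subtype_coe hN'm
  rw [rho, Measure.smul_apply, Measure.map_apply continuous_cosI.measurable hm,
    Measure.restrict_apply (continuous_cosI.measurable hm)]
  have h1 : cosI ⁻¹' {y : I | (y : ℝ) ∈ N'} ∩ Ioo 0 π ⊆ Real.arccos '' (N' ∩ Ioo (-1) 1) := by
    rintro φ ⟨hφ, hφ'⟩
    refine ⟨Real.cos φ, ⟨hφ, ?_, ?_⟩, Real.arccos_cos hφ'.1.le hφ'.2.le⟩
    · rw [← Real.cos_pi]
      exact Real.cos_lt_cos_of_nonneg_of_le_pi hφ'.1.le le_rfl hφ'.2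
    · rw [← Real.cos_zero]
      exact Real.cos_lt_cos_of_nonneg_of_le_pi le_rfl hφ'.2.le hφ'.1
  have h2 : volume (Real.arccos '' (N' ∩ Ioo (-1) 1)) = 0 := by
    refine addHaar_image_eq_zero_of_differentiableOn_of_addHaar_eq_zero _ ?_
      (measure_mono_null inter_subset_left hN'0)
    intro x hx
    refine DifferentiableAt.differentiableWithinAt ?_
    exact Real.differentiableAt_arccos.2 ⟨hx.2.1.ne', hx.2.2.ne⟩
  rw [measure_mono_null h1 h2, smul_zero]

/-- the arcsine law has small mass near the endpoints -/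
lemma rho_ends {ε0 : ℝ} (hε0 : 0 < ε0) :
    ∃ s : ℝ, 0 < s ∧ s < 1 ∧ rho.real {y : I | s ≤ |(y : ℝ)|} ≤ ε0 := by
  set S : ℕ → Set I := fun n => {y : I | 1 - 1 / ((n : ℝ) + 2) ≤ |(y : ℝ)|} with hS
  have hSm : ∀ n, MeasurableSet (S n) := fun n =>
    measurableSet_le measurable_const (by fun_prop)
  have hanti : Antitone S := by
    intro m n hmn y hy
    simp only [hS, Set.mem_ofPred_eq] at hy ⊢
    refine le_trans ?_ hy
    have h1 : (m : ℝ) ≤ n := by exact_mod_cast hmn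
    have h2 : 1 / ((n : ℝ) + 2) ≤ 1 / ((m : ℝ) + 2) :=
      one_div_le_one_div_of_le (by positivity) (by linarith)
    linarith
  have h1 : Tendsto (fun n => rho (S n)) atTop (𝓝 (rho (⋂ n, S n))) :=
    tendsto_measure_iInter_atTop (fun n => (hSm n).nullMeasurableSet) hanti
      ⟨0, measure_ne_top _ _⟩
  have h2 : rho (⋂ n, S n) = 0 := by
    refine rho_finite_zero ?_
    refine (Set.Finite.subset (Set.toFinite ({⟨-1, by norm_num, by norm_num⟩,
      ⟨1, by norm_num, by norm_num⟩} : Set I)) ?_)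
    intro y hy
    have h3 : ∀ n : ℕ, 1 - 1 / ((n : ℝ) + 2) ≤ |(y : ℝ)| := fun n => mem_iInter.1 hy n
    have h4 : 1 ≤ |(y : ℝ)| := by
      have h5 : Tendsto (fun n : ℕ => 1 - 1 / ((n : ℝ) + 2)) atTop (𝓝 (1 - 0)) := by
        refine Tendsto.const_sub 1 ?_
        have := tendsto_one_div_add_atTop_nhds_zero_nat (𝕜 := ℝ)
        have h6 := (tendsto_add_atTop_iff_nat 1).2 this
        refine h6.congr fun n => ?_
        push_cast
        ring
      rw [sub_zero] at h5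
      exact le_of_tendsto h5 (Eventually.of_forall h3)
    have h6 := y.2.1
    have h7 := y.2.2
    rcases le_total 0 (y : ℝ) with h | h
    · rw [abs_of_nonneg h] at h4
      right
      rw [mem_singleton_iff, Subtype.ext_iff]
      exact le_antisymm h7 h4
    · rw [abs_of_nonpos h] at h4
      left
      rw [Subtype.ext_iff]
      exact le_antisymm (by simpa using (by linarith : (y : ℝ) ≤ -1)) h6
  rw [h2] at h1
  have h3 := h1.eventually_lt_const (show (0 : ℝ≥0∞) < ENNReal.ofReal ε0 by simpa using hε0)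
  obtain ⟨n, hn⟩ := h3.exists
  refine ⟨1 - 1 / ((n : ℝ) + 2), ?_, ?_, ?_⟩
  · have : 1 / ((n : ℝ) + 2) < 1 := by
      rw [div_lt_one (by positivity)]
      have : (0 : ℝ) ≤ n := by positivity
      linarith
    linarith
  · have : 0 < 1 / ((n : ℝ) + 2) := by positivity
    linarith
  · rw [measureReal_def]
    exact ENNReal.toReal_le_of_le_ofReal hε0.le hn.le

end Pool.Agent.E96
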