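import Pool.Agent.E96.Struct

/-!
# L^p extremal polynomials, 0 < p < 2: ratio estimate
-/

open MeasureTheory Polynomial Set Filter Topology
open scoped Real ENNReal Polynomial ComplexConjugate

namespace Pool.Agent.E96

/-- `∫ |1 + z|^{2q} dm` -/
noncomputable def cp (q : ℝ) : ℝ := ∫ x : I, (2 + 2 * (x : ℝ)) ^ q ∂rho

lemma two_add_nonneg (x : I) : 0 ≤ 2 + 2 * (x : ℝ) := by
  have := x.2.1
  linarith

lemma cp_pos {q : ℝ} (hq : 0 < q) : 0 < cp q := by
  have hc : Continuous fun x : I => (2 + 2 * (x : ℝ)) ^ q :=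
    Continuous.rpow_const (by fun_prop) fun _ => Or.inr hq.le
  have h0 : ∀ x : I, 0 ≤ (2 + 2 * (x : ℝ)) ^ q := fun x => Real.rpow_nonneg (two_add_nonneg x) q
  rw [cp, integral_pos_iff_support_of_nonneg h0 (integrable_of_continuous hc _)]
  have hs : (Function.support fun x : I => (2 + 2 * (x : ℝ)) ^ q) =
      {(⟨-1, by norm_num, by norm_num⟩ : I)}ᶜ := by
    ext x
    rw [Function.mem_support, Ne, Real.rpow_eq_zero (two_add_nonneg x) hq.ne', mem_compl_iff,
      mem_singleton_iff, Subtype.ext_iff]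
    constructor
    · intro h h'
      apply h
      rw [h']
      norm_num
    · intro h h'
      apply h
      linarith
  rw [hs, measure_compl (measurableSet_singleton _) (measure_ne_top _ _),
    rho_finite_zero (finite_singleton _)]
  simp

lemma rpow_two_add_le {q y : ℝ} (hq : 0 < q) (hy : y ∈ Icc (-1 : ℝ) 1) : (2 + 2 * y) ^ q ≤ 4 ^ q := by
  refine Real.rpow_le_rpow (by have := hy.1; linarith) (by have := hy.2; linarith) hq.le

lemma continuous_rpow_two_add {q : ℝ} (hq : 0 < q) : Continuous fun y : ℝ => (2 + 2 * y) ^ q :=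
  Continuous.rpow_const (by fun_prop) fun _ => Or.inr hq.le

/-- upper bound for the infimum through a competitor -/
lemma DD_le_of_comp {γ : Measure I} [IsFiniteMeasure γ] {G : Set I} {ε : ℝ} (hnear : Near γ G ε)
    (hε0 : 0 ≤ ε)
    {g : ℝ[X]} (hg : ∀ x : I, 0 < g.eval (x : ℝ)) {q : ℝ} (hq : 0 < q) {t : ℝ[X]} (ht : ZF t)
    {η L : ℝ} (hη : 0 < η) (hη1 : η < 1)
    (hL : ∫ x in G, (1 - vv g t x) * ((vv g t x) ^ (-q) - 1) ∂rho ≤ L)
    {n' N' : ℕ} (hn' : 1 ≤ n') (hN' : N' + 1 = 2 * n') {t' : ℝ[X]} (ht' : ZF t')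
    (hd' : t'.natDegree ≤ N') (h0' : t'.coeff 0 = 1) {R : ℝ} (hR0 : 0 ≤ R)
    (hR : ∀ x, sq t' x ≤ R * sq t x) :
    DD γ g q n' ≤ R ^ q * ((lam g t) ^ q * ((1 + ε) * ((1 - η) ^ (-q) * cp q + 4 ^ q * L / η) +
      4 ^ q * ∫ x in Gᶜ, (vv g t x) ^ (-q) ∂γ)) := by
  have hlam := lam_pos hg ht
  have hvp := vv_pos hg ht
  have hvc := continuous_vv hg ht
  have hyc := continuous_yy N' ht'
  have hvqc : Continuous fun x => (vv g t x) ^ (-q) := hvc.rpow_const fun x => Or.inl (hvp x).ne'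
  set f : I → ℝ := fun x => (2 + 2 * yy N' t' x) ^ q with hf
  have hfc : Continuous f := (continuous_rpow_two_add hq).comp hyc
  have hy0 : ∀ x, 0 ≤ 2 + 2 * yy N' t' x := fun x => by have := (yy_mem (N := N') ht' x).1; linarith
  have hf0 : ∀ x, 0 ≤ f x := fun x => Real.rpow_nonneg (hy0 x) q
  have hf4 : ∀ x, f x ≤ 4 ^ q := fun x => rpow_two_add_le hq (yy_mem ht' x)
  have h4q : (0 : ℝ) ≤ 4 ^ q := by positivity
  have hfint : ∫ x, f x ∂rho = cp q :=
    integral_cont_yy_one ht' hd' (fun y => (2 + 2 * y) ^ q) (continuous_rpow_two_add hq)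
  refine (DD_le hg (fold_monic hn' h0') (fold_natDegree hn' h0')).trans ?_
  have hpt : ∀ x : I, ((2 ^ n' * (fold n' t').eval (x : ℝ)) ^ 2 / g.eval (x : ℝ)) ^ q ≤
      R ^ q * (lam g t) ^ q * ((vv g t x) ^ (-q) * f x) := by
    intro x
    rw [fold_sq hN' hd' ht']
    have h1 : sq t' x * (2 + 2 * yy N' t' x) / g.eval (x : ℝ) ≤
        R * (lam g t) * ((vv g t x)⁻¹ * (2 + 2 * yy N' t' x)) := by
      have h2 := sq_div_g hg ht x
      have h3 : R * (lam g t) * ((vv g t x)⁻¹ * (2 + 2 * yy N' t' x)) =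
          R * (sq t x / g.eval (x : ℝ)) * (2 + 2 * yy N' t' x) := by
        rw [h2]; ring
      rw [h3]
      have h4 : R * (sq t x / g.eval (x : ℝ)) * (2 + 2 * yy N' t' x) =
          R * sq t x * (2 + 2 * yy N' t' x) / g.eval (x : ℝ) := by ring
      rw [h4]
      exact div_le_div_of_nonneg_right (mul_le_mul_of_nonneg_right (hR x) (hy0 x)) (hg x).le
    refine (Real.rpow_le_rpow (div_nonneg (mul_nonneg (sq_nonneg' _ _) (hy0 x)) (hg x).le) h1
      hq.le).trans (le_of_eq ?_)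
    rw [Real.mul_rpow (by positivity) (mul_nonneg (inv_nonneg.2 (hvp x).le) (hy0 x)),
      Real.mul_rpow hR0 hlam.le, Real.mul_rpow (inv_nonneg.2 (hvp x).le) (hy0 x),
      Real.inv_rpow (hvp x).le, ← Real.rpow_neg (hvp x).le]
  have hLLc : Continuous fun x : I => ((2 ^ n' * (fold n' t').eval (x : ℝ)) ^ 2 / g.eval (x : ℝ)) ^ q :=
    (Continuous.div (by fun_prop) (by fun_prop) fun x => (hg x).ne').rpow_const fun _ => Or.inr hq.le
  have h1 : LL γ g q n' (fold n' t') ≤ R ^ q * (lam g t) ^ q * ∫ x, (vv g t x) ^ (-q) * f x ∂γ := by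
    rw [LL, ← integral_const_mul]
    exact integral_mono (integrable_of_continuous hLLc _)
      (integrable_of_continuous ((hvqc.mul hfc).const_mul _) _) hpt
  refine h1.trans ?_
  rw [mul_assoc]
  have hRq : 0 ≤ R ^ q := Real.rpow_nonneg hR0 q
  refine mul_le_mul_of_nonneg_left ?_ hRq
  refine mul_le_mul_of_nonneg_left ?_ (Real.rpow_nonneg hlam.le q)
  have hvf0 : ∀ x, 0 ≤ (vv g t x) ^ (-q) * f x := fun x =>
    mul_nonneg (Real.rpow_nonneg (hvp x).le _) (hf0 x)
  have hvfc : Continuous fun x => (vv g t x) ^ (-q) * f x := hvqc.mul hfc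
  rw [split (μ := γ) hnear.meas hvfc]
  refine add_le_add ?_ ?_
  · have h2 := hnear.up _ (hvqc.mul hfc) hvf0
    have h3 := Near.integral_G_le (G := G) hq hvc hvp hη hη1 hL hfc hf0 hf4 h4q
    rw [hfint] at h3
    refine h2.trans ?_
    exact mul_le_mul_of_nonneg_left h3 (by linarith)
  · rw [← integral_const_mul]
    refine set_mono (hvqc.mul hfc) (hvqc.const_mul _) fun x => ?_
    rw [mul_comm]
    exact mul_le_mul_of_nonneg_right (hf4 x) (Real.rpow_nonneg (hvp x).le _)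

/-- double reduction -/
lemma double_red {N : ℕ} {g t : ℝ[X]} (hg : ∀ x : I, 0 < g.eval (x : ℝ)) (ht : ZF t)
    (hd : t.natDegree ≤ N + 2) (h0 : t.coeff 0 = 1) (hgN : g.natDegree < N + 1)
    {m : ℝ} (hm : ∫ x, |1 - vv g t x| ∂rho ≤ m) (hm1 : 4 * m < 1) :
    ∃ t' : ℝ[X], ZF t' ∧ t'.natDegree ≤ N ∧ t'.coeff 0 = 1 ∧
      ∀ x, sq t' x ≤ (((1 - m) * (1 - 4 * m))⁻¹) ^ 2 * sq t x := by
  have hlam := lam_pos hg ht
  have hvp := vv_pos hg ht
  have hvc := continuous_vv hg ht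
  have hm0 : 0 ≤ m := le_trans (integral_nonneg fun x => abs_nonneg _) hm
  set g' : ℝ[X] := C (lam g t) * g with hg'
  have hg'N : g'.natDegree < N + 1 := lt_of_le_of_lt (natDegree_C_mul_le _ _) hgN
  have hv' : ∀ x : I, g'.eval (x : ℝ) / sq t x = vv g t x := by
    intro x
    rw [hg', eval_mul, eval_C, vv, mul_div_assoc]
  have hc : |t.coeff (N + 2)| ≤ m := by
    have h1 := abs_coeff_le (N := N + 2) ht hd h0 (g := g') (by omega)
    simp only [hv'] at h1
    exact h1.trans hm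
  set c := t.coeff (N + 2) with hcd
  have hc1 : |c| < 1 := by linarith
  set t1 := red (N + 2) t with ht1
  have hz1 : ZF t1 := ht.red hd hc1
  have hd1 : t1.natDegree ≤ N + 1 := natDegree_red_le hd h0
  have h01 : t1.coeff 0 = 1 := red_coeff_zero h0 hc1
  have hle1 := norm_red_le hd hc1
  have hge1 := norm_red_ge hd hc1
  have hcc : |t1.coeff (N + 1)| ≤ 4 * m := by
    have h1 := abs_coeff_le (N := N + 1) hz1 hd1 h01 (g := g') hg'N
    refine h1.trans ?_
    have hcont1 : Continuous fun x : I => |1 - g'.eval (x : ℝ) / sq t1 x| :=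
      (continuous_const.sub (Continuous.div (by fun_prop) (continuous_sq t1)
        fun x => (hz1.sq_pos x).ne')).abs
    have h2 : ∫ x, |1 - g'.eval (x : ℝ) / sq t1 x| ∂rho ≤
        ∫ x, (|1 - vv g t x| + 3 * m * vv g t x) ∂rho := by
      refine integral_mono (integrable_of_continuous hcont1 _)
        (integrable_of_continuous (by fun_prop) _) fun x => ?_
      have hs := ht.sq_pos x
      have hs1 := hz1.sq_pos x
      set r := sq t x / sq t1 x with hr
      have h3 : g'.eval (x : ℝ) / sq t1 x = vv g t x * r := by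
        rw [← hv', hr]
        field_simp
      have hca : 0 ≤ |c| := abs_nonneg c
      have hr1 : r ≤ (1 + |c|) ^ 2 := by
        rw [hr, div_le_iff₀ hs1]
        have h4 := hge1 x
        have h5 : 0 < 1 + |c| := by linarith
        have h6 : sq t x = (1 + |c|) ^ 2 * (((1 + |c|)⁻¹) ^ 2 * sq t x) := by
          field_simp
        rw [h6]
        exact mul_le_mul_of_nonneg_left h4 (by positivity)
      have hr2 : (1 - |c|) ^ 2 ≤ r := by
        rw [hr, le_div_iff₀ hs1]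
        have h4 := hle1 x
        have h5 : 0 < 1 - |c| := by linarith
        have h6 : sq t x = (1 - |c|) ^ 2 * (((1 - |c|)⁻¹) ^ 2 * sq t x) := by
          field_simp
        rw [h6]
        exact mul_le_mul_of_nonneg_left h4 (by positivity)
      have hr3 : |1 - r| ≤ 3 * |c| := by
        rw [abs_le]
        constructor
        · nlinarith
        · nlinarith
      have h7 : 1 - vv g t x * r = (1 - vv g t x) + vv g t x * (1 - r) := by ring
      rw [h3, h7]
      refine (abs_add_le _ _).trans ?_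
      rw [abs_mul, abs_of_pos (hvp x)]
      have h8 : vv g t x * |1 - r| ≤ vv g t x * (3 * m) :=
        mul_le_mul_of_nonneg_left (by linarith) (hvp x).le
      linarith
    rw [integral_add (integrable_of_continuous (by fun_prop) _)
      (integrable_of_continuous (by fun_prop) _), integral_const_mul, integral_vv hg ht] at h2
    linarith
  have hcc1 : |t1.coeff (N + 1)| < 1 := by linarith
  refine ⟨red (N + 1) t1, hz1.red hd1 hcc1, natDegree_red_le hd1 h01, red_coeff_zero h01 hcc1,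
    fun x => ?_⟩
  have h1 := norm_red_le hd1 hcc1 x
  have h2 := hle1 x
  have hs := (ht.sq_pos x).le
  have hs1 := (hz1.sq_pos x).le
  have e1 : ((1 - |t1.coeff (N + 1)|)⁻¹) ^ 2 ≤ ((1 - 4 * m)⁻¹) ^ 2 := by
    refine pow_le_pow_left₀ (inv_nonneg.2 (by linarith)) ?_ 2
    exact inv_anti₀ (by linarith) (by linarith)
  have e2 : ((1 - |c|)⁻¹) ^ 2 ≤ ((1 - m)⁻¹) ^ 2 := by
    refine pow_le_pow_left₀ (inv_nonneg.2 (by linarith)) ?_ 2
    exact inv_anti₀ (by linarith) (by linarith)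
  calc sq (red (N + 1) t1) x ≤ ((1 - |t1.coeff (N + 1)|)⁻¹) ^ 2 * sq t1 x := h1
    _ ≤ ((1 - 4 * m)⁻¹) ^ 2 * sq t1 x := mul_le_mul_of_nonneg_right e1 hs1
    _ ≤ ((1 - 4 * m)⁻¹) ^ 2 * (((1 - |c|)⁻¹) ^ 2 * sq t x) :=
        mul_le_mul_of_nonneg_left h2 (by positivity)
    _ ≤ ((1 - 4 * m)⁻¹) ^ 2 * (((1 - m)⁻¹) ^ 2 * sq t x) :=
        mul_le_mul_of_nonneg_left (mul_le_mul_of_nonneg_right e2 hs) (by positivity)
    _ = (((1 - m) * (1 - 4 * m))⁻¹) ^ 2 * sq t x := by
        rw [mul_inv]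
        ring

/-- lower bound -/
lemma LL_lower {γ : Measure I} [IsFiniteMeasure γ] {G : Set I} {ε : ℝ} (hnear : Near γ G ε)
    (hε1 : ε ≤ 1)
    {g : ℝ[X]} (hg : ∀ x : I, 0 < g.eval (x : ℝ)) {q : ℝ} (hq : 0 < q) {t : ℝ[X]} (ht : ZF t)
    {N : ℕ} (hN : t.natDegree ≤ N) (hgN : g.natDegree ≤ N) :
    (1 - ε) * (lam g t) ^ q * (cp q - (1 + q) * 4 ^ q * ε) ≤
      ∫ x, (lam g t / vv g t x * (2 + 2 * yy N t x)) ^ q ∂γ := by
  have hlam := lam_pos hg ht
  have hvp := vv_pos hg ht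
  have hvc := continuous_vv hg ht
  have hyc := continuous_yy N ht
  have hvqc : Continuous fun x => (vv g t x) ^ (-q) := hvc.rpow_const fun x => Or.inl (hvp x).ne'
  set f : I → ℝ := fun x => (2 + 2 * yy N t x) ^ q with hf
  have hfc : Continuous f := (continuous_rpow_two_add hq).comp hyc
  have hy0 : ∀ x, 0 ≤ 2 + 2 * yy N t x := fun x => by have := (yy_mem (N := N) ht x).1; linarith
  have hf0 : ∀ x, 0 ≤ f x := fun x => Real.rpow_nonneg (hy0 x) q
  have hf4 : ∀ x, f x ≤ 4 ^ q := fun x => rpow_two_add_le hq (yy_mem ht x)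
  have h4q : (0 : ℝ) ≤ 4 ^ q := by positivity
  have hfint : ∫ x, f x ∂rho = cp q :=
    integral_cont_yy_one ht hN (fun y => (2 + 2 * y) ^ q) (continuous_rpow_two_add hq)
  have hvf : ∫ x, vv g t x * f x ∂rho = ∫ x, f x ∂rho :=
    heart_eq hg ht hN hgN (fun y => (2 + 2 * y) ^ q) (continuous_rpow_two_add hq)
  have h1 := hnear.integral_G_ge hq hvc hvp hfc hf0 hf4 h4q hvf
  rw [hfint] at h1
  have hvf0 : ∀ x, 0 ≤ (vv g t x) ^ (-q) * f x := fun x =>
    mul_nonneg (Real.rpow_nonneg (hvp x).le _) (hf0 x)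
  have h2 := hnear.low _ (hvqc.mul hfc) hvf0
  have h3 : ∀ x, (lam g t / vv g t x * (2 + 2 * yy N t x)) ^ q =
      (lam g t) ^ q * ((vv g t x) ^ (-q) * f x) := by
    intro x
    rw [div_eq_mul_inv, mul_assoc, Real.mul_rpow hlam.le (mul_nonneg (inv_nonneg.2 (hvp x).le) (hy0 x)),
      Real.mul_rpow (inv_nonneg.2 (hvp x).le) (hy0 x), Real.inv_rpow (hvp x).le,
      ← Real.rpow_neg (hvp x).le]
  simp only [h3]
  rw [integral_const_mul]
  have h4 : ∫ x in G, (vv g t x) ^ (-q) * f x ∂γ ≤ ∫ x, (vv g t x) ^ (-q) * f x ∂γ :=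
    set_le_full (hvqc.mul hfc) hvf0
  have h5 : 0 < (lam g t) ^ q := Real.rpow_pos_of_pos hlam q
  have h6 : (1 - ε) * (cp q - (1 + q) * 4 ^ q * ε) ≤ ∫ x, (vv g t x) ^ (-q) * f x ∂γ := by
    refine le_trans ?_ (h2.trans h4)
    refine mul_le_mul_of_nonneg_left ?_ (by linarith)
    refine le_trans (le_of_eq ?_) h1
    ring
  calc (1 - ε) * (lam g t) ^ q * (cp q - (1 + q) * 4 ^ q * ε) =
      (lam g t) ^ q * ((1 - ε) * (cp q - (1 + q) * 4 ^ q * ε)) := by ring
    _ ≤ _ := mul_le_mul_of_nonneg_left h6 h5.le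

end Pool.Agent.E96
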