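import Pool.Agent.E96.LtTwoStep

/-!
# L^p extremal polynomials: limit form of the step, 0 < p < 2
-/

open MeasureTheory Polynomial Set Filter Topology
open scoped Real ENNReal Polynomial ComplexConjugate

namespace Pool.Agent.E96

lemma Near.mono {γ : Measure I} [IsFiniteMeasure γ] {G : Set I} {ε ε' : ℝ} (h : Near γ G ε)
    (hε : ε ≤ ε') : Near γ G ε' := by
  refine ⟨h.meas, fun F hF h0 => ?_, fun F hF h0 => ?_, h.outg.trans hε, h.outr.trans hε⟩
  · refine le_trans ?_ (h.low F hF h0)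
    exact mul_le_mul_of_nonneg_right (by linarith) (set_nonneg h0)
  · refine (h.up F hF h0).trans ?_
    exact mul_le_mul_of_nonneg_right (by linarith) (set_nonneg h0)

lemma DD_pos {γ : Measure I} [IsFiniteMeasure γ] (hγ : ND γ) {g : ℝ[X]}
    (hg : ∀ x : I, 0 < g.eval (x : ℝ)) {q : ℝ} (hq : 0 < q) (n : ℕ) : 0 < DD γ g q n := by
  have hgc : Continuous fun x : I => g.eval (x : ℝ) := by fun_prop
  obtain ⟨Gm, hGm⟩ : ∃ Gm : ℝ, ∀ x : I, g.eval (x : ℝ) ≤ Gm := by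
    obtain ⟨x₀, -, hx₀⟩ := isCompact_univ.exists_isMaxOn (s := (univ : Set I))
      ⟨⟨0, by norm_num, by norm_num⟩, mem_univ _⟩
      hgc.continuousOn
    exact ⟨_, fun x => hx₀ (mem_univ x)⟩
  have hGm0 : 0 < Gm := lt_of_lt_of_le (hg ⟨0, by norm_num, by norm_num⟩) (hGm _)
  obtain ⟨c, hc, hcb⟩ := coercive_line hγ (p := 2 * q) (by positivity) (n + 1)
  have h2q : 2 * q / 2 = q := by ring
  rw [h2q] at hcb
  refine lt_of_lt_of_le (b := ((2 ^ n) ^ 2 / Gm) ^ q * c) (by positivity) (le_DD fun P hP hPn => ?_)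
  have h1 : pl (n + 1) (fun i => P.coeff i) = P := pl_coeff (by omega)
  have h2 := hcb (fun i => P.coeff i)
  rw [h1] at h2
  have h3 : 1 ≤ ‖fun i : Fin (n + 1) => P.coeff i‖ := by
    have h4 := norm_le_pi_norm (fun i : Fin (n + 1) => P.coeff i) (Fin.last n)
    have h5 : P.coeff n = 1 := by
      rw [← hPn]; exact hP
    simpa [h5] using h4
  have h4 : 1 ≤ ‖fun i : Fin (n + 1) => P.coeff i‖ ^ (2 * q) := Real.one_le_rpow h3 (by positivity)
  have h5 : c ≤ ∫ x : I, ((P.eval (x : ℝ)) ^ 2) ^ q ∂γ := by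
    refine le_trans ?_ h2
    nlinarith
  have hc1 : Continuous fun x : I => ((P.eval (x : ℝ)) ^ 2) ^ q :=
    Continuous.rpow_const (by fun_prop) fun _ => Or.inr hq.le
  have hc2 : Continuous fun x : I => ((2 ^ n * P.eval (x : ℝ)) ^ 2 / g.eval (x : ℝ)) ^ q :=
    (Continuous.div (by fun_prop) (by fun_prop) fun x => (hg x).ne').rpow_const fun _ => Or.inr hq.le
  have h6 : ((2 ^ n) ^ 2 / Gm) ^ q * ∫ x : I, ((P.eval (x : ℝ)) ^ 2) ^ q ∂γ ≤ LL γ g q n P := by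
    rw [LL, ← integral_const_mul]
    refine integral_mono (integrable_of_continuous (hc1.const_mul _) _)
      (integrable_of_continuous hc2 _) fun x => ?_
    simp only
    rw [← Real.mul_rpow (by positivity) (sq_nonneg _)]
    refine Real.rpow_le_rpow (by positivity) ?_ hq.le
    rw [mul_pow, div_mul_eq_mul_div]
    exact div_le_div_of_nonneg_left (by positivity) (hg x) (hGm x)
  refine le_trans ?_ h6
  exact mul_le_mul_of_nonneg_left h5 (by positivity)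

/-- The ratio property for the exponent `p = 2q`. -/
def StepProp (q : ℝ) : Prop :=
  ∀ δ : ℝ, 0 < δ → ∃ ε : ℝ, 0 < ε ∧ ∀ (γ : Measure I) [IsFiniteMeasure γ], ND γ →
    ∀ G : Set I, Near γ G ε → ∀ g : ℝ[X], (∀ x : I, 0 < g.eval (x : ℝ)) →
      ∀ n : ℕ, 2 ≤ n → g.natDegree + 3 ≤ 2 * n →
        DD γ g q (n + 1) ≤ (1 + δ) * DD γ g q n ∧ DD γ g q (n - 1) ≤ (1 + δ) * DD γ g q n

lemma lim_lt_aux {q δ : ℝ} (hδ : 0 < δ) :
    ∃ s : ℝ, 0 < s ∧ s < 1 / 16 ∧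
      ((((1 - 2 * s) * (1 - 4 * (2 * s)))⁻¹) ^ 2) ^ q * ((1 + 2 * s) * (1 - s) ^ (-q)) < 1 + δ ∧
      (1 + 2 * s) * (1 - s) ^ (-q) < 1 + δ := by
  have h1 : Tendsto (fun s : ℝ => ((((1 - 2 * s) * (1 - 4 * (2 * s)))⁻¹) ^ 2) ^ q *
      ((1 + 2 * s) * (1 - s) ^ (-q))) (𝓝 0) (𝓝 1) := by
    have : ContinuousAt (fun s : ℝ => ((((1 - 2 * s) * (1 - 4 * (2 * s)))⁻¹) ^ 2) ^ q *
      ((1 + 2 * s) * (1 - s) ^ (-q))) 0 := by
      refine ContinuousAt.mul ?_ (ContinuousAt.mul (by fun_prop) ?_)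
      · refine ContinuousAt.rpow_const ?_ (Or.inl (by norm_num))
        refine ContinuousAt.pow ?_ 2
        exact ContinuousAt.inv₀ (by fun_prop) (by norm_num)
      · exact ContinuousAt.rpow_const (by fun_prop) (Or.inl (by norm_num))
    have h := this.tendsto
    simpa using h
  have h2 : Tendsto (fun s : ℝ => (1 + 2 * s) * (1 - s) ^ (-q)) (𝓝 0) (𝓝 1) := by
    have : ContinuousAt (fun s : ℝ => (1 + 2 * s) * (1 - s) ^ (-q)) 0 := by
      refine ContinuousAt.mul (by fun_prop) ?_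
      exact ContinuousAt.rpow_const (by fun_prop) (Or.inl (by norm_num))
    have h := this.tendsto
    simpa using h
  have e1 := (h1.eventually_lt_const (by linarith : (1 : ℝ) < 1 + δ)).filter_mono
    (nhdsWithin_le_nhds (s := Ioi 0))
  have e2 := (h2.eventually_lt_const (by linarith : (1 : ℝ) < 1 + δ)).filter_mono
    (nhdsWithin_le_nhds (s := Ioi 0))
  have e3 : ∀ᶠ s : ℝ in 𝓝[>] 0, s < 1 / 16 :=
    (eventually_lt_nhds (by norm_num : (0 : ℝ) < 1 / 16)).filter_mono nhdsWithin_le_nhds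
  obtain ⟨s, hs⟩ := (e1.and (e2.and (e3.and self_mem_nhdsWithin))).exists
  exact ⟨s, hs.2.2.2, hs.2.2.1, hs.1, hs.2.1⟩

lemma tendsto_Mm (q κb η : ℝ) : Tendsto (fun ε : ℝ => Mm q κb η ε) (𝓝 0) (𝓝 (2 * η)) := by
  have : Continuous fun ε : ℝ => Mm q κb η ε := by
    unfold Mm
    fun_prop
  have h := this.tendsto 0
  have h0 : Mm q κb η 0 = 2 * η := by
    unfold Mm; ring
  rwa [h0] at h

lemma tendsto_Bd {q : ℝ} (hq : 0 < q) (κb η : ℝ) :
    Tendsto (fun ε : ℝ => Bd q κb η ε) (𝓝 0) (𝓝 ((1 + 2 * κb) * (1 - η) ^ (-q))) := by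
  have hcp := cp_pos hq
  have : ContinuousAt (fun ε : ℝ => Bd q κb η ε) 0 := by
    unfold Bd
    refine ContinuousAt.add (ContinuousAt.mul ?_ (by fun_prop)) (by fun_prop)
    refine ContinuousAt.div (by fun_prop) (by fun_prop) ?_
    simp only [sub_zero, mul_zero, one_mul]
    exact hcp.ne'
  have h := this.tendsto
  have h0 : Bd q κb η 0 = (1 + 2 * κb) * (1 - η) ^ (-q) := by
    unfold Bd
    simp only [sub_zero, mul_zero, one_mul, add_zero, zero_div]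
    field_simp
  rwa [h0] at h

theorem stepProp_lt {q : ℝ} (hq : 0 < q) (hq1 : q < 1) : StepProp q := by
  intro δ hδ
  obtain ⟨s, hs, hs1, hA, hB⟩ := lim_lt_aux (q := q) hδ
  have hcp := cp_pos hq
  have tM := tendsto_Mm q s s
  have tB := tendsto_Bd hq s s
  have t1 : Tendsto (fun ε : ℝ => ((((1 - Mm q s s ε) * (1 - 4 * Mm q s s ε))⁻¹) ^ 2) ^ q *
      Bd q s s ε) (𝓝 0) (𝓝 (((((1 - 2 * s) * (1 - 4 * (2 * s)))⁻¹) ^ 2) ^ q *
        ((1 + 2 * s) * (1 - s) ^ (-q)))) := by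
    refine Tendsto.mul ?_ tB
    have hne : (1 - 2 * s) * (1 - 4 * (2 * s)) ≠ 0 :=
      mul_ne_zero (by linarith) (by linarith)
    refine Tendsto.rpow_const ?_ (Or.inl (pow_ne_zero 2 (inv_ne_zero hne)))
    refine Tendsto.pow ?_ 2
    refine Tendsto.inv₀ ?_ hne
    exact (tM.const_sub 1).mul ((tM.const_mul 4).const_sub 1)
  have e1 := (t1.eventually_lt_const hA).filter_mono (nhdsWithin_le_nhds (s := Ioi 0))
  have e2 := (tB.eventually_lt_const hB).filter_mono (nhdsWithin_le_nhds (s := Ioi 0))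
  have e3 : ∀ᶠ ε : ℝ in 𝓝[>] 0, 4 * Mm q s s ε < 1 := by
    have : 4 * (2 * s) < 1 := by linarith
    exact ((tM.const_mul 4).eventually_lt_const this).filter_mono nhdsWithin_le_nhds
  have e4 : ∀ᶠ ε : ℝ in 𝓝[>] 0, ε < 1 / 4 :=
    (eventually_lt_nhds (by norm_num : (0 : ℝ) < 1 / 4)).filter_mono nhdsWithin_le_nhds
  have e5 : ∀ᶠ ε : ℝ in 𝓝[>] 0, (1 + q) * 4 ^ q * ε < cp q / 2 := by
    have t : Tendsto (fun ε : ℝ => (1 + q) * 4 ^ q * ε) (𝓝 0) (𝓝 ((1 + q) * 4 ^ q * 0)) :=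
      (by fun_prop : Continuous fun ε : ℝ => (1 + q) * 4 ^ q * ε).tendsto 0
    rw [mul_zero] at t
    exact (t.eventually_lt_const (by positivity)).filter_mono nhdsWithin_le_nhds
  obtain ⟨ε, h1, h2, h3, h4, h5, h6⟩ := (e1.and (e2.and (e3.and (e4.and (e5.and
    self_mem_nhdsWithin))))).exists
  refine ⟨ε, h6, fun γ _ hγ G hG g hg n hn hgn => ?_⟩
  have hd := DD_pos hγ hg hq n
  obtain ⟨a1, a2⟩ := step_lt hγ hG (le_of_lt h6) h4.le hg hq hq1 h5.le hs (by linarith) hs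
    (by linarith) hn hgn h3 hd
  refine ⟨a1.trans (mul_le_mul_of_nonneg_right h2.le hd.le), a2.trans ?_⟩
  rw [← mul_assoc]
  exact mul_le_mul_of_nonneg_right h1.le hd.le

end Pool.Agent.E96
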