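import Pool.Agent.E96.LtTwo

/-!
# L^p extremal polynomials, 0 < p < 2: the step
-/

open MeasureTheory Polynomial Set Filter Topology
open scoped Real ENNReal Polynomial ComplexConjugate

namespace Pool.Agent.E96

lemma mono_lt {q κ δ v : ℝ} (hq : 0 < q) (hq1 : q < 1) (hκ : 0 < κ) (hδ0 : 0 ≤ δ) (hδ : δ ≤ 4)
    (hv : 0 < v) :
    (κ + 4) ^ (q - 1) * ((1 - v) * (v ^ (-q) - 1)) ≤
      (1 - v) * ((max κ (δ / v)) ^ (q - 1) / v - (max κ δ) ^ (q - 1)) := by
  have hm1 : 0 < max κ δ := lt_of_lt_of_le hκ (le_max_left _ _)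
  have hm2 : 0 < max κ (δ / v) := lt_of_lt_of_le hκ (le_max_left _ _)
  have hc : (κ + 4) ^ (q - 1) ≤ (max κ δ) ^ (q - 1) :=
    Real.rpow_le_rpow_of_nonpos hm1 (max_le (by linarith) (by linarith)) (by linarith)
  have e1 : (max κ δ / v) ^ (q - 1) / v = (max κ δ) ^ (q - 1) * v ^ (-q) := by
    rw [Real.div_rpow hm1.le hv.le, Real.rpow_neg hv.le, Real.rpow_sub hv, Real.rpow_one]
    have : v ^ q ≠ 0 := (Real.rpow_pos_of_pos hv q).ne'
    field_simp
  rcases le_total v 1 with h | h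
  · have h1 : max κ (δ / v) ≤ max κ δ / v := by
      refine max_le ?_ ?_
      · rw [le_div_iff₀ hv]
        have := le_max_left κ δ
        nlinarith
      · exact div_le_div_of_nonneg_right (le_max_right _ _) hv.le
    have h2 : (max κ δ / v) ^ (q - 1) ≤ (max κ (δ / v)) ^ (q - 1) :=
      Real.rpow_le_rpow_of_nonpos hm2 h1 (by linarith)
    have h3 : (max κ δ) ^ (q - 1) * v ^ (-q) ≤ (max κ (δ / v)) ^ (q - 1) / v := by
      rw [← e1]
      exact div_le_div_of_nonneg_right h2 hv.le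
    have h4 : 0 ≤ v ^ (-q) - 1 :=
      sub_nonneg.2 (Real.one_le_rpow_of_pos_of_le_one_of_nonpos hv h (by linarith))
    have h5 : (κ + 4) ^ (q - 1) * (v ^ (-q) - 1) ≤
        (max κ (δ / v)) ^ (q - 1) / v - (max κ δ) ^ (q - 1) := by
      have := mul_le_mul_of_nonneg_right hc h4
      linarith
    have h6 := mul_le_mul_of_nonneg_left h5 (sub_nonneg.2 h)
    linarith
  · have h1 : max κ δ / v ≤ max κ (δ / v) := by
      rw [div_le_iff₀ hv]
      refine max_le ?_ ?_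
      · have := le_max_left κ (δ / v)
        nlinarith
      · have := le_max_right κ (δ / v)
        rw [div_le_iff₀ hv] at this
        exact this
    have h2 : (max κ (δ / v)) ^ (q - 1) ≤ (max κ δ / v) ^ (q - 1) :=
      Real.rpow_le_rpow_of_nonpos (by positivity) h1 (by linarith)
    have h3 : (max κ (δ / v)) ^ (q - 1) / v ≤ (max κ δ) ^ (q - 1) * v ^ (-q) := by
      rw [← e1]
      exact div_le_div_of_nonneg_right h2 hv.le
    have h4 : 0 ≤ 1 - v ^ (-q) :=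
      sub_nonneg.2 (Real.rpow_le_one_of_one_le_of_nonpos h (by linarith))
    have h5 : (κ + 4) ^ (q - 1) * (1 - v ^ (-q)) ≤
        (max κ δ) ^ (q - 1) - (max κ (δ / v)) ^ (q - 1) / v := by
      have := mul_le_mul_of_nonneg_right hc h4
      linarith
    have h6 := mul_le_mul_of_nonneg_left h5 (sub_nonneg.2 h)
    linarith

lemma ptw_lt {q κ δ v : ℝ} (hq : 0 < q) (hq1 : q < 1) (hκ : 0 < κ) (hδ : δ ≤ 4)
    (hv : 0 < v) :
    v ^ (-q) ≤ 4 ^ (1 - q) * ((max κ (δ / v)) ^ (q - 1) / v) + κ ^ q := by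
  have hm2 : 0 < max κ (δ / v) := lt_of_lt_of_le hκ (le_max_left _ _)
  have hκq : 0 ≤ κ ^ q := Real.rpow_nonneg hκ.le q
  rcases le_total κ (4 / v) with h | h
  · have h1 : max κ (δ / v) ≤ 4 / v := max_le h (div_le_div_of_nonneg_right hδ hv.le)
    have h2 : (4 / v) ^ (q - 1) ≤ (max κ (δ / v)) ^ (q - 1) :=
      Real.rpow_le_rpow_of_nonpos hm2 h1 (by linarith)
    have h3 : v ^ (-q) = 4 ^ (1 - q) * ((4 / v) ^ (q - 1) / v) := by
      rw [Real.div_rpow (by norm_num) hv.le, Real.rpow_neg hv.le, Real.rpow_sub hv, Real.rpow_one,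
        show (1 - q) = -(q - 1) by ring, Real.rpow_neg (by norm_num : (0 : ℝ) ≤ 4)]
      have : v ^ q ≠ 0 := (Real.rpow_pos_of_pos hv q).ne'
      have : (4 : ℝ) ^ (q - 1) ≠ 0 := (Real.rpow_pos_of_pos (by norm_num) _).ne'
      field_simp
    have h4 : 4 ^ (1 - q) * ((4 / v) ^ (q - 1) / v) ≤
        4 ^ (1 - q) * ((max κ (δ / v)) ^ (q - 1) / v) :=
      mul_le_mul_of_nonneg_left (div_le_div_of_nonneg_right h2 hv.le) (by positivity)
    linarith
  · have h1 : v ^ (-q) ≤ κ ^ q := by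
      rw [Real.rpow_neg hv.le, ← Real.inv_rpow hv.le]
      refine Real.rpow_le_rpow (inv_nonneg.2 hv.le) ?_ hq.le
      refine le_trans ?_ h
      rw [inv_eq_one_div]
      exact div_le_div_of_nonneg_right (by norm_num) hv.le
    have h2 : 0 ≤ 4 ^ (1 - q) * ((max κ (δ / v)) ^ (q - 1) / v) := by positivity
    linarith

/-- constants -/
noncomputable def K0 (q κb : ℝ) : ℝ := (κb * cp q / 8) ^ (1 / q)
/-- constants -/
noncomputable def Lc (q κb : ℝ) : ℝ := 5 * (1 + 4 / K0 q κb) ^ (1 - q)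
/-- constants -/
noncomputable def Bd (q κb η ε : ℝ) : ℝ :=
  (1 + 2 * κb) / ((1 - ε) * (cp q - (1 + q) * 4 ^ q * ε)) *
    ((1 + ε) * ((1 - η) ^ (-q) * cp q + 4 ^ q * (Lc q κb * ε) / η) +
      4 ^ q * (4 ^ (1 - q) * (4 * K0 q κb ^ (q - 1) * ε))) + 4 ^ q * (κb * ε)
/-- constants -/
noncomputable def Mm (q κb η ε : ℝ) : ℝ := 2 * (η + Lc q κb * ε / cη q η) + 2 * ε

lemma K0_pos {q κb : ℝ} (hq : 0 < q) (hκb : 0 < κb) : 0 < K0 q κb := by
  have := cp_pos hq
  exact Real.rpow_pos_of_pos (by positivity) _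

theorem step_lt {γ : Measure I} [IsFiniteMeasure γ] (hγ : ND γ) {G : Set I} {ε : ℝ}
    (hnear : Near γ G ε) (hε0 : 0 ≤ ε) (hε : ε ≤ 1 / 4) {g : ℝ[X]}
    (hg : ∀ x : I, 0 < g.eval (x : ℝ)) {q : ℝ} (hq : 0 < q) (hq1 : q < 1)
    (hε2 : (1 + q) * 4 ^ q * ε ≤ cp q / 2) {κb η : ℝ} (hκb : 0 < κb) (hκb1 : κb ≤ 1) (hη : 0 < η)
    (hη1 : η < 1) {n : ℕ} (hn : 2 ≤ n) (hgn : g.natDegree + 3 ≤ 2 * n)
    (hm : 4 * Mm q κb η ε < 1) (hd : 0 < DD γ g q n) :
    DD γ g q (n + 1) ≤ Bd q κb η ε * DD γ g q n ∧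
      DD γ g q (n - 1) ≤ ((((1 - Mm q κb η ε) * (1 - 4 * Mm q κb η ε))⁻¹) ^ 2) ^ q *
        (Bd q κb η ε * DD γ g q n) := by
  obtain ⟨N0, hN0⟩ : ∃ N0, 2 * n = N0 + 3 := ⟨2 * n - 3, by omega⟩
  set d := DD γ g q n with hdd
  set κ := (κb * d) ^ (1 / q) with hκd
  have hκbd : 0 < κb * d := mul_pos hκb hd
  have hκ : 0 < κ := Real.rpow_pos_of_pos hκbd _
  have hκq : κ ^ q = κb * d := by
    rw [hκd, ← Real.rpow_mul hκbd.le, one_div, inv_mul_cancel₀ hq.ne', Real.rpow_one]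
  obtain ⟨t, htd, ht0, hzf, club, hJ⟩ := struct_lt hγ hg hq hq1 (n := n) (N := N0 + 2) (by omega)
    (by omega) (by omega) hκ
  have hcp := cp_pos hq
  have hlam := lam_pos hg hzf
  have hvp := vv_pos hg hzf
  have hvc := continuous_vv hg hzf
  have hyc := continuous_yy (N0 + 2) hzf
  have hy := yy_mem (N := N0 + 2) hzf
  set lm := lam g t with hlm
  set v := vv g t with hv
  set y := yy (N0 + 2) t with hyd
  have hlq : 0 < lm ^ q := Real.rpow_pos_of_pos hlam q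
  set κ' := κ / lm with hκ'
  have hκ'0 : 0 < κ' := div_pos hκ hlam
  have hκ'q : κ' ^ q = κb * d / lm ^ q := by
    rw [hκ', Real.div_rpow hκ.le hlam.le, hκq]
  -- F1
  have hF1 : (1 - ε) * lm ^ q * (cp q - (1 + q) * 4 ^ q * ε) ≤ (1 + 2 * κb) * d := by
    refine (LL_lower hnear (by linarith) hg hq hzf htd (by omega)).trans ?_
    have h1 : ∫ x, (lm / v x * (2 + 2 * y x)) ^ q ∂γ - κ ^ q * γ.real univ ≤ d := by
      refine le_DD fun P hP hPn => ?_
      have := hJ P hP hPn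
      linarith
    have h2 := hnear.total_le hε0
    rw [hκq] at h1
    have h3 : κb * d * γ.real univ ≤ κb * d * 2 :=
      mul_le_mul_of_nonneg_left (by linarith) hκbd.le
    linarith
  have hc2 : cp q / 2 ≤ cp q - (1 + q) * 4 ^ q * ε := by linarith
  have hlmq : lm ^ q * cp q ≤ 8 * d := by
    have h1 : 3 / 4 * lm ^ q * (cp q / 2) ≤ (1 - ε) * lm ^ q * (cp q - (1 + q) * 4 ^ q * ε) := by
      refine mul_le_mul ?_ hc2 (by positivity) (mul_nonneg (by linarith) hlq.le)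
      exact mul_le_mul_of_nonneg_right (by linarith) hlq.le
    have h2 : (1 + 2 * κb) * d ≤ 3 * d := mul_le_mul_of_nonneg_right (by linarith) hd.le
    nlinarith
  have hK0 := K0_pos hq hκb (q := q)
  have hK0le : K0 q κb ≤ κ' := by
    have h1 : κb * cp q / 8 ≤ κ' ^ q := by
      rw [hκ'q, le_div_iff₀ hlq]
      nlinarith
    have h2 : κ' = (κ' ^ q) ^ (1 / q) := by
      rw [← Real.rpow_mul hκ'0.le, mul_one_div_cancel hq.ne', Real.rpow_one]
    rw [h2, K0]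
    exact Real.rpow_le_rpow (by positivity) h1 (by positivity)
  have hS0 : 0 ≤ κ' ^ (q - 1) := Real.rpow_nonneg hκ'0.le _
  have hSle : κ' ^ (q - 1) ≤ K0 q κb ^ (q - 1) :=
    Real.rpow_le_rpow_of_nonpos hK0 hK0le (by linarith)
  -- functions
  set Ω : I → ℝ := fun x => (max κ' ((2 + 2 * y x) / v x)) ^ (q - 1) with hΩ
  set Ω1 : I → ℝ := fun x => (max κ' (2 + 2 * y x)) ^ (q - 1) with hΩ1
  have hvne : ∀ x, v x ≠ 0 := fun x => (hvp x).ne'
  have hΩc : Continuous Ω := by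
    refine Continuous.rpow_const ?_ fun x => Or.inl (lt_of_lt_of_le hκ'0 (le_max_left _ _)).ne'
    exact continuous_const.max ((by fun_prop : Continuous fun x => 2 + 2 * y x).div hvc hvne)
  have hFc : Continuous fun z : ℝ => (max κ' (2 + 2 * z)) ^ (q - 1) :=
    Continuous.rpow_const (by fun_prop) fun x => Or.inl (lt_of_lt_of_le hκ'0 (le_max_left _ _)).ne'
  have hΩ1c : Continuous Ω1 := hFc.comp hyc
  have hΩ0 : ∀ x, 0 ≤ Ω x := fun x =>
    Real.rpow_nonneg (hκ'0.le.trans (le_max_left _ _)) _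
  have hΩ10 : ∀ x, 0 ≤ Ω1 x := fun x =>
    Real.rpow_nonneg (hκ'0.le.trans (le_max_left _ _)) _
  have hΩS : ∀ x, Ω x ≤ κ' ^ (q - 1) := fun x =>
    Real.rpow_le_rpow_of_nonpos hκ'0 (le_max_left _ _) (by linarith)
  have hΩ1S : ∀ x, Ω1 x ≤ κ' ^ (q - 1) := fun x =>
    Real.rpow_le_rpow_of_nonpos hκ'0 (le_max_left _ _) (by linarith)
  have heart : ∫ x, (1 - v x) * Ω1 x ∂rho = 0 := by
    have h1 := heart_eq hg hzf htd (by omega : g.natDegree ≤ N0 + 2)
      (fun z => (max κ' (2 + 2 * z)) ^ (q - 1)) hFc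
    have h2 : ∫ x, (1 - v x) * Ω1 x ∂rho = ∫ x, Ω1 x ∂rho - ∫ x, v x * Ω1 x ∂rho := by
      have hc' : Continuous fun x => v x * Ω1 x := hvc.mul hΩ1c
      rw [← integral_sub (integrable_of_continuous hΩ1c _) (integrable_of_continuous hc' _)]
      refine integral_congr_ae (Eventually.of_forall fun x => ?_)
      simp only
      ring
    rw [h2, sub_eq_zero]
    exact h1.symm
  have hc : 0 < (κ' + 4) ^ (q - 1) := Real.rpow_pos_of_pos (by linarith) _
  have hkey := key_ineq hnear hε0 hε (S := κ' ^ (q - 1)) (q := q) (c := (κ' + 4) ^ (q - 1)) hq hS0 hc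
    hvc hvp hΩc hΩ1c hΩ0 hΩ10 (fun x _ => hΩS x) hΩ1S club heart (fun x =>
      mono_lt hq hq1 hκ'0 (by have := (hy x).1; linarith) (by have := (hy x).2; linarith) (hvp x))
  obtain ⟨hk1, hk2⟩ := hkey
  -- bound for L
  have hL : ∫ x in G, (1 - v x) * ((v x) ^ (-q) - 1) ∂rho ≤ Lc q κb * ε := by
    have h1 : ∫ x in G, (1 - v x) * ((v x) ^ (-q) - 1) ∂rho ≤
        5 * κ' ^ (q - 1) * ε / (κ' + 4) ^ (q - 1) := by
      rw [le_div_iff₀ hc, mul_comm]
      exact hk1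
    refine h1.trans ?_
    have h2 : 5 * κ' ^ (q - 1) * ε / (κ' + 4) ^ (q - 1) =
        5 * (κ' ^ (q - 1) / (κ' + 4) ^ (q - 1)) * ε := by ring
    rw [h2, Lc]
    refine mul_le_mul_of_nonneg_right ?_ hε0
    refine mul_le_mul_of_nonneg_left ?_ (by norm_num)
    have h3 : κ' ^ (q - 1) / (κ' + 4) ^ (q - 1) = (1 + 4 / κ') ^ (1 - q) := by
      rw [← Real.div_rpow hκ'0.le (by linarith), show (q - 1) = -(1 - q) by ring,
        Real.rpow_neg (by positivity), ← Real.inv_rpow (by positivity)]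
      congr 1
      field_simp
    rw [h3]
    refine Real.rpow_le_rpow (by positivity) ?_ (by linarith)
    have : 4 / κ' ≤ 4 / K0 q κb := div_le_div_of_nonneg_left (by norm_num) hK0 hK0le
    linarith
  -- mass outside of G
  have hvqc : Continuous fun x => (v x) ^ (-q) := hvc.rpow_const fun x => Or.inl (hvne x)
  have hΩvc : Continuous fun x => Ω x / v x := hΩc.div hvc hvne
  have hGc : ∫ x in Gᶜ, (v x) ^ (-q) ∂γ ≤ 4 ^ (1 - q) * (4 * K0 q κb ^ (q - 1) * ε) + κ' ^ q * ε := by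
    have h1 : ∫ x in Gᶜ, (v x) ^ (-q) ∂γ ≤
        ∫ x in Gᶜ, (4 ^ (1 - q) * (Ω x / v x) + κ' ^ q) ∂γ := by
      refine set_mono hvqc ((hΩvc.const_mul _).add continuous_const) fun x => ?_
      exact ptw_lt hq hq1 hκ'0 (by have := (hy x).2; linarith) (hvp x)
    rw [integral_add (intOn (hΩvc.const_mul _) γ _) (intOn continuous_const γ _),
      integral_const_mul, setIntegral_const, smul_eq_mul] at h1
    have h2 : ∫ x in Gᶜ, Ω x / v x ∂γ ≤ 4 * κ' ^ (q - 1) * ε := by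
      have h3 : ∫ x in Gᶜ, Ω x / v x ∂γ =
          ∫ x in Gᶜ, (1 / v x - 1) * Ω x ∂γ + ∫ x in Gᶜ, Ω x ∂γ := by
        have hc' : Continuous fun x => (1 / v x - 1) * Ω x := by
          have : Continuous fun x => 1 / v x := continuous_const.div hvc hvne
          fun_prop
        rw [← integral_add (intOn hc' γ _) (intOn hΩc γ _)]
        refine integral_congr_ae (Eventually.of_forall fun x => ?_)
        simp only
        ring
      have h4 : ∫ x in Gᶜ, Ω x ∂γ ≤ κ' ^ (q - 1) * ε :=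
        (set_le_const hΩc hΩS).trans (mul_le_mul_of_nonneg_left hnear.outg hS0)
      rw [h3]
      linarith
    have h5 : κ' ^ (q - 1) * ε ≤ K0 q κb ^ (q - 1) * ε := mul_le_mul_of_nonneg_right hSle hε0
    have h6 : 4 ^ (1 - q) * ∫ x in Gᶜ, Ω x / v x ∂γ ≤ 4 ^ (1 - q) * (4 * K0 q κb ^ (q - 1) * ε) :=
      mul_le_mul_of_nonneg_left (by linarith) (by positivity)
    have h7 : γ.real Gᶜ * κ' ^ q ≤ κ' ^ q * ε := by
      rw [mul_comm]
      exact mul_le_mul_of_nonneg_left hnear.outg (Real.rpow_nonneg hκ'0.le q)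
    linarith
  -- final bound
  have hfin : lm ^ q * ((1 + ε) * ((1 - η) ^ (-q) * cp q + 4 ^ q * (Lc q κb * ε) / η) +
      4 ^ q * ∫ x in Gᶜ, (v x) ^ (-q) ∂γ) ≤ Bd q κb η ε * d := by
    set A := (1 + ε) * ((1 - η) ^ (-q) * cp q + 4 ^ q * (Lc q κb * ε) / η) with hA
    set B := 4 ^ (1 - q) * (4 * K0 q κb ^ (q - 1) * ε) with hB
    have hLc0 : 0 ≤ Lc q κb := by unfold Lc; positivity
    have hA0 : 0 ≤ A := by
      have : 0 ≤ (1 - η) ^ (-q) := Real.rpow_nonneg (by linarith) _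
      positivity
    have hB0 : 0 ≤ B := by positivity
    have h4q : (0 : ℝ) ≤ 4 ^ q := by positivity
    have h1 : lm ^ q * (A + 4 ^ q * ∫ x in Gᶜ, (v x) ^ (-q) ∂γ) ≤
        lm ^ q * (A + 4 ^ q * (B + κ' ^ q * ε)) := by
      refine mul_le_mul_of_nonneg_left ?_ hlq.le
      have := mul_le_mul_of_nonneg_left hGc h4q
      linarith
    have h2 : lm ^ q * (A + 4 ^ q * (B + κ' ^ q * ε)) =
        lm ^ q * (A + 4 ^ q * B) + 4 ^ q * (κb * ε) * d := by
      rw [hκ'q]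
      field_simp
      ring
    have h3 : lm ^ q ≤ (1 + 2 * κb) / ((1 - ε) * (cp q - (1 + q) * 4 ^ q * ε)) * d := by
      have h4 : 0 < (1 - ε) * (cp q - (1 + q) * 4 ^ q * ε) :=
        mul_pos (by linarith) (by linarith)
      rw [div_mul_eq_mul_div, le_div_iff₀ h4]
      linarith
    have h5 : lm ^ q * (A + 4 ^ q * B) ≤
        (1 + 2 * κb) / ((1 - ε) * (cp q - (1 + q) * 4 ^ q * ε)) * d * (A + 4 ^ q * B) :=
      mul_le_mul_of_nonneg_right h3 (by positivity)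
    have h6 : Bd q κb η ε * d = (1 + 2 * κb) / ((1 - ε) * (cp q - (1 + q) * 4 ^ q * ε)) * d *
        (A + 4 ^ q * B) + 4 ^ q * (κb * ε) * d := by
      rw [Bd]
      ring
    linarith
  refine ⟨?_, ?_⟩
  · have h1 := DD_le_of_comp hnear hε0 hg hq hzf hη hη1 hL (n' := n + 1) (N' := N0 + 4) (by omega)
      (by omega) hzf (by omega) ht0 zero_le_one (fun x => by rw [one_mul])
    rw [Real.one_rpow, one_mul] at h1
    exact h1.trans hfin
  · have hm1 : ∫ x, |1 - v x| ∂rho ≤ Mm q κb η ε :=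
      hnear.integral_abs_le hq hvc hvp (integral_vv hg hzf) hη hη1 hL
    obtain ⟨t', hz', hd', h0', hR⟩ := double_red hg hzf htd ht0 (by omega) hm1 hm
    have h1 := DD_le_of_comp hnear hε0 hg hq hzf hη hη1 hL (n' := n - 1) (N' := N0) (by omega)
      (by omega) hz' hd' h0' (sq_nonneg _) hR
    refine h1.trans ?_
    exact mul_le_mul_of_nonneg_left hfin (Real.rpow_nonneg (sq_nonneg _) q)

end Pool.Agent.E96
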