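import Pool.Agent.E96.Line

/-!
# L^p extremal polynomials: removing point masses outside of the interval
-/

open MeasureTheory Polynomial Set Filter Topology
open scoped Real ENNReal Polynomial ComplexConjugate

namespace Pool.Agent.E96

/-- the measure `|π|^p α` on `K` -/
noncomputable def rmv (α : Measure ℝ) (K : Set ℝ) (p : ℝ) (w : ℝ[X]) : Measure ℝ :=
  (α.restrict K).withDensity (fun x => ENNReal.ofReal (|w.eval x| ^ p))

lemma continuous_absp (p : ℝ) (hp : 0 < p) (P : ℝ[X]) : Continuous fun x : ℝ => |P.eval x| ^ p :=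
  Continuous.rpow_const (by fun_prop) fun _ => Or.inr hp.le

lemma J_rmv {α : Measure ℝ} {K : Set ℝ} {p : ℝ} (hp : 0 < p) (w P : ℝ[X]) :
    J (rmv α K p w) p P = ∫ x in K, |(w * P).eval x| ^ p ∂α := by
  rw [J, rmv, integral_withDensity_eq_integral_toReal_smul
    (by have := continuous_absp p hp w; fun_prop)
    (Eventually.of_forall fun x => ENNReal.ofReal_lt_top)]
  refine integral_congr_ae (Eventually.of_forall fun x => ?_)
  simp only [smul_eq_mul, eval_mul]
  rw [ENNReal.toReal_ofReal (Real.rpow_nonneg (abs_nonneg _) _), abs_mul,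
    Real.mul_rpow (abs_nonneg _) (abs_nonneg _)]

lemma isFinite_rmv {α : Measure ℝ} [IsFiniteMeasure α] {K : Set ℝ} (hK : IsCompact K) {p : ℝ}
    (hp : 0 < p) (w : ℝ[X]) : IsFiniteMeasure (rmv α K p w) := by
  rw [rmv]
  have h1 : IntegrableOn (fun x : ℝ => |w.eval x| ^ p) K α :=
    (continuous_absp p hp w).continuousOn.integrableOn_compact hK
  exact isFiniteMeasure_withDensity_ofReal h1.2

lemma exists_lin {a b x0 : ℝ} (hab : a < b) (hx : x0 ∉ Icc a b) :
    ∃ (B : ℝ[X]) (r : ℝ), B.natDegree ≤ 1 ∧ B.eval x0 = 1 ∧ 0 ≤ r ∧ r < 1 ∧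
      ∀ x ∈ Icc a b, |B.eval x| ≤ r := by
  by_cases h : x0 < a
  · have h1 : 0 < b - x0 := by linarith
    refine ⟨C (b - x0)⁻¹ * (C b - X), (b - a) / (b - x0), ?_, ?_, ?_, ?_, fun x hx => ?_⟩
    · refine (natDegree_C_mul_le _ _).trans ?_
      compute_degree
    · simp only [eval_mul, eval_C, eval_sub, eval_X]
      exact inv_mul_cancel₀ h1.ne'
    · have : 0 ≤ b - a := by linarith
      positivity
    · rw [div_lt_one h1]
      linarith
    · simp only [eval_mul, eval_C, eval_sub, eval_X]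
      rw [abs_of_nonneg (mul_nonneg (inv_nonneg.2 h1.le) (by linarith [hx.2])), mul_comm,
        ← div_eq_mul_inv]
      exact div_le_div_of_nonneg_right (by linarith [hx.1]) h1.le
  · have h2 : b < x0 := by
      by_contra h3
      exact hx ⟨not_lt.1 h, not_lt.1 h3⟩
    have h1 : 0 < x0 - a := by linarith
    refine ⟨C (x0 - a)⁻¹ * (X - C a), (b - a) / (x0 - a), ?_, ?_, ?_, ?_, fun x hx => ?_⟩
    · refine (natDegree_C_mul_le _ _).trans ?_
      compute_degree
    · simp only [eval_mul, eval_C, eval_sub, eval_X]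
      exact inv_mul_cancel₀ h1.ne'
    · have : 0 ≤ b - a := by linarith
      positivity
    · rw [div_lt_one h1]
      linarith
    · simp only [eval_mul, eval_C, eval_sub, eval_X]
      rw [abs_of_nonneg (mul_nonneg (inv_nonneg.2 h1.le) (by linarith [hx.1])), mul_comm,
        ← div_eq_mul_inv]
      exact div_le_div_of_nonneg_right (by linarith [hx.2]) h1.le

lemma abs_add_rpow_le {p s x y : ℝ} (hp : 0 < p) (hs : 0 < s) :
    |x + y| ^ p ≤ (1 + s) ^ p * |x| ^ p + (1 + 1 / s) ^ p * |y| ^ p := by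
  have hx := abs_nonneg x
  have hy := abs_nonneg y
  rcases le_total |y| (s * |x|) with h | h
  · have h1 : |x + y| ≤ (1 + s) * |x| := (abs_add_le x y).trans (by linarith)
    have h2 : |x + y| ^ p ≤ ((1 + s) * |x|) ^ p := Real.rpow_le_rpow (abs_nonneg _) h1 hp.le
    rw [Real.mul_rpow (by positivity) hx] at h2
    have h3 : 0 ≤ (1 + 1 / s) ^ p * |y| ^ p := by positivity
    linarith
  · have h1 : |x| ≤ |y| / s := by rw [le_div_iff₀ hs]; linarith
    have h2 : |x + y| ≤ (1 + 1 / s) * |y| := by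
      refine (abs_add_le x y).trans ?_
      have : (1 + 1 / s) * |y| = |y| + |y| / s := by ring
      linarith
    have h3 : |x + y| ^ p ≤ ((1 + 1 / s) * |y|) ^ p := Real.rpow_le_rpow (abs_nonneg _) h2 hp.le
    rw [Real.mul_rpow (by positivity) hy] at h3
    have h4 : 0 ≤ (1 + s) ^ p * |x| ^ p := by positivity
    linarith

lemma exists_min_mass (T : Finset ℝ) (f : ℝ → ℝ) (hf : ∀ x ∈ T, 0 < f x) :
    ∃ c : ℝ, 0 < c ∧ ∀ x ∈ T, c ≤ f x := by
  classical
  induction T using Finset.induction_on with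
  | empty => exact ⟨1, one_pos, by simp⟩
  | insert a s _ ih =>
    obtain ⟨c, hc, hcs⟩ := ih fun x hx => hf x (Finset.mem_insert_of_mem hx)
    refine ⟨min c (f a), lt_min hc (hf a (Finset.mem_insert_self _ _)), fun x hx => ?_⟩
    rcases Finset.mem_insert.1 hx with rfl | hx
    · exact min_le_right _ _
    · exact (min_le_left _ _).trans (hcs x hx)

section remove

variable {α : Measure ℝ} [IsFiniteMeasure α] {a b : ℝ} {T : Finset ℝ}

lemma integrable_cont (hα : α (Icc a b ∪ T)ᶜ = 0) {f : ℝ → ℝ} (hf : Continuous f) :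
    Integrable f α := by
  have hK : IsCompact (Icc a b ∪ (T : Set ℝ)) := isCompact_Icc.union T.finite_toSet.isCompact
  have h1 : IntegrableOn f (Icc a b ∪ T) α := hf.continuousOn.integrableOn_compact hK
  rwa [IntegrableOn, Measure.restrict_eq_self_of_ae_mem (show ∀ᵐ x ∂α, x ∈ Icc a b ∪ (T : Set ℝ) from hα)] at h1

omit [IsFiniteMeasure α] in
lemma integral_vanish (hα : α (Icc a b ∪ T)ᶜ = 0) {f : ℝ → ℝ} (hf0 : ∀ x ∈ T, f x = 0) :
    ∫ x, f x ∂α = ∫ x in Icc a b, f x ∂α := by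
  refine (setIntegral_eq_integral_of_ae_compl_eq_zero ?_).symm
  have h1 : ∀ᵐ x ∂α, x ∈ Icc a b ∪ (T : Set ℝ) := hα
  filter_upwards [h1] with x hx hx'
  rcases hx with h | h
  · exact absurd h hx'
  · exact hf0 x h

omit [IsFiniteMeasure α] in
/-- upper bound: `JJ` of the reduced measure dominates -/
lemma JJ_le_rmv (hα : α (Icc a b ∪ T)ᶜ = 0) {p : ℝ} (hp : 0 < p) (m : ℕ) :
    JJ α p (m + T.card) ≤ JJ (rmv α (Icc a b) p (Lagrange.nodal T id)) p m := by
  refine le_JJ fun P hP hPn => ?_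
  set w : ℝ[X] := Lagrange.nodal T id with hw
  have hwm : w.Monic := Lagrange.nodal_monic
  have hwd : w.natDegree = T.card := Lagrange.natDegree_nodal
  have h1 : (w * P).Monic := hwm.mul hP
  have h2 : (w * P).natDegree = m + T.card := by
    rw [hwm.natDegree_mul hP, hwd, hPn, add_comm]
  refine (JJ_le h1 h2).trans (le_of_eq ?_)
  rw [J_rmv hp, J]
  refine integral_vanish hα fun x hx => ?_
  have : w.eval x = 0 := by
    have := Lagrange.eval_nodal_at_node (s := T) (v := (id : ℝ → ℝ)) (i := x) hx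
    simpa using this
  rw [eval_mul, this, zero_mul, abs_zero, Real.zero_rpow hp.ne']

/-- correcting polynomials -/
lemma exists_corr (hab : a < b) (hT : ∀ x ∈ T, x ∉ Icc a b) :
    ∃ (l : ℝ → ℕ → ℝ[X]) (S : ℕ → ℝ), Tendsto S atTop (𝓝 0) ∧ (∀ m, 0 ≤ S m) ∧
      (∀ x ∈ T, ∀ m, (l x m).natDegree < m + T.card) ∧
      (∀ x ∈ T, ∀ y ∈ T, ∀ m, (l x m).eval y = if x = y then 1 else 0) ∧
      ∀ y ∈ Icc a b, ∀ m, ∑ x ∈ T, |(l x m).eval y| ≤ S m := by
  classical
  have hB : ∀ x : ℝ, ∃ (B : ℝ[X]) (r : ℝ), x ∈ T → (B.natDegree ≤ 1 ∧ B.eval x = 1 ∧ 0 ≤ r ∧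
      r < 1 ∧ ∀ y ∈ Icc a b, |B.eval y| ≤ r) := by
    intro x
    by_cases hx : x ∈ T
    · obtain ⟨B, r, h⟩ := exists_lin hab (hT x hx)
      exact ⟨B, r, fun _ => h⟩
    · exact ⟨0, 0, fun h => absurd h hx⟩
  choose B r hBr using hB
  have hΛ : ∀ x : ℝ, ∃ Λ : ℝ, 0 ≤ Λ ∧ ∀ y ∈ Icc a b, |(Lagrange.basis T id x).eval y| ≤ Λ := by
    intro x
    have hc : ContinuousOn (fun y : ℝ => |(Lagrange.basis T id x).eval y|) (Icc a b) := by fun_prop
    obtain ⟨y₀, hy₀, hmax⟩ := isCompact_Icc.exists_isMaxOn (nonempty_Icc.2 hab.le) hc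
    exact ⟨_, abs_nonneg _, fun y hy => hmax hy⟩
  choose Λ hΛ0 hΛ1 using hΛ
  have hinj : Set.InjOn (id : ℝ → ℝ) T := injOn_id _
  refine ⟨fun x m => Lagrange.basis T id x * (B x) ^ m, fun m => ∑ x ∈ T, Λ x * (r x) ^ m, ?_, ?_,
    ?_, ?_, ?_⟩
  · have : Tendsto (fun m : ℕ => ∑ x ∈ T, Λ x * (r x) ^ m) atTop (𝓝 (∑ x ∈ T, Λ x * 0)) := by
      refine tendsto_finsetSum _ fun x hx => ?_
      obtain ⟨_, _, h3, h4, _⟩ := hBr x hx
      exact (tendsto_pow_atTop_nhds_zero_of_lt_one h3 h4).const_mul _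
    simpa using this
  · intro m
    refine Finset.sum_nonneg fun x hx => ?_
    obtain ⟨_, _, h3, h4, _⟩ := hBr x hx
    exact mul_nonneg (hΛ0 x) (pow_nonneg h3 m)
  · intro x hx m
    obtain ⟨h1, _⟩ := hBr x hx
    refine lt_of_le_of_lt natDegree_mul_le ?_
    rw [Lagrange.natDegree_basis hinj hx]
    have h2 : ((B x) ^ m).natDegree ≤ m * 1 := natDegree_pow_le_of_le m h1
    have h3 : 0 < T.card := Finset.card_pos.2 ⟨x, hx⟩
    omega
  · intro x hx y hy m
    obtain ⟨_, h2, _⟩ := hBr x hx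
    simp only [eval_mul, eval_pow]
    by_cases hxy : x = y
    · subst hxy
      have := Lagrange.eval_basis_self hinj hx
      simp only [id] at this
      rw [h2, one_pow, mul_one, if_pos rfl]
      exact this
    · have := Lagrange.eval_basis_of_ne (v := (id : ℝ → ℝ)) hxy hy
      simp only [id] at this
      rw [if_neg hxy]
      have h5 : (Lagrange.basis T id x).eval y = 0 := this
      rw [h5, zero_mul]
  · intro y hy m
    refine Finset.sum_le_sum fun x hx => ?_
    obtain ⟨_, _, h3, _, h5⟩ := hBr x hx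
    rw [eval_mul, eval_pow, abs_mul, abs_pow]
    exact mul_le_mul (hΛ1 x y hy) (pow_le_pow_left₀ (abs_nonneg _) (h5 y hy) m)
      (pow_nonneg (abs_nonneg _) m) (hΛ0 x)

/-- lower bound -/
lemma rmv_le_JJ (hab : a < b) (hT : ∀ x ∈ T, x ∉ Icc a b) (hT0 : ∀ x ∈ T, 0 < α.real {x})
    (hα : α (Icc a b ∪ T)ᶜ = 0) {p : ℝ} (hp : 0 < p) {η : ℝ} (hη : 0 < η) :
    ∃ m0 : ℕ, ∀ m, m0 ≤ m → JJ (rmv α (Icc a b) p (Lagrange.nodal T id)) p m ≤
      (1 + η) * JJ α p (m + T.card) := by
  classical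
  obtain ⟨l, S, hS, hS0, hl1, hl2, hl3⟩ := exists_corr (a := a) (b := b) (T := T) hab hT
  obtain ⟨c, hc, hcT⟩ := exists_min_mass T (fun x => α.real {x}) hT0
  -- choice of s
  obtain ⟨s, hs, hs1⟩ : ∃ s : ℝ, 0 < s ∧ (1 + s) ^ p ≤ 1 + η / 2 := by
    have h1 : Tendsto (fun s : ℝ => (1 + s) ^ p) (𝓝 0) (𝓝 1) := by
      have : ContinuousAt (fun s : ℝ => (1 + s) ^ p) 0 :=
        ContinuousAt.rpow_const (by fun_prop) (Or.inl (by norm_num))
      simpa using this.tendsto
    have e1 := (h1.eventually_lt_const (by linarith : (1 : ℝ) < 1 + η / 2)).filter_mono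
      (nhdsWithin_le_nhds (s := Ioi 0))
    obtain ⟨s, h2, h3⟩ := (e1.and self_mem_nhdsWithin).exists
    exact ⟨s, h3, h2.le⟩
  set K := Icc a b with hK
  set D := (1 + 1 / s) ^ p * (α.real K / c) with hD
  have hD0 : 0 ≤ D := by positivity
  have hlim : Tendsto (fun m => D * (S m) ^ p) atTop (𝓝 0) := by
    have h1 : Tendsto (fun m => (S m) ^ p) atTop (𝓝 ((0 : ℝ) ^ p)) :=
      hS.rpow_const (Or.inr hp.le)
    rw [Real.zero_rpow hp.ne'] at h1
    simpa using h1.const_mul D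
  obtain ⟨m0, hm0⟩ := eventually_atTop.1 (hlim.eventually_lt_const (half_pos hη))
  refine ⟨m0, fun m hm => ?_⟩
  have hη1 : 0 < 1 + η := by linarith
  rw [← div_le_iff₀' hη1]
  refine le_JJ fun P hP hPn => ?_
  rw [div_le_iff₀' hη1]
  set w : ℝ[X] := Lagrange.nodal T id with hw
  have hwm : w.Monic := Lagrange.nodal_monic
  have hwd : w.natDegree = T.card := Lagrange.natDegree_nodal
  -- corrected polynomial
  set Q : ℝ[X] := ∑ x ∈ T, C (P.eval x) * l x m with hQ
  have hPne : P ≠ 0 := hP.ne_zero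
  have hQdeg : Q.degree < P.degree := by
    rw [degree_eq_natDegree hPne, hPn, hQ]
    refine lt_of_le_of_lt (degree_sum_le _ _) ?_
    rw [Finset.sup_lt_iff (WithBot.bot_lt_coe _)]
    intro x hx
    refine lt_of_le_of_lt degree_le_natDegree ?_
    rw [Nat.cast_lt]
    exact lt_of_le_of_lt (natDegree_C_mul_le _ _) (hl1 x hx m)
  set P' := P - Q with hP'
  have hP'm : P'.Monic := hP.sub_of_left hQdeg
  have hP'n : P'.natDegree = m + T.card := by
    rw [hP', ← hPn]
    exact natDegree_eq_of_degree_eq (degree_sub_eq_left_of_degree_lt hQdeg)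
  have hP'0 : ∀ y ∈ T, P'.eval y = 0 := by
    intro y hy
    rw [hP', eval_sub, hQ, eval_finsetSum, Finset.sum_eq_single y]
    · rw [eval_mul, eval_C, hl2 y hy y hy m, if_pos rfl]
      ring
    · intro x hx hxy
      rw [eval_mul, eval_C, hl2 x hx y hy m, if_neg hxy, mul_zero]
    · intro h
      exact absurd hy h
  have hdvd : w ∣ P' := by
    rw [hw, Lagrange.nodal_eq]
    refine Finset.prod_dvd_of_coprime ?_ fun y hy => ?_
    · exact (pairwise_coprime_X_sub_C (s := (id : ℝ → ℝ)) Function.injective_id).set_pairwise _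
    · exact dvd_iff_isRoot.2 (hP'0 y hy)
  obtain ⟨R, hR⟩ := hdvd
  have hRm : R.Monic := hwm.of_mul_monic_left (by rw [← hR]; exact hP'm)
  have hRn : R.natDegree = m := by
    have h1 : (w * R).natDegree = w.natDegree + R.natDegree := hwm.natDegree_mul hRm
    rw [← hR, hP'n, hwd] at h1
    omega
  refine (JJ_le hRm hRn).trans ?_
  rw [J_rmv hp, ← hR]
  set A := J α p P with hA
  have hA0 : 0 ≤ A := J_nonneg α p P
  have hPc := continuous_absp p hp P
  have hPi : Integrable (fun x : ℝ => |P.eval x| ^ p) α := integrable_cont hα hPc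
  have hpt : ∀ x ∈ T, |P.eval x| ≤ (A / c) ^ (1 / p) := by
    intro x hx
    have h1 : α.real {x} * |P.eval x| ^ p ≤ A := by
      have h2 : ∫ y in {x}, |P.eval y| ^ p ∂α ≤ A :=
        setIntegral_le_integral hPi (Eventually.of_forall fun y => Real.rpow_nonneg (abs_nonneg _) _)
      rwa [integral_singleton, smul_eq_mul] at h2
    have h3 : c * |P.eval x| ^ p ≤ A :=
      (mul_le_mul_of_nonneg_right (hcT x hx) (Real.rpow_nonneg (abs_nonneg _) _)).trans h1
    have h4 : |P.eval x| ^ p ≤ A / c := by rw [le_div_iff₀ hc]; linarith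
    have h5 : |P.eval x| = (|P.eval x| ^ p) ^ (1 / p) := by
      rw [← Real.rpow_mul (abs_nonneg _), mul_one_div_cancel hp.ne', Real.rpow_one]
    rw [h5]
    exact Real.rpow_le_rpow (Real.rpow_nonneg (abs_nonneg _) _) h4 (by positivity)
  have hMx : 0 ≤ (A / c) ^ (1 / p) := by positivity
  have hQb : ∀ y ∈ K, |Q.eval y| ^ p ≤ A / c * (S m) ^ p := by
    intro y hy
    have h1 : |Q.eval y| ≤ (A / c) ^ (1 / p) * S m := by
      rw [hQ, eval_finsetSum]
      refine (Finset.abs_sum_le_sum_abs _ _).trans ?_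
      have h2 : ∑ x ∈ T, |(C (P.eval x) * l x m).eval y| ≤
          ∑ x ∈ T, (A / c) ^ (1 / p) * |(l x m).eval y| := by
        refine Finset.sum_le_sum fun x hx => ?_
        rw [eval_mul, eval_C, abs_mul]
        exact mul_le_mul_of_nonneg_right (hpt x hx) (abs_nonneg _)
      refine h2.trans ?_
      rw [← Finset.mul_sum]
      exact mul_le_mul_of_nonneg_left (hl3 y hy m) hMx
    have h3 := Real.rpow_le_rpow (abs_nonneg _) h1 hp.le
    rw [Real.mul_rpow hMx (hS0 m), ← Real.rpow_mul (by positivity), one_div,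
      inv_mul_cancel₀ hp.ne', Real.rpow_one] at h3
    exact h3
  have hSp : 0 ≤ (S m) ^ p := Real.rpow_nonneg (hS0 m) p
  have hmain : ∫ x in K, |P'.eval x| ^ p ∂α ≤
      ∫ x in K, ((1 + s) ^ p * |P.eval x| ^ p + (1 + 1 / s) ^ p * (A / c * (S m) ^ p)) ∂α := by
    refine setIntegral_mono_on (integrable_cont hα (continuous_absp p hp P')).integrableOn
      ((hPi.const_mul _).add (integrable_const _)).integrableOn measurableSet_Icc fun x hx => ?_
    have h1 := abs_add_rpow_le (x := P.eval x) (y := -Q.eval x) hp hs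
    rw [← sub_eq_add_neg, abs_neg, ← eval_sub] at h1
    refine h1.trans ?_
    have h2 : (1 + 1 / s) ^ p * |Q.eval x| ^ p ≤ (1 + 1 / s) ^ p * (A / c * (S m) ^ p) :=
      mul_le_mul_of_nonneg_left (hQb x hx) (by positivity)
    linarith
  rw [integral_add (hPi.const_mul _).integrableOn (integrable_const _).integrableOn,
    integral_const_mul, setIntegral_const, smul_eq_mul] at hmain
  have h1 : ∫ x in K, |P.eval x| ^ p ∂α ≤ A :=
    setIntegral_le_integral hPi (Eventually.of_forall fun y => Real.rpow_nonneg (abs_nonneg _) _)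
  have h2 : 0 ≤ ∫ x in K, |P.eval x| ^ p ∂α :=
    integral_nonneg fun y => Real.rpow_nonneg (abs_nonneg _) _
  have h3 : (1 + s) ^ p * ∫ x in K, |P.eval x| ^ p ∂α ≤ (1 + η / 2) * A :=
    mul_le_mul hs1 h1 h2 (by linarith)
  have h4 : α.real K * ((1 + 1 / s) ^ p * (A / c * (S m) ^ p)) = D * (S m) ^ p * A := by
    rw [hD]
    ring
  have h5 : D * (S m) ^ p * A ≤ η / 2 * A := mul_le_mul_of_nonneg_right (hm0 m hm).le hA0
  rw [h4] at hmain
  linarith

end remove

end Pool.Agent.E96
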