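import Pool.Agent.E96.BS

/-!
# L^p extremal polynomials: minimality, orthogonality, zeros, existence of minimisers
-/

open MeasureTheory Polynomial Set Filter Topology
open scoped Real ENNReal Polynomial ComplexConjugate

namespace Pool.Agent.E96

/-- `β` is not carried by a finite set. -/
def ND (β : Measure I) : Prop := ∀ s : Set I, s.Finite → 0 < β sᶜ

lemma integral_pos_of_ND {β : Measure I} [IsFiniteMeasure β] (hβ : ND β) {f : I → ℝ}
    (hf : Continuous f) (h0 : ∀ x, 0 ≤ f x) (hfin : {x | f x = 0}.Finite) : 0 < ∫ x, f x ∂β := by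
  rw [integral_pos_iff_support_of_nonneg h0 (integrable_of_continuous hf β)]
  have : Function.support f = {x | f x = 0}ᶜ := by
    ext x; simp
  rw [this]
  exact hβ _ hfin

lemma integral_sq_pos {β : Measure I} [IsFiniteMeasure β] (hβ : ND β) {t : ℝ[X]} (ht : t ≠ 0) :
    0 < ∫ x, sq t x ∂β := by
  refine integral_pos_of_ND hβ (continuous_sq t) (sq_nonneg' t) ?_
  refine (finite_zeros ht).subset fun x hx => ?_
  exact Complex.normSq_eq_zero.1 hx

lemma sq_add (t h : ℝ[X]) (s : ℝ) (x : I) :
    sq (t + C s * h) x = sq t x + 2 * s * (aeval (ez x) h * conj (aeval (ez x) t)).re +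
      s ^ 2 * sq h x := by
  simp only [sq, map_add, map_mul, aeval_C, Complex.coe_algebraMap, Complex.normSq_apply,
    Complex.add_re, Complex.add_im, Complex.mul_re, Complex.mul_im, Complex.ofReal_re,
    Complex.ofReal_im, Complex.conj_re, Complex.conj_im]
  ring

lemma sq_C_mul (s : ℝ) (h : ℝ[X]) (x : I) : sq (C s * h) x = s ^ 2 * sq h x := by
  simp only [sq, map_mul, aeval_C, Complex.coe_algebraMap, Complex.normSq_ofReal]
  ring

lemma sq_mul (p q : ℝ[X]) (x : I) : sq (p * q) x = sq p x * sq q x := by
  simp only [sq, map_mul]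

/-- `t` minimises the `L²(β)` norm on the circle among polynomials of degree at most `N` with
constant coefficient one. -/
structure IsMin (N : ℕ) (β : Measure I) (t : ℝ[X]) : Prop where
  deg : t.natDegree ≤ N
  coeff : t.coeff 0 = 1
  le : ∀ q : ℝ[X], q.natDegree ≤ N → q.coeff 0 = 1 → ∫ x, sq t x ∂β ≤ ∫ x, sq q x ∂β

lemma IsMin.orth {N : ℕ} {β : Measure I} [IsFiniteMeasure β] {t : ℝ[X]} (h : IsMin N β t) :
    Orth N β t := by
  intro q hq hq0
  set B := ∫ x, (aeval (ez x) q * conj (aeval (ez x) t)).re ∂β with hB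
  set D := ∫ x, sq q x ∂β with hD
  have hD0 : 0 ≤ D := integral_nonneg (sq_nonneg' q)
  have key : ∀ s : ℝ, 0 ≤ 2 * s * B + s ^ 2 * D := by
    intro s
    have h1 := h.le (t + C s * q) ?_ ?_
    · have h2 : ∫ x, sq (t + C s * q) x ∂β = ∫ x, sq t x ∂β + 2 * s * B + s ^ 2 * D := by
        simp only [sq_add]
        rw [integral_add, integral_add, integral_const_mul, integral_const_mul]
        · exact integrable_of_continuous (continuous_sq t) _
        · exact integrable_of_continuous ((continuous_re_mul q t).const_mul _) _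
        · exact integrable_of_continuous
            ((continuous_sq t).add ((continuous_re_mul q t).const_mul _)) _
        · exact integrable_of_continuous ((continuous_sq q).const_mul _) _
      rw [h2] at h1
      linarith
    · refine (natDegree_add_le _ _).trans (max_le h.deg ?_)
      exact (natDegree_C_mul_le _ _).trans hq
    · rw [coeff_add, coeff_C_mul, hq0, h.coeff]
      ring
  rcases eq_or_lt_of_le hD0 with hD1 | hD1
  · have h1 := key 1
    have h2 := key (-1)
    rw [← hD1] at h1 h2
    linarith
  · have h1 := key (-B / D)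
    have h2 : 2 * (-B / D) * B + (-B / D) ^ 2 * D = - (B ^ 2 / D) := by
      field_simp
      ring
    rw [h2] at h1
    have h3 : 0 ≤ B ^ 2 / D := by positivity
    have h4 : B ^ 2 / D = 0 := le_antisymm (by linarith) h3
    have h5 : B ^ 2 = 0 := by
      rcases div_eq_zero_iff.1 h4 with h | h
      · exact h
      · exact absurd h hD1.ne'
    exact pow_eq_zero_iff two_ne_zero |>.1 h5

lemma IsMin.of_orth {N : ℕ} {β : Measure I} [IsFiniteMeasure β] {t : ℝ[X]} (hN : t.natDegree ≤ N)
    (h0 : t.coeff 0 = 1) (h : Orth N β t) : IsMin N β t := by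
  refine ⟨hN, h0, fun q hq hq0 => ?_⟩
  have h1 : ∀ x, sq q x = sq t x + 2 * 1 * (aeval (ez x) (q - t) * conj (aeval (ez x) t)).re +
      1 ^ 2 * sq (q - t) x := by
    intro x
    rw [← sq_add]
    simp
  have h2 : ∫ x, sq q x ∂β = ∫ x, sq t x ∂β +
      2 * 1 * ∫ x, (aeval (ez x) (q - t) * conj (aeval (ez x) t)).re ∂β +
      1 ^ 2 * ∫ x, sq (q - t) x ∂β := by
    simp only [h1]
    rw [integral_add, integral_add, integral_const_mul, integral_const_mul]
    · exact integrable_of_continuous (continuous_sq t) _
    · exact integrable_of_continuous ((continuous_re_mul _ t).const_mul _) _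
    · exact integrable_of_continuous
        ((continuous_sq t).add ((continuous_re_mul _ t).const_mul _)) _
    · exact integrable_of_continuous ((continuous_sq _).const_mul _) _
  have h3 := h (q - t) ((natDegree_sub_le _ _).trans (max_le hq hN)) (by rw [coeff_sub, hq0, h0, sub_self])
  have h4 : 0 ≤ ∫ x, sq (q - t) x ∂β := integral_nonneg (sq_nonneg' _)
  rw [h2, h3]
  linarith

/-- Variation argument excluding zeros in the closed disc. -/
lemma IsMin.no_family {N : ℕ} {β : Measure I} [IsFiniteMeasure β] (hβ : ND β) {t : ℝ[X]}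
    (h : IsMin N β t) (c : I → ℝ) (hc : Continuous c) (hc0 : ∀ x, 0 ≤ c x)
    (H : ∀ s : ℝ, 0 < s → s ≤ 1 → ∃ q : ℝ[X], q.natDegree ≤ N ∧ q.coeff 0 = 1 ∧
      ∀ x, sq q x ≤ (1 - s) * sq t x + s ^ 2 * c x) : False := by
  have ht : t ≠ 0 := by
    rintro rfl
    simpa using h.coeff
  have hK := integral_sq_pos hβ ht
  set K := ∫ x, sq t x ∂β with hKd
  set D := ∫ x, c x ∂β with hD
  have hD0 : 0 ≤ D := integral_nonneg hc0
  have key : ∀ s : ℝ, 0 < s → s ≤ 1 → K ≤ s * D := by
    intro s hs hs1
    obtain ⟨q, hq, hq0, hqs⟩ := H s hs hs1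
    have h1 := h.le q hq hq0
    have h2 : ∫ x, sq q x ∂β ≤ ∫ x, ((1 - s) * sq t x + s ^ 2 * c x) ∂β := by
      refine integral_mono (integrable_of_continuous (continuous_sq q) _)
        (integrable_of_continuous ?_ _) hqs
      exact ((continuous_sq t).const_mul _).add (hc.const_mul _)
    rw [integral_add (integrable_of_continuous ((continuous_sq t).const_mul _) _)
      (integrable_of_continuous (hc.const_mul _) _), integral_const_mul, integral_const_mul] at h2
    have h3 : s * K ≤ s * (s * D) := by nlinarith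
    exact le_of_mul_le_mul_left h3 hs
  set s := min 1 (K / (2 * (D + 1))) with hs
  have hs0 : 0 < s := lt_min one_pos (by positivity)
  have h1 := key s hs0 (min_le_left _ _)
  have h2 : s ≤ K / (2 * (D + 1)) := min_le_right _ _
  have h3 : s * D ≤ K / (2 * (D + 1)) * (D + 1) := by
    refine mul_le_mul h2 (by linarith) hD0 (by positivity)
  have h4 : K / (2 * (D + 1)) * (D + 1) = K / 2 := by field_simp
  linarith

lemma normSq_one_sub (u z : ℂ) (hz : Complex.normSq z = 1) (hu : 1 ≤ Complex.normSq u) (s : ℝ)
    (hs0 : 0 ≤ s) (hs1 : s ≤ 1) :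
    Complex.normSq (1 - ((1 - s : ℝ) : ℂ) * u * z) ≤
      (1 - s) * Complex.normSq (1 - u * z) + s ^ 2 := by
  have e1 : ∀ w : ℂ, Complex.normSq (1 - w) = 1 - 2 * w.re + Complex.normSq w := by
    intro w
    rw [Complex.normSq_apply, Complex.normSq_apply]
    simp only [Complex.sub_re, Complex.one_re, Complex.sub_im, Complex.one_im]
    ring
  rw [mul_assoc, e1, e1, Complex.re_ofReal_mul, map_mul, Complex.normSq_ofReal, map_mul, hz, mul_one]
  nlinarith [mul_nonneg (mul_nonneg hs0 (sub_nonneg.2 hs1)) (sub_nonneg.2 hu)]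

/-- Minimal polynomials have no zero in the closed disc. -/
lemma IsMin.zf {N : ℕ} {β : Measure I} [IsFiniteMeasure β] (hβ : ND β) {t : ℝ[X]}
    (h : IsMin N β t) : ZF t := by
  intro z₀ hz₀ hzero
  have ht : t ≠ 0 := by
    rintro rfl
    simpa using h.coeff
  have hz0 : z₀ ≠ 0 := by
    rintro rfl
    have : aeval (0 : ℂ) t = ((t.coeff 0 : ℝ) : ℂ) := by
      rw [aeval_def, eval₂_at_zero]; simp
    rw [this, h.coeff] at hzero
    simp at hzero
  set u := z₀⁻¹ with hu
  have hu1 : 1 ≤ Complex.normSq u := by
    rw [hu, map_inv₀]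
    refine (one_le_inv₀ (Complex.normSq_pos.2 hz0)).2 ?_
    rw [Complex.normSq_eq_norm_sq]
    have := norm_nonneg z₀
    nlinarith
  by_cases him : z₀.im = 0
  · -- real zero
    set a := z₀.re with ha
    have hza : z₀ = (a : ℂ) := by
      apply Complex.ext <;> simp [ha, him]
    have ha0 : a ≠ 0 := by
      intro h0
      apply hz0
      rw [hza, h0]
      simp
    have hroot : t.IsRoot a := by
      rw [hza] at hzero
      have := Polynomial.aeval_algebraMap_apply_eq_algebraMap_eval (A := ℂ) a t
      rw [Complex.coe_algebraMap] at this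
      rw [this] at hzero
      exact_mod_cast hzero
    obtain ⟨q, hq⟩ := dvd_iff_isRoot.2 hroot
    have hq0 : -a * q.coeff 0 = 1 := by
      have := h.coeff
      rw [hq, mul_coeff_zero] at this
      simpa using this
    have hqne : q ≠ 0 := by
      rintro rfl
      simp at hq0
    have hdeg : q.natDegree + 1 ≤ N := by
      have := h.deg
      rw [hq, natDegree_mul (X_sub_C_ne_zero a) hqne, natDegree_X_sub_C] at this
      omega
    refine h.no_family hβ (fun x => a ^ 2 * sq q x) ((continuous_sq q).const_mul _)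
      (fun x => mul_nonneg (sq_nonneg a) (sq_nonneg' q x)) fun s hs hs1 => ?_
    refine ⟨(C (1 - s) * X - C a) * q, ?_, ?_, fun x => ?_⟩
    · refine natDegree_mul_le.trans ?_
      have : (C (1 - s) * X - C a : ℝ[X]).natDegree ≤ 1 := by compute_degree
      omega
    · rw [mul_coeff_zero]
      simpa using hq0
    · rw [hq, sq_mul, sq_mul]
      have h1 := normSq_one_sub u (ez x) (normSq_ez x) hu1 s hs.le hs1
      have e1 : ∀ r : ℝ, sq (C r * X - C a) x = a ^ 2 * Complex.normSq (1 - (r : ℂ) * u * ez x) := by
        intro r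
        have : aeval (ez x) (C r * X - C a) = -(a : ℂ) * (1 - (r : ℂ) * u * ez x) := by
          rw [hu, hza]
          have : (a : ℂ) ≠ 0 := by exact_mod_cast ha0
          simp only [map_sub, map_mul, aeval_C, aeval_X, Complex.coe_algebraMap]
          field_simp
          ring
        rw [sq, this, map_mul, Complex.normSq_neg, Complex.normSq_ofReal]
        ring
      have e2 : sq (X - C a) x = a ^ 2 * Complex.normSq (1 - u * ez x) := by
        have := e1 1
        simpa using this
      rw [e1, e2]
      have h2 : 0 ≤ sq q x := sq_nonneg' q x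
      have h3 : 0 ≤ a ^ 2 * sq q x := mul_nonneg (sq_nonneg a) h2
      nlinarith [mul_le_mul_of_nonneg_left h1 h3]
  · -- non-real zero
    obtain ⟨q, hq⟩ := quadratic_dvd_of_aeval_eq_zero_im_ne_zero t hzero him
    set r2 := ‖z₀‖ ^ 2 with hr2
    have hr2pos : 0 < r2 := by
      have := norm_pos_iff.2 hz0
      positivity
    have hq0 : r2 * q.coeff 0 = 1 := by
      have := h.coeff
      rw [hq, mul_coeff_zero] at this
      simpa using this
    have hqne : q ≠ 0 := by
      rintro rfl
      simp at hq0
    have hquad : (X ^ 2 - C (2 * z₀.re) * X + C r2 : ℝ[X]).natDegree = 2 := by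
      compute_degree!
    have hquadne : (X ^ 2 - C (2 * z₀.re) * X + C r2 : ℝ[X]) ≠ 0 := by
      intro h0
      rw [h0] at hquad
      simp at hquad
    have hdeg : q.natDegree + 2 ≤ N := by
      have := h.deg
      rw [hq, natDegree_mul hquadne hqne, hquad] at this
      omega
    have hu1' : 1 ≤ Complex.normSq (conj u) := by rw [Complex.normSq_conj]; exact hu1
    have e1 : ∀ (r : ℝ) (x : I), sq (C (r ^ 2) * X ^ 2 - C (r * (2 * z₀.re)) * X + C r2) x =
        r2 ^ 2 * (Complex.normSq (1 - (r : ℂ) * u * ez x) *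
          Complex.normSq (1 - (r : ℂ) * conj u * ez x)) := by
      intro r x
      have e3 : aeval (ez x) (C (r ^ 2) * X ^ 2 - C (r * (2 * z₀.re)) * X + C r2) =
          (r2 : ℂ) * ((1 - (r : ℂ) * u * ez x) * (1 - (r : ℂ) * conj u * ez x)) := by
        have h1 : (r2 : ℂ) = z₀ * conj z₀ := by
          rw [Complex.mul_conj, Complex.normSq_eq_norm_sq]
        have h2 : (2 * z₀.re : ℂ) = z₀ + conj z₀ := by
          rw [Complex.add_conj]
          push_cast
          ring
        have hcz : conj z₀ ≠ 0 := by simpa using hz0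
        simp only [map_add, map_sub, map_mul, map_pow, aeval_C, aeval_X, Complex.coe_algebraMap,
          Complex.ofReal_mul, Complex.ofReal_ofNat, Complex.ofReal_pow]
        rw [h1, h2, hu, map_inv₀]
        generalize conj z₀ = w at hcz ⊢
        field_simp
        ring
      rw [sq, e3, map_mul, map_mul, Complex.normSq_ofReal]
      ring
    refine h.no_family hβ
      (fun x => r2 ^ 2 * (sq q x * (Complex.normSq (1 - u * ez x) +
        Complex.normSq (1 - conj u * ez x) + 1))) ?_ ?_ fun s hs hs1 => ?_
    · have hez := continuous_ez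
      have hsq := continuous_sq q
      have hns := Complex.continuous_normSq
      refine Continuous.mul continuous_const (hsq.mul ?_)
      refine Continuous.add (Continuous.add (hns.comp ?_) (hns.comp ?_)) continuous_const
      · fun_prop
      · fun_prop
    · intro x
      have h1 := Complex.normSq_nonneg (1 - u * ez x)
      have h2 := Complex.normSq_nonneg (1 - conj u * ez x)
      have h3 := sq_nonneg' q x
      positivity
    · refine ⟨(C ((1 - s) ^ 2) * X ^ 2 - C ((1 - s) * (2 * z₀.re)) * X + C r2) * q, ?_, ?_,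
        fun x => ?_⟩
      · refine natDegree_mul_le.trans ?_
        have : (C ((1 - s) ^ 2) * X ^ 2 - C ((1 - s) * (2 * z₀.re)) * X + C r2 : ℝ[X]).natDegree ≤ 2 := by
          compute_degree
        omega
      · rw [mul_coeff_zero]
        simpa using hq0
      · have e2 : sq t x = r2 ^ 2 * (Complex.normSq (1 - u * ez x) *
            Complex.normSq (1 - conj u * ez x)) * sq q x := by
          have := e1 1 x
          simp only [one_pow, C_1, one_mul, Complex.ofReal_one] at this
          rw [hq, sq_mul, this]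
        rw [sq_mul, e1, e2]
        have h1 := normSq_one_sub u (ez x) (normSq_ez x) hu1 s hs.le hs1
        have h2 := normSq_one_sub (conj u) (ez x) (normSq_ez x) hu1' s hs.le hs1
        set A := Complex.normSq (1 - u * ez x)
        set B := Complex.normSq (1 - conj u * ez x)
        set A' := Complex.normSq (1 - ((1 - s : ℝ) : ℂ) * u * ez x)
        set B' := Complex.normSq (1 - ((1 - s : ℝ) : ℂ) * conj u * ez x)
        have hA : 0 ≤ A := Complex.normSq_nonneg _
        have hB : 0 ≤ B := Complex.normSq_nonneg _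
        have hA' : 0 ≤ A' := Complex.normSq_nonneg _
        have hB' : 0 ≤ B' := Complex.normSq_nonneg _
        have h3 : A' * B' ≤ (1 - s) * (A * B) + s ^ 2 * (A + B + 1) := by
          have h4 : A' * B' ≤ ((1 - s) * A + s ^ 2) * ((1 - s) * B + s ^ 2) :=
            mul_le_mul h1 h2 hB' (hA'.trans h1)
          refine h4.trans ?_
          have hs' : 0 ≤ 1 - s := by linarith
          nlinarith [mul_nonneg (mul_nonneg hs' hs.le) (mul_nonneg hA hB),
            mul_nonneg (mul_nonneg hs.le (sq_nonneg s)) (add_nonneg hA hB),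
            mul_nonneg (mul_nonneg hs' (sq_nonneg s)) (add_nonneg hA hB),
            mul_nonneg (sq_nonneg s) (mul_nonneg hs' (by linarith : 0 ≤ 1 + s))]
        have h5 : 0 ≤ r2 ^ 2 * sq q x := mul_nonneg (sq_nonneg _) (sq_nonneg' q x)
        nlinarith [mul_le_mul_of_nonneg_left h3 h5]

end Pool.Agent.E96
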