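import Pool.Agent.E96.Basic

/-!
# L^p extremal polynomials: polynomials on the circle and on `[-1,1]`, equidistribution
-/

open MeasureTheory Polynomial Set Filter Topology
open scoped Real ENNReal Polynomial ComplexConjugate

namespace Pool.Agent.E96

lemma aeval_reflect {N : ℕ} {t : ℝ[X]} (h : t.natDegree ≤ N) {z : ℂ} (hz : z ≠ 0) :
    aeval z (reflect N t) = z ^ N * aeval z⁻¹ t := by
  have hz' : z⁻¹ ≠ 0 := inv_ne_zero hz
  let _ : Invertible (z⁻¹) := invertibleOfNonzero hz'
  have h1 := eval₂_reflect_mul_pow (algebraMap ℝ ℂ) (z⁻¹) N t h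
  have h2 : ⅟(z⁻¹) = z := by rw [invOf_eq_inv, inv_inv]
  rw [h2] at h1
  rw [aeval_def, aeval_def, ← h1, mul_comm, mul_assoc, ← mul_pow, inv_mul_cancel₀ hz, one_pow,
    mul_one]

lemma aeval_reflect_ez {N : ℕ} {t : ℝ[X]} (h : t.natDegree ≤ N) (x : I) :
    aeval (ez x) (reflect N t) = (ez x) ^ N * conj (aeval (ez x) t) := by
  rw [aeval_reflect h (ez_ne_zero x), ← conj_ez, aeval_conj']

lemma natDegree_reflect_le' {N : ℕ} {t : ℝ[X]} (h : t.natDegree ≤ N) :
    (reflect N t).natDegree ≤ N := by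
  have := natDegree_reflect_le (N := N) (p := t)
  exact this.trans (max_le le_rfl h)

lemma coeff_zero_reflect (N : ℕ) (t : ℝ[X]) : (reflect N t).coeff 0 = t.coeff N := by
  rw [coeff_reflect, revAt_zero]

/-- Chebyshev polynomials on the unit circle. -/
lemma T_eval_re {w : ℂ} (hw : ‖w‖ = 1) (m : ℤ) : (Chebyshev.T ℝ m).eval w.re = (w ^ m).re := by
  have h1 : w = Complex.exp (w.arg * Complex.I) := by
    have := Complex.norm_mul_exp_arg_mul_I w
    rw [hw] at this
    simpa using this.symm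
  have h2 : w.re = Real.cos w.arg := by
    conv_lhs => rw [h1]
    rw [Complex.exp_ofReal_mul_I_re]
  rw [h2, Chebyshev.T_real_cos]
  conv_rhs => rw [h1]
  rw [← Complex.exp_int_mul]
  have : (m : ℂ) * (w.arg * Complex.I) = ((m * w.arg : ℝ) : ℂ) * Complex.I := by push_cast; ring
  rw [this, Complex.exp_ofReal_mul_I_re]

/-- A subspace of `ℝ[X]` containing all Chebyshev polynomials is everything. -/
lemma cheb_span (V : Submodule ℝ ℝ[X]) (h : ∀ j : ℕ, Chebyshev.T ℝ j ∈ V) (F : ℝ[X]) : F ∈ V := by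
  set W : Submodule ℝ ℝ[X] := Submodule.span ℝ (Set.range fun j : ℕ => Chebyshev.T ℝ (j : ℤ)) with hW
  have hWV : W ≤ V := by
    rw [hW, Submodule.span_le]
    rintro _ ⟨j, rfl⟩
    exact h j
  have hT : ∀ j : ℤ, Chebyshev.T ℝ j ∈ W := by
    intro j
    rw [← Chebyshev.T_natAbs]
    exact Submodule.subset_span ⟨j.natAbs, rfl⟩
  have hX : ∀ G ∈ W, X * G ∈ W := by
    intro G hG
    induction hG using Submodule.span_induction with
    | mem G hG =>
      obtain ⟨j, rfl⟩ := hG
      have h1 := Chebyshev.T_add_one ℝ (j : ℤ)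
      have h2 : X * Chebyshev.T ℝ (j : ℤ) = (2⁻¹ : ℝ) • (Chebyshev.T ℝ ((j : ℤ) + 1) + Chebyshev.T ℝ ((j : ℤ) - 1)) := by
        rw [h1, smul_eq_C_mul]
        have : (C (2⁻¹ : ℝ) : ℝ[X]) * 2 = 1 := by
          rw [show (2 : ℝ[X]) = C 2 from rfl, ← C_mul]
          norm_num
        linear_combination (-(X * Chebyshev.T ℝ (j : ℤ))) * this
      simp only [h2]
      exact W.smul_mem _ (W.add_mem (hT _) (hT _))
    | zero => simp
    | add G H _ _ hG hH => rw [mul_add]; exact W.add_mem hG hH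
    | smul a G _ hG => rw [mul_smul_comm]; exact W.smul_mem _ hG
  have hpow : ∀ n : ℕ, (X ^ n : ℝ[X]) ∈ W := by
    intro n
    induction n with
    | zero => simpa using hT 0
    | succ n ih => rw [pow_succ']; exact hX _ ih
  apply hWV
  rw [F.as_sum_range_C_mul_X_pow]
  refine W.sum_mem fun i _ => ?_
  rw [← smul_eq_C_mul]
  exact W.smul_mem _ (hpow i)

/-- `z ↦ z^m g((z+1/z)/2)` as a polynomial. -/
noncomputable def lift (m : ℕ) (g : ℝ[X]) : ℝ[X] :=
  ∑ j ∈ Finset.range (m + 1), C (g.coeff j / 2 ^ j) * X ^ (m - j) * (X ^ 2 + 1) ^ j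

lemma aeval_lift {m : ℕ} {g : ℝ[X]} (hg : g.natDegree ≤ m) {z : ℂ} (hz : z ≠ 0) :
    aeval z (lift m g) = z ^ m * aeval ((z + z⁻¹) / 2) g := by
  have hg' : g.natDegree < m + 1 := Nat.lt_succ_of_le hg
  rw [lift, map_sum, aeval_eq_sum_range' hg', Finset.mul_sum]
  refine Finset.sum_congr rfl fun j hj => ?_
  have hj' : j ≤ m := Nat.lt_succ_iff.1 (Finset.mem_range.1 hj)
  simp only [map_mul, aeval_C, map_pow, aeval_X, map_add, map_one, Complex.coe_algebraMap,
    Algebra.smul_def, Complex.ofReal_div, Complex.ofReal_pow, Complex.ofReal_ofNat]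
  have h1 : (z ^ 2 + 1) ^ j = z ^ j * (z + z⁻¹) ^ j := by
    rw [← mul_pow]; congr 1; field_simp
  have h2 : z ^ (m - j) * z ^ j = z ^ m := by rw [← pow_add, Nat.sub_add_cancel hj']
  rw [h1, div_pow, ← h2]
  ring

lemma aeval_lift_ez {m : ℕ} {g : ℝ[X]} (hg : g.natDegree ≤ m) (x : I) :
    aeval (ez x) (lift m g) = (ez x) ^ m * ((g.eval (x : ℝ) : ℝ) : ℂ) := by
  rw [aeval_lift hg (ez_ne_zero x), ez_add_inv]
  congr 1
  have : (2 * ((x : ℝ) : ℂ)) / 2 = ((x : ℝ) : ℂ) := by ring
  rw [this]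
  have := Polynomial.aeval_algebraMap_apply_eq_algebraMap_eval (A := ℂ) (x : ℝ) g
  simpa using this

lemma coeff_lift_zero (m : ℕ) (g : ℝ[X]) : (lift m g).coeff 0 = g.coeff m / 2 ^ m := by
  rw [coeff_zero_eq_eval_zero, lift, eval_finsetSum, Finset.sum_eq_single m]
  · simp
  · intro j hj hjm
    have : m - j ≠ 0 := by
      have := Finset.mem_range.1 hj
      omega
    simp [this]
  · simp

lemma natDegree_lift_le (m : ℕ) (g : ℝ[X]) : (lift m g).natDegree ≤ 2 * m := by
  unfold lift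
  refine natDegree_sum_le_of_forall_le _ _ fun j hj => ?_
  have hj' : j ≤ m := Nat.lt_succ_iff.1 (Finset.mem_range.1 hj)
  have h1 : ((X ^ 2 + 1 : ℝ[X]) ^ j).natDegree ≤ 2 * j := by
    refine natDegree_pow_le.trans ?_
    have : (X ^ 2 + 1 : ℝ[X]).natDegree ≤ 2 := by
      compute_degree
    nlinarith
  have h2 : (C (g.coeff j / 2 ^ j) * X ^ (m - j) : ℝ[X]).natDegree ≤ m - j :=
    natDegree_C_mul_X_pow_le _ _
  refine natDegree_mul_le.trans ?_
  omega

/-- The unimodular function `z^(N+1) conj t / t`. -/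
noncomputable def th (N : ℕ) (t : ℝ[X]) (x : I) : ℂ :=
  (ez x) ^ (N + 1) * conj (aeval (ez x) t) / aeval (ez x) t

/-- Real part of `th`. -/
noncomputable def yy (N : ℕ) (t : ℝ[X]) (x : I) : ℝ := (th N t x).re

/-- squared modulus of `t` on the circle -/
noncomputable def sq (t : ℝ[X]) (x : I) : ℝ := Complex.normSq (aeval (ez x) t)

lemma sq_eq (t : ℝ[X]) (x : I) : sq t x = ‖aeval (ez x) t‖ ^ 2 := by
  rw [sq, Complex.normSq_eq_norm_sq]

lemma sq_nonneg' (t : ℝ[X]) (x : I) : 0 ≤ sq t x := Complex.normSq_nonneg _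

lemma continuous_aeval_ez (t : ℝ[X]) : Continuous fun x : I => aeval (ez x) t :=
  (Polynomial.continuous_aeval t).comp continuous_ez

lemma continuous_sq (t : ℝ[X]) : Continuous (sq t) :=
  Complex.continuous_normSq.comp (continuous_aeval_ez t)

lemma ZF.ne {t : ℝ[X]} (ht : ZF t) (x : I) : aeval (ez x) t ≠ 0 := ht _ (norm_ez x).le

lemma ZF.sq_pos {t : ℝ[X]} (ht : ZF t) (x : I) : 0 < sq t x := Complex.normSq_pos.2 (ht.ne x)

lemma norm_th {N : ℕ} {t : ℝ[X]} (ht : ZF t) (x : I) : ‖th N t x‖ = 1 := by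
  rw [th, norm_div, norm_mul, norm_pow, norm_ez, one_pow, one_mul, Complex.norm_conj]
  exact div_self (norm_ne_zero_iff.2 (ht.ne x))

lemma continuous_th (N : ℕ) {t : ℝ[X]} (ht : ZF t) : Continuous (th N t) := by
  unfold th
  refine Continuous.div ?_ (continuous_aeval_ez t) ht.ne
  exact (continuous_ez.pow _).mul (Complex.continuous_conj.comp (continuous_aeval_ez t))

lemma continuous_yy (N : ℕ) {t : ℝ[X]} (ht : ZF t) : Continuous (yy N t) :=
  Complex.continuous_re.comp (continuous_th N ht)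

lemma yy_mem {N : ℕ} {t : ℝ[X]} (ht : ZF t) (x : I) : yy N t x ∈ Icc (-1 : ℝ) 1 := by
  have h := Complex.abs_re_le_norm (th N t x)
  rw [norm_th ht] at h
  exact abs_le.1 h

lemma th_eq {N : ℕ} {t : ℝ[X]} (h : t.natDegree ≤ N) (x : I) :
    th N t x = aeval (ez x) (X * reflect N t) / aeval (ez x) t := by
  rw [th, map_mul, aeval_X, aeval_reflect_ez h]
  ring

lemma integrable_of_continuous {E : Type*} [NormedAddCommGroup E] {f : I → E} (hf : Continuous f)
    (μ : Measure I) [IsFiniteMeasure μ] : Integrable f μ :=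
  hf.integrable_of_hasCompactSupport (HasCompactSupport.of_compactSpace f)

/-- Moments of `th` against `g / |t|^2`. -/
lemma integral_th_pow {N : ℕ} {t g : ℝ[X]} (ht : ZF t) (hN : t.natDegree ≤ N)
    (hg : g.natDegree ≤ N) {j : ℕ} (hj : 1 ≤ j) :
    ∫ x, g.eval (x : ℝ) / sq t x * ((th N t x) ^ j).re ∂rho = 0 := by
  have h := integral_ratio (lift N g * X ^ j * (reflect N t) ^ (j - 1)) t (j + 1) ht
  have h0 : (lift N g * X ^ j * (reflect N t) ^ (j - 1)).coeff 0 = 0 := by
    rw [coeff_zero_eq_eval_zero]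
    simp [show j ≠ 0 by omega]
  rw [h0, zero_div] at h
  rw [← h]
  refine integral_congr_ae (Eventually.of_forall fun x => ?_)
  simp only
  have e1 : ((sq t x : ℝ) : ℂ) = aeval (ez x) t * conj (aeval (ez x) t) := by
    rw [sq, Complex.mul_conj]
  have hne := ht.ne x
  have hnec : conj (aeval (ez x) t) ≠ 0 := by simpa using hne
  have key : ((g.eval (x : ℝ) / sq t x : ℝ) : ℂ) * (th N t x) ^ j
      = aeval (ez x) (lift N g * X ^ j * (reflect N t) ^ (j - 1)) / (aeval (ez x) t) ^ (j + 1) := by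
    obtain ⟨i, rfl⟩ : ∃ i, j = i + 1 := ⟨j - 1, by omega⟩
    rw [map_mul, map_mul, map_pow, map_pow, aeval_X, aeval_lift_ez hg, aeval_reflect_ez hN, th,
      Complex.ofReal_div, e1]
    simp only [Nat.add_sub_cancel]
    generalize aeval (ez x) t = a at hne hnec ⊢
    generalize (starRingEnd ℂ) a = b at hnec ⊢
    rw [div_pow, div_mul_div_comm, div_eq_div_iff (by positivity) (by positivity)]
    ring
  rw [← key, Complex.re_ofReal_mul]

/-- A weight under which all positive Chebyshev moments of `y` vanish. -/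
lemma integral_comp_of_moments {w y : I → ℝ} (hw : Continuous w) (hy : Continuous y)
    (hy1 : ∀ x, y x ∈ Icc (-1 : ℝ) 1)
    (h : ∀ j : ℕ, 1 ≤ j → ∫ x, w x * (Chebyshev.T ℝ (j : ℤ)).eval (y x) ∂rho = 0)
    (F : ℝ → ℝ) (hF : Continuous F) :
    ∫ x, w x * F (y x) ∂rho = (∫ x, w x ∂rho) * ∫ x : I, F (x : ℝ) ∂rho := by
  have hpoly : ∀ q : ℝ[X], ∫ x, w x * q.eval (y x) ∂rho = (∫ x, w x ∂rho) * ∫ x : I, q.eval (x : ℝ) ∂rho := by
    intro q
    let V : Submodule ℝ ℝ[X] :=
      { carrier := {F | ∫ x, w x * F.eval (y x) ∂rho = (∫ x, w x ∂rho) * ∫ x : I, F.eval (x : ℝ) ∂rho}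
        zero_mem' := by simp
        add_mem' := by
          intro F G hF hG
          simp only [Set.mem_ofPred_eq] at hF hG ⊢
          simp only [eval_add, mul_add]
          rw [integral_add, integral_add, hF, hG]
          · ring
          · exact integrable_of_continuous (by fun_prop) _
          · exact integrable_of_continuous (by fun_prop) _
          · exact integrable_of_continuous (hw.mul (by fun_prop)) _
          · exact integrable_of_continuous (hw.mul (by fun_prop)) _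
        smul_mem' := by
          intro a F hF
          simp only [Set.mem_ofPred_eq] at hF ⊢
          simp only [eval_smul, smul_eq_mul]
          rw [integral_const_mul]
          have : ∀ x : I, w x * (a * F.eval (y x)) = a * (w x * F.eval (y x)) := fun x => by ring
          simp only [this]
          rw [integral_const_mul, hF]
          ring }
    refine cheb_span V (fun j => ?_) q
    change ∫ x, w x * (Chebyshev.T ℝ j).eval (y x) ∂rho =
          (∫ x, w x ∂rho) * ∫ x : I, (Chebyshev.T ℝ j).eval (x : ℝ) ∂rho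
    rcases Nat.eq_zero_or_pos j with rfl | hj
    · simp
    · have h1 : ∫ x : I, (Chebyshev.T ℝ (j : ℤ)).eval (x : ℝ) ∂rho = 0 := by
        have h2 := integral_ratio (X ^ j) 1 0 (fun z _ => by simp)
        have h3 : (X ^ j : ℝ[X]).coeff 0 = 0 := by
          rw [coeff_zero_eq_eval_zero]; simp [hj.ne']
        rw [h3, zero_div] at h2
        rw [← h2]
        refine integral_congr_ae (Eventually.of_forall fun x => ?_)
        simp only [map_pow, aeval_X, pow_zero, div_one]
        rw [← ez_re x, T_eval_re (norm_ez x), zpow_natCast]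
      rw [h1, mul_zero]
      exact h j hj
  set m := ∫ x, w x ∂rho with hm
  set m' := ∫ x, |w x| ∂rho with hm'
  have hm0 : 0 ≤ m' := integral_nonneg fun x => abs_nonneg _
  have hmm : |m| ≤ m' := abs_integral_le_integral_abs
  by_contra hne
  have hpos : 0 < |∫ x, w x * F (y x) ∂rho - m * ∫ x : I, F (x : ℝ) ∂rho| :=
    abs_pos.2 (sub_ne_zero.2 hne)
  set D := |∫ x, w x * F (y x) ∂rho - m * ∫ x : I, F (x : ℝ) ∂rho| with hD
  obtain ⟨ε, hε, hεD⟩ : ∃ ε : ℝ, 0 < ε ∧ 2 * m' * ε < D := by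
    refine ⟨D / (4 * (m' + 1)), by positivity, ?_⟩
    have : 2 * m' * (D / (4 * (m' + 1))) = D * (m' / (2 * (m' + 1))) := by field_simp; ring
    rw [this]
    have h1 : m' / (2 * (m' + 1)) < 1 := by rw [div_lt_one (by positivity)]; linarith
    nlinarith
  obtain ⟨q, hq⟩ := exists_polynomial_near_continuousMap (-1) 1
    (⟨fun x => F x, by fun_prop⟩ : C(Icc (-1 : ℝ) 1, ℝ)) ε hε
  have hq' : ∀ y ∈ Icc (-1 : ℝ) 1, |q.eval y - F y| ≤ ε := by
    intro y hy
    have := ContinuousMap.norm_coe_le_norm (q.toContinuousMapOn (Icc (-1 : ℝ) 1) -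
      (⟨fun x => F x, by fun_prop⟩ : C(Icc (-1 : ℝ) 1, ℝ))) ⟨y, hy⟩
    rw [Real.norm_eq_abs] at this
    exact (by simpa using this : |q.eval y - F y| ≤ _).trans hq.le
  have hcF : Continuous fun x => w x * F (y x) := hw.mul (by fun_prop)
  have hcq : Continuous fun x => w x * q.eval (y x) := hw.mul (by fun_prop)
  have e1 : |∫ x, w x * F (y x) ∂rho - ∫ x, w x * q.eval (y x) ∂rho| ≤ m' * ε := by
    rw [← integral_sub (integrable_of_continuous hcF _) (integrable_of_continuous hcq _)]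
    refine (abs_integral_le_integral_abs).trans ?_
    have : m' * ε = ∫ x, |w x| * ε ∂rho := by rw [integral_mul_const]
    rw [this]
    refine integral_mono (integrable_of_continuous ?_ _)
      (integrable_of_continuous (hw.abs.mul continuous_const) _) ?_
    · exact (hcF.sub hcq).abs
    · intro x
      simp only
      rw [← mul_sub, abs_mul, abs_sub_comm]
      exact mul_le_mul_of_nonneg_left (hq' _ (hy1 x)) (abs_nonneg _)
  have e2 : |∫ x : I, F (x : ℝ) ∂rho - ∫ x : I, q.eval (x : ℝ) ∂rho| ≤ ε := by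
    rw [← integral_sub (integrable_of_continuous (by fun_prop) _)
      (integrable_of_continuous (by fun_prop) _)]
    refine (abs_integral_le_integral_abs).trans ?_
    have : ε = ∫ _x : I, ε ∂rho := by simp
    rw [this]
    refine integral_mono (integrable_of_continuous (by fun_prop) _)
      (integrable_of_continuous (by fun_prop) _) ?_
    intro x
    simp only
    rw [abs_sub_comm]
    exact hq' _ x.2
  have e3 : D ≤ m' * ε + m' * ε := by
    have : ∫ x, w x * F (y x) ∂rho - m * ∫ x : I, F (x : ℝ) ∂rho =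
      (∫ x, w x * F (y x) ∂rho - ∫ x, w x * q.eval (y x) ∂rho) -
      m * (∫ x : I, F (x : ℝ) ∂rho - ∫ x : I, q.eval (x : ℝ) ∂rho) := by
      rw [hpoly]; ring
    rw [hD, this]
    refine (abs_sub _ _).trans ?_
    refine add_le_add e1 ?_
    rw [abs_mul]
    exact mul_le_mul hmm e2 (abs_nonneg _) hm0
  linarith

/-- Continuous functions of `yy`, with the weight `g/|t|^2`. -/
lemma integral_cont_yy {N : ℕ} {t g : ℝ[X]} (ht : ZF t) (hN : t.natDegree ≤ N)
    (hg : g.natDegree ≤ N) (F : ℝ → ℝ) (hF : Continuous F) :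
    ∫ x, g.eval (x : ℝ) / sq t x * F (yy N t x) ∂rho =
      (∫ x, g.eval (x : ℝ) / sq t x ∂rho) * ∫ x : I, F (x : ℝ) ∂rho := by
  refine integral_comp_of_moments (w := fun x => g.eval (x : ℝ) / sq t x) ?_ (continuous_yy N ht)
    (yy_mem ht) (fun j hj => ?_) F hF
  · exact Continuous.div (by fun_prop) (continuous_sq t) fun x => (ht.sq_pos x).ne'
  · rw [← integral_th_pow ht hN hg hj]
    refine integral_congr_ae (Eventually.of_forall fun x => ?_)
    simp only
    rw [yy, T_eval_re (norm_th ht x), zpow_natCast]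

/-- Continuous functions of `yy`, without weight. -/
lemma integral_cont_yy_one {N : ℕ} {t : ℝ[X]} (ht : ZF t) (hN : t.natDegree ≤ N)
    (F : ℝ → ℝ) (hF : Continuous F) :
    ∫ x, F (yy N t x) ∂rho = ∫ x : I, F (x : ℝ) ∂rho := by
  have h := integral_comp_of_moments (w := fun _ => (1 : ℝ)) continuous_const (continuous_yy N ht)
    (yy_mem ht) (fun j hj => ?_) F hF
  · simpa using h
  · have h1 := integral_ratio ((X * reflect N t) ^ j) t j ht
    have h2 : ((X * reflect N t) ^ j).coeff 0 = 0 := by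
      rw [coeff_zero_eq_eval_zero]
      simp [show j ≠ 0 by omega]
    rw [h2, zero_div] at h1
    rw [← h1]
    refine integral_congr_ae (Eventually.of_forall fun x => ?_)
    simp only
    rw [yy, T_eval_re (norm_th ht x), zpow_natCast, one_mul, th_eq hN, map_pow, div_pow]

end Pool.Agent.E96
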