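import Pool.Agent.E96.Approx

/-!
# L^p extremal polynomials: the robust ratio theorem on `[-1,1]`
-/

open MeasureTheory Polynomial Set Filter Topology
open scoped Real ENNReal Polynomial ComplexConjugate

namespace Pool.Agent.E96

lemma LL_wd {α : Measure I} {g : ℝ[X]} (hg : ∀ x : I, 0 < g.eval (x : ℝ)) (q : ℝ)
    (n : ℕ) (P : ℝ[X]) :
    LL (wd α (fun x : I => (g.eval (x : ℝ)) ^ q)) g q n P = LL α 1 q n P := by
  have hWc : Continuous fun x : I => (g.eval (x : ℝ)) ^ q :=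
    Continuous.rpow_const (by fun_prop) fun x => Or.inl (hg x).ne'
  rw [LL, integral_wd hWc (fun x => Real.rpow_nonneg (hg x).le _), LL]
  refine integral_congr_ae (Eventually.of_forall fun x => ?_)
  simp only [eval_one, div_one]
  rw [← Real.mul_rpow (hg x).le (div_nonneg (sq_nonneg _) (hg x).le)]
  congr 1
  have := (hg x).ne'
  field_simp

lemma DD_wd {α : Measure I} {g : ℝ[X]} (hg : ∀ x : I, 0 < g.eval (x : ℝ)) (q : ℝ)
    (n : ℕ) :
    DD (wd α (fun x : I => (g.eval (x : ℝ)) ^ q)) g q n = DD α 1 q n := by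
  unfold DD
  simp only [LL_wd hg]

lemma ND_of_ac {α : Measure I} {G0 : Set I}
    (h0 : rho G0 ≠ 0) (hac : rho.restrict G0 ≪ α) : ND α := by
  intro s hs
  rw [pos_iff_ne_zero]
  intro h1
  have h2 := hac h1
  rw [Measure.restrict_apply hs.measurableSet.compl] at h2
  have h3 := rho_finite_zero hs
  apply h0
  refine le_antisymm ?_ zero_le
  calc rho G0 ≤ rho (sᶜ ∩ G0 ∪ s) := measure_mono fun x hx => by
        by_cases h : x ∈ s
        · exact Or.inr h
        · exact Or.inl ⟨h, hx⟩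
    _ ≤ rho (sᶜ ∩ G0) + rho s := measure_union_le _ _
    _ = 0 := by rw [h2, h3, add_zero]

/-- The robust ratio theorem on `[-1,1]`. -/
theorem robust {q : ℝ} (hq : 0 < q) {δ : ℝ} (hδ : 0 < δ) :
    ∃ ε0 : ℝ, 0 < ε0 ∧ ∀ (α : Measure I) [IsFiniteMeasure α] (G0 : Set I), MeasurableSet G0 →
      rho.real G0ᶜ ≤ ε0 → rho.restrict G0 ≪ α →
        ND α ∧ ∃ n0 : ℕ, ∀ n : ℕ, n0 ≤ n → DD α 1 q (n + 1) ≤ (1 + δ) * DD α 1 q n ∧
          DD α 1 q n ≤ (1 + δ) * DD α 1 q (n + 1) := by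
  obtain ⟨ε, hε, H⟩ := stepProp hq δ hδ
  set ε0 := min (ε / 2) (1 / 2) with hε0
  have hε00 : 0 < ε0 := by positivity
  refine ⟨ε0, hε00, fun α _ G0 hG0 hr hac => ?_⟩
  have hne : rho G0 ≠ 0 := by
    intro h
    have h1 : rho.real G0 + rho.real G0ᶜ = 1 := by
      rw [measureReal_add_measureReal_compl hG0]
      simp
    have h2 : rho.real G0 = 0 := by rw [measureReal_def, h]; rfl
    have h3 : ε0 ≤ 1 / 2 := min_le_right _ _
    linarith
  have hND := ND_of_ac hne hac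
  refine ⟨hND, ?_⟩
  obtain ⟨g, hg, G, hnear⟩ := exists_near hG0 hr hε00.le hac hq (half_pos hε)
  have hWc : Continuous fun x : I => (g.eval (x : ℝ)) ^ q :=
    Continuous.rpow_const (by fun_prop) fun x => Or.inl (hg x).ne'
  have hW0 : ∀ x : I, 0 < (g.eval (x : ℝ)) ^ q := fun x => Real.rpow_pos_of_pos (hg x) _
  have hfin : IsFiniteMeasure (wd α (fun x : I => (g.eval (x : ℝ)) ^ q)) := isFinite_wd hWc
  have hND' : ND (wd α (fun x : I => (g.eval (x : ℝ)) ^ q)) :=
    ND_wd hND hWc (fun x => (hW0 x).le) (by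
      have : {x : I | (g.eval (x : ℝ)) ^ q = 0} = ∅ := by
        ext x; simpa using (hW0 x).ne'
      rw [this]; exact finite_empty)
  have hnear' := hnear.mono (show ε0 + ε / 2 ≤ ε by
    have : ε0 ≤ ε / 2 := min_le_left _ _
    linarith)
  refine ⟨g.natDegree + 3, fun n hn => ?_⟩
  have h1 := (H _ hND' G hnear' g hg n (by omega) (by omega)).1
  have h2 := (H _ hND' G hnear' g hg (n + 1) (by omega) (by omega)).2
  rw [Nat.add_sub_cancel] at h2
  simp only [DD_wd hg] at h1 h2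
  exact ⟨h1, h2⟩

end Pool.Agent.E96
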