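import Pool.Agent.E96.Close

/-!
# L^p extremal polynomials, 0 < p < 2: the regularised minimiser
-/

open MeasureTheory Polynomial Set Filter Topology
open scoped Real ENNReal Polynomial ComplexConjugate

namespace Pool.Agent.E96

/-- measure with a continuous nonnegative density -/
noncomputable def wd (γ : Measure I) (W : I → ℝ) : Measure I :=
  γ.withDensity (fun x => ENNReal.ofReal (W x))

lemma integral_wd {γ : Measure I} {W : I → ℝ} (hW : Continuous W) (hW0 : ∀ x, 0 ≤ W x) (f : I → ℝ) :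
    ∫ x, f x ∂(wd γ W) = ∫ x, W x * f x ∂γ := by
  rw [wd, integral_withDensity_eq_integral_toReal_smul (by fun_prop)
    (Eventually.of_forall fun x => ENNReal.ofReal_lt_top)]
  refine integral_congr_ae (Eventually.of_forall fun x => ?_)
  simp only [smul_eq_mul]
  rw [ENNReal.toReal_ofReal (hW0 x)]

lemma isFinite_wd {γ : Measure I} [IsFiniteMeasure γ] {W : I → ℝ} (hW : Continuous W) :
    IsFiniteMeasure (wd γ W) := by
  rw [wd]
  exact isFiniteMeasure_withDensity_ofReal (integrable_of_continuous hW γ).2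

lemma ND_wd {γ : Measure I} (hγ : ND γ) {W : I → ℝ} (hW : Continuous W) (hW0 : ∀ x, 0 ≤ W x)
    (hfin : {x | W x = 0}.Finite) : ND (wd γ W) := by
  intro s hs
  have h1 : 0 < γ (s ∪ {x | W x = 0})ᶜ := hγ _ (hs.union hfin)
  rw [wd, withDensity_apply _ hs.measurableSet.compl]
  rw [pos_iff_ne_zero]
  intro h2
  rw [lintegral_eq_zero_iff (by fun_prop)] at h2
  rw [Filter.EventuallyEq, ae_restrict_iff' hs.measurableSet.compl, ae_iff] at h2
  refine h1.ne' (measure_mono_null (fun x hx => ?_) h2)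
  simp only [compl_union, mem_inter_iff, mem_compl_iff, Set.mem_ofPred_eq] at hx
  simp only [Set.mem_ofPred_eq, Pi.zero_apply, ENNReal.ofReal_eq_zero, not_forall, not_le,
    mem_compl_iff]
  exact ⟨hx.1, lt_of_le_of_ne (hW0 x) (Ne.symm hx.2)⟩

/-- Huber regularisation of `y^q`, `0 < q < 1`. -/
noncomputable def phi (q κ y : ℝ) : ℝ := (1 - q) * (max κ y) ^ q + q * (max κ y) ^ (q - 1) * y

lemma tangent_concave {q s y : ℝ} (hq : 0 < q) (hq1 : q < 1) (hs : 0 < s) (hy : 0 ≤ y) :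
    y ^ q ≤ (1 - q) * s ^ q + q * s ^ (q - 1) * y := by
  have h1 := rpow_one_add_le_one_add_mul_self (s := y / s - 1)
    (by have : 0 ≤ y / s := by positivity
        linarith) hq.le hq1.le
  have h2 : 1 + (y / s - 1) = y / s := by ring
  rw [h2, Real.div_rpow hy hs.le] at h1
  have h3 : 0 < s ^ q := Real.rpow_pos_of_pos hs q
  rw [div_le_iff₀ h3] at h1
  refine h1.trans (le_of_eq ?_)
  rw [Real.rpow_sub hs, Real.rpow_one]
  field_simp
  ring

lemma phi_ge {q κ y : ℝ} (hq : 0 < q) (hq1 : q < 1) (hκ : 0 < κ) (hy : 0 ≤ y) :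
    y ^ q ≤ phi q κ y :=
  tangent_concave hq hq1 (lt_of_lt_of_le hκ (le_max_left _ _)) hy

lemma phi_le {q κ y : ℝ} (hq : 0 < q) (hq1 : q < 1) (hκ : 0 < κ) (hy : 0 ≤ y) :
    phi q κ y ≤ y ^ q + κ ^ q := by
  unfold phi
  rcases le_total κ y with h | h
  · rw [max_eq_right h]
    have hy0 : 0 < y := lt_of_lt_of_le hκ h
    have h1 : y ^ (q - 1) * y = y ^ q := by
      rw [Real.rpow_sub hy0, Real.rpow_one]
      field_simp
    have h2 : 0 ≤ κ ^ q := Real.rpow_nonneg hκ.le q
    nlinarith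
  · rw [max_eq_left h]
    have h1 : κ ^ (q - 1) * y ≤ y ^ q := by
      rcases eq_or_lt_of_le hy with h0 | h0
      · rw [← h0, mul_zero, Real.zero_rpow hq.ne']
      · have h2 : κ ^ (q - 1) ≤ y ^ (q - 1) := Real.rpow_le_rpow_of_nonpos h0 h (by linarith)
        have h3 : y ^ (q - 1) * y = y ^ q := by
          rw [Real.rpow_sub h0, Real.rpow_one]
          field_simp
        nlinarith
    have h2 : 0 ≤ κ ^ q := Real.rpow_nonneg hκ.le q
    have h3 : 0 ≤ y ^ q := Real.rpow_nonneg hy q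
    nlinarith

lemma phi_tangent {q κ y y' : ℝ} (hq : 0 < q) (hq1 : q < 1) (hκ : 0 < κ) (hy' : 0 ≤ y') :
    phi q κ y' ≤ phi q κ y + q * (max κ y) ^ (q - 1) * (y' - y) := by
  have hs : 0 < max κ y := lt_of_lt_of_le hκ (le_max_left _ _)
  have hκs : κ ≤ max κ y := le_max_left _ _
  set s := max κ y with hsdef
  have e1 : phi q κ y + q * s ^ (q - 1) * (y' - y) = (1 - q) * s ^ q + q * s ^ (q - 1) * y' := by
    rw [phi, ← hsdef]
    ring
  rw [e1]
  rcases le_total κ y' with h | h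
  · have h1 : phi q κ y' = y' ^ q := by
      have hy0 : 0 < y' := lt_of_lt_of_le hκ h
      rw [phi, max_eq_right h, Real.rpow_sub hy0, Real.rpow_one]
      field_simp
      ring
    rw [h1]
    exact tangent_concave hq hq1 hs hy'
  · rw [phi, max_eq_left h]
    have h1 := tangent_concave hq hq1 hs hκ.le
    have h2 : s ^ (q - 1) ≤ κ ^ (q - 1) := Real.rpow_le_rpow_of_nonpos hκ hκs (by linarith)
    have h3 : κ ^ (q - 1) * κ = κ ^ q := by
      rw [Real.rpow_sub hκ, Real.rpow_one]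
      field_simp
    nlinarith [mul_nonneg (mul_nonneg hq.le (sub_nonneg.2 h2)) (sub_nonneg.2 h)]

/-- the functional -/
noncomputable def LL (γ : Measure I) (g : ℝ[X]) (q : ℝ) (n : ℕ) (P : ℝ[X]) : ℝ :=
  ∫ x : I, ((2 ^ n * P.eval (x : ℝ)) ^ 2 / g.eval (x : ℝ)) ^ q ∂γ

/-- its infimum over monic polynomials -/
noncomputable def DD (γ : Measure I) (g : ℝ[X]) (q : ℝ) (n : ℕ) : ℝ :=
  sInf {r | ∃ P : ℝ[X], P.Monic ∧ P.natDegree = n ∧ r = LL γ g q n P}

lemma LL_nonneg {γ : Measure I} {g : ℝ[X]} (hg : ∀ x : I, 0 < g.eval (x : ℝ)) (q : ℝ) (n : ℕ)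
    (P : ℝ[X]) : 0 ≤ LL γ g q n P :=
  integral_nonneg fun x => Real.rpow_nonneg (div_nonneg (sq_nonneg _) (hg x).le) _

lemma DD_le {γ : Measure I} {g : ℝ[X]} (hg : ∀ x : I, 0 < g.eval (x : ℝ)) {q : ℝ} {n : ℕ}
    {P : ℝ[X]} (hP : P.Monic) (hPn : P.natDegree = n) : DD γ g q n ≤ LL γ g q n P := by
  refine csInf_le ⟨0, ?_⟩ ⟨P, hP, hPn, rfl⟩
  rintro r ⟨Q, _, _, rfl⟩
  exact LL_nonneg hg q n Q

lemma le_DD {γ : Measure I} {g : ℝ[X]} {q : ℝ} {n : ℕ} {a : ℝ}
    (h : ∀ P : ℝ[X], P.Monic → P.natDegree = n → a ≤ LL γ g q n P) : a ≤ DD γ g q n := by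
  refine le_csInf ⟨_, X ^ n, monic_X_pow n, natDegree_X_pow n, rfl⟩ ?_
  rintro r ⟨Q, hQ, hQn, rfl⟩
  exact h Q hQ hQn

/-- the normalising constant -/
noncomputable def lam (g t : ℝ[X]) : ℝ := (∫ x, g.eval (x : ℝ) / sq t x ∂rho)⁻¹

/-- normalised weight `v = λ g / |t|^2` -/
noncomputable def vv (g t : ℝ[X]) (x : I) : ℝ := lam g t * (g.eval (x : ℝ) / sq t x)

section vv

variable {g t : ℝ[X]} (hg : ∀ x : I, 0 < g.eval (x : ℝ)) (ht : ZF t)
include hg ht

lemma continuous_gsq : Continuous fun x : I => g.eval (x : ℝ) / sq t x :=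
  Continuous.div (by fun_prop) (continuous_sq t) fun x => (ht.sq_pos x).ne'

lemma lam_pos : 0 < lam g t := by
  rw [lam, inv_pos]
  have hc := continuous_gsq hg ht
  have hpos : ∀ x : I, 0 < g.eval (x : ℝ) / sq t x := fun x => div_pos (hg x) (ht.sq_pos x)
  rw [integral_pos_iff_support_of_nonneg (fun x => (hpos x).le) (integrable_of_continuous hc _)]
  have : Function.support (fun x : I => g.eval (x : ℝ) / sq t x) = univ := by
    ext x; simpa using (hpos x).ne'
  rw [this, measure_univ]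
  exact one_pos

lemma vv_pos (x : I) : 0 < vv g t x :=
  mul_pos (lam_pos hg ht) (div_pos (hg x) (ht.sq_pos x))

lemma continuous_vv : Continuous (vv g t) := (continuous_gsq hg ht).const_mul _

lemma integral_vv : ∫ x, vv g t x ∂rho = 1 := by
  have h := lam_pos hg ht
  unfold vv
  rw [integral_const_mul]
  rw [lam] at h ⊢
  exact inv_mul_cancel₀ (inv_pos.1 h).ne'

lemma sq_div_g (x : I) : sq t x / g.eval (x : ℝ) = lam g t / vv g t x := by
  have h1 := lam_pos hg ht
  have h2 := hg x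
  have h3 := ht.sq_pos x
  rw [vv]
  field_simp

lemma heart_eq {N : ℕ} (hN : t.natDegree ≤ N) (hgN : g.natDegree ≤ N) (F : ℝ → ℝ)
    (hF : Continuous F) : ∫ x, vv g t x * F (yy N t x) ∂rho = ∫ x, F (yy N t x) ∂rho := by
  rw [integral_cont_yy_one ht hN F hF]
  have h1 := integral_cont_yy ht hN hgN F hF
  have h2 : ∫ x, vv g t x * F (yy N t x) ∂rho =
      lam g t * ∫ x, g.eval (x : ℝ) / sq t x * F (yy N t x) ∂rho := by
    rw [← integral_const_mul]
    refine integral_congr_ae (Eventually.of_forall fun x => ?_)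
    simp only [vv]
    ring
  rw [h2, h1, ← mul_assoc]
  have h3 := lam_pos hg ht
  rw [lam] at h3 ⊢
  rw [inv_mul_cancel₀ (inv_pos.1 h3).ne', one_mul]

end vv

/-- Structure of the regularised minimiser for `0 < q < 1`. -/
theorem struct_lt {γ : Measure I} [IsFiniteMeasure γ] (hγ : ND γ) {g : ℝ[X]}
    (hg : ∀ x : I, 0 < g.eval (x : ℝ)) {q : ℝ} (hq : 0 < q) (hq1 : q < 1) {n N : ℕ} (hn : 1 ≤ n)
    (hN : N + 1 = 2 * n) (hgN : g.natDegree ≤ N) {κ : ℝ} (hκ : 0 < κ) :
    ∃ t : ℝ[X], t.natDegree ≤ N ∧ t.coeff 0 = 1 ∧ ZF t ∧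
      ∫ x, (1 / vv g t x - 1) *
        (max (κ / lam g t) ((2 + 2 * yy N t x) / vv g t x)) ^ (q - 1) ∂γ = 0 ∧
      ∀ P : ℝ[X], P.Monic → P.natDegree = n →
        ∫ x, (lam g t / vv g t x * (2 + 2 * yy N t x)) ^ q ∂γ ≤
          LL γ g q n P + κ ^ q * γ.real univ := by
  have hgc : Continuous fun x : I => g.eval (x : ℝ) := by fun_prop
  have hgne : ∀ x : I, g.eval (x : ℝ) ≠ 0 := fun x => (hg x).ne'
  -- minimiser of the regularised functional
  obtain ⟨Gm, hGm⟩ : ∃ Gm : ℝ, ∀ x : I, g.eval (x : ℝ) ≤ Gm := by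
    obtain ⟨x₀, -, hx₀⟩ := isCompact_univ.exists_isMaxOn (s := (univ : Set I))
      ⟨⟨0, by norm_num, by norm_num⟩, mem_univ _⟩
      hgc.continuousOn
    exact ⟨_, fun x => hx₀ (mem_univ x)⟩
  have hGm0 : 0 < Gm := lt_of_lt_of_le (hg ⟨0, by norm_num, by norm_num⟩) (hGm _)
  have hphic : Continuous fun xy : I × ℝ => phi q κ (4 ^ n * xy.2 / g.eval (xy.1 : ℝ)) := by
    unfold phi
    have h1 : Continuous fun xy : I × ℝ => 4 ^ n * xy.2 / g.eval (xy.1 : ℝ) :=
      Continuous.div (by fun_prop) (by fun_prop) fun xy => hgne xy.1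
    have h2 : Continuous fun xy : I × ℝ => max κ (4 ^ n * xy.2 / g.eval (xy.1 : ℝ)) :=
      continuous_const.max h1
    have h3 : ∀ xy : I × ℝ, max κ (4 ^ n * xy.2 / g.eval (xy.1 : ℝ)) ≠ 0 := fun xy =>
      (lt_of_lt_of_le hκ (le_max_left _ _)).ne'
    have h4 := h2.rpow_const (p := q) fun xy => Or.inl (h3 xy)
    have h5 := h2.rpow_const (p := q - 1) fun xy => Or.inl (h3 xy)
    exact (h4.const_mul _).add ((h5.const_mul q).mul h1)
  obtain ⟨P, hP, hPn, hPmin⟩ := exists_min_line hγ (p := 2 * q) (by positivity) n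
    (fun x y => phi q κ (4 ^ n * y / g.eval (x : ℝ))) hphic (c' := (4 ^ n / Gm) ^ q)
    (by positivity) (by
      intro x y hy
      have h1 : 2 * q / 2 = q := by ring
      rw [h1, ← Real.mul_rpow (by positivity) hy]
      refine le_trans ?_ (phi_ge hq hq1 hκ (by have := (hg x).le; positivity))
      refine Real.rpow_le_rpow (by positivity) ?_ hq.le
      rw [div_mul_eq_mul_div]
      exact div_le_div_of_nonneg_left (by positivity) (hg x) (hGm x))
  set Y : I → ℝ := fun x => (2 ^ n * P.eval (x : ℝ)) ^ 2 / g.eval (x : ℝ) with hY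
  have hYc : Continuous Y := Continuous.div (by fun_prop) hgc hgne
  have hY0 : ∀ x, 0 ≤ Y x := fun x => div_nonneg (sq_nonneg _) (hg x).le
  have h4n : (4 : ℝ) ^ n = (2 ^ n) ^ 2 := by
    rw [← pow_mul, mul_comm, pow_mul]; norm_num
  have hYe : ∀ (Q : ℝ[X]) (x : I), 4 ^ n * (Q.eval (x : ℝ)) ^ 2 / g.eval (x : ℝ) =
      (2 ^ n * Q.eval (x : ℝ)) ^ 2 / g.eval (x : ℝ) := by
    intro Q x
    rw [h4n, mul_pow]
  set s : I → ℝ := fun x => max κ (Y x) with hs
  have hspos : ∀ x, 0 < s x := fun x => lt_of_lt_of_le hκ (le_max_left _ _)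
  have hsc : Continuous s := continuous_const.max hYc
  set ω : I → ℝ := fun x => (s x) ^ (q - 1) with hω
  have hωc : Continuous ω := hsc.rpow_const fun x => Or.inl (hspos x).ne'
  have hωpos : ∀ x, 0 < ω x := fun x => Real.rpow_pos_of_pos (hspos x) _
  set W : I → ℝ := fun x => ω x / g.eval (x : ℝ) with hW
  have hWc : Continuous W := hωc.div hgc hgne
  have hWpos : ∀ x, 0 < W x := fun x => div_pos (hωpos x) (hg x)
  set β := wd γ W with hβ
  have : IsFiniteMeasure β := isFinite_wd hWc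
  have hβND : ND β := ND_wd hγ hWc (fun x => (hWpos x).le) (by
    have : {x | W x = 0} = ∅ := by
      ext x; simpa using (hWpos x).ne'
    rw [this]; exact finite_empty)
  -- L² minimality of P
  have hL2 : ∀ Q : ℝ[X], Q.Monic → Q.natDegree = n →
      ∫ x : I, (P.eval (x : ℝ)) ^ 2 ∂β ≤ ∫ x : I, (Q.eval (x : ℝ)) ^ 2 ∂β := by
    intro Q hQ hQn
    have h1 := hPmin Q hQ hQn
    have hQc : Continuous fun x : I => (2 ^ n * Q.eval (x : ℝ)) ^ 2 / g.eval (x : ℝ) :=
      Continuous.div (by fun_prop) hgc hgne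
    have hphicx : ∀ R : ℝ[X], Continuous fun x : I => phi q κ (4 ^ n * (R.eval (x : ℝ)) ^ 2 / g.eval (x : ℝ)) :=
      fun R => hphic.comp (continuous_id.prodMk (by fun_prop : Continuous fun x : I => (R.eval (x : ℝ)) ^ 2))
    have hdc : Continuous fun x : I => q * ω x * ((2 ^ n * Q.eval (x : ℝ)) ^ 2 / g.eval (x : ℝ) - Y x) :=
      (hωc.const_mul q).mul (hQc.sub hYc)
    have h2 : ∫ x : I, phi q κ (4 ^ n * (Q.eval (x : ℝ)) ^ 2 / g.eval (x : ℝ)) ∂γ ≤
        ∫ x : I, phi q κ (4 ^ n * (P.eval (x : ℝ)) ^ 2 / g.eval (x : ℝ)) ∂γ +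
        ∫ x : I, q * ω x * ((2 ^ n * Q.eval (x : ℝ)) ^ 2 / g.eval (x : ℝ) - Y x) ∂γ := by
      rw [← integral_add (integrable_of_continuous (hphicx P) _) (integrable_of_continuous hdc _)]
      refine integral_mono (integrable_of_continuous (hphicx Q) _)
        (integrable_of_continuous ((hphicx P).add hdc) _) fun x => ?_
      simp only [hYe]
      exact phi_tangent hq hq1 hκ (div_nonneg (sq_nonneg _) (hg x).le)
    have h3 : ∫ x : I, q * ω x * ((2 ^ n * Q.eval (x : ℝ)) ^ 2 / g.eval (x : ℝ) - Y x) ∂γ =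
        q * (2 ^ n) ^ 2 * (∫ x : I, (Q.eval (x : ℝ)) ^ 2 ∂β - ∫ x : I, (P.eval (x : ℝ)) ^ 2 ∂β) := by
      have hcW : ∀ R : ℝ[X], Continuous fun x : I => W x * (R.eval (x : ℝ)) ^ 2 :=
        fun R => hWc.mul (by fun_prop)
      rw [hβ, integral_wd hWc (fun x => (hWpos x).le), integral_wd hWc (fun x => (hWpos x).le),
        ← integral_sub (integrable_of_continuous (hcW Q) _)
          (integrable_of_continuous (hcW P) _), ← integral_const_mul]
      refine integral_congr_ae (Eventually.of_forall fun x => ?_)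
      simp only [hW, hY]
      have := hgne x
      field_simp
    rw [h3] at h2
    have h4 : 0 ≤ q * (2 ^ n) ^ 2 * (∫ x : I, (Q.eval (x : ℝ)) ^ 2 ∂β - ∫ x : I, (P.eval (x : ℝ)) ^ 2 ∂β) := by
      linarith
    have h5 : 0 < q * (2 ^ n : ℝ) ^ 2 := by positivity
    have h6 := nonneg_of_mul_nonneg_right h4 h5
    linarith
  -- the circle polynomial
  obtain ⟨t, htd, ht0, htmin⟩ := exists_min_circle hβND (p := 2) two_pos N
  have hmin : IsMin N β t := by
    refine ⟨htd, ht0, fun r hr hr0 => ?_⟩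
    have := htmin r hr hr0
    simpa using this
  have hzf := hmin.zf hβND
  have hfold := eq_fold_of_min hn hN hβND hmin hP hPn hL2
  have hYv : ∀ x, Y x = lam g t / vv g t x * (2 + 2 * yy N t x) := by
    intro x
    rw [← sq_div_g hg hzf x]
    simp only [hY]
    rw [hfold, fold_sq hN htd hzf]
    ring
  refine ⟨t, htd, ht0, hzf, ?_, ?_⟩
  · -- club
    have hbs := bernstein_szego hzf htd ht0 hmin.orth g hgN
    rw [hβ, integral_wd hWc (fun x => (hWpos x).le), integral_wd hWc (fun x => (hWpos x).le)] at hbs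
    have hlam := lam_pos hg hzf
    have h1 : ∫ x, W x * g.eval (x : ℝ) ∂γ = ∫ x, ω x ∂γ := by
      refine integral_congr_ae (Eventually.of_forall fun x => ?_)
      simp only [hW]
      have := hgne x
      field_simp
    have h2 : ∫ x, W x * sq t x ∂γ = lam g t * ∫ x, 1 / vv g t x * ω x ∂γ := by
      rw [← integral_const_mul]
      refine integral_congr_ae (Eventually.of_forall fun x => ?_)
      simp only [hW]
      have h3 := sq_div_g hg hzf x
      have h4 : ω x / g.eval (x : ℝ) * sq t x = ω x * (sq t x / g.eval (x : ℝ)) := by ring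
      rw [h4, h3]
      ring
    have h3 : ∫ x, g.eval (x : ℝ) / sq t x ∂rho = (lam g t)⁻¹ := by rw [lam, inv_inv]
    rw [h1, h2, h3] at hbs
    have h4 : ∫ x, 1 / vv g t x * ω x ∂γ = ∫ x, ω x ∂γ := by
      rw [← hbs]
      field_simp
    have hvc := continuous_vv hg hzf
    have hvne : ∀ x, vv g t x ≠ 0 := fun x => (vv_pos hg hzf x).ne'
    have h1v : Continuous fun x => 1 / vv g t x := continuous_const.div hvc hvne
    have h5 : ∫ x, (1 / vv g t x - 1) * ω x ∂γ = 0 := by
      have h6 : ∫ x, (1 / vv g t x - 1) * ω x ∂γ =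
          ∫ x, 1 / vv g t x * ω x ∂γ - ∫ x, ω x ∂γ := by
        have hc' : Continuous fun x => 1 / vv g t x * ω x := h1v.mul hωc
        rw [← integral_sub (integrable_of_continuous hc' _)
          (integrable_of_continuous hωc _)]
        refine integral_congr_ae (Eventually.of_forall fun x => ?_)
        simp only
        ring
      rw [h6, h4, sub_self]
    have h7 : ∀ x, ω x = (lam g t) ^ (q - 1) *
        (max (κ / lam g t) ((2 + 2 * yy N t x) / vv g t x)) ^ (q - 1) := by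
      intro x
      have h8 : s x = lam g t * max (κ / lam g t) ((2 + 2 * yy N t x) / vv g t x) := by
        simp only [hs]
        rw [hYv, mul_max_of_nonneg _ _ hlam.le]
        congr 1
        · field_simp
        · ring
      simp only [hω]
      rw [h8, Real.mul_rpow hlam.le]
      exact (div_pos hκ hlam).le.trans (le_max_left _ _)
    have h9 : ∫ x, (1 / vv g t x - 1) * ω x ∂γ = (lam g t) ^ (q - 1) *
        ∫ x, (1 / vv g t x - 1) *
        (max (κ / lam g t) ((2 + 2 * yy N t x) / vv g t x)) ^ (q - 1) ∂γ := by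
      rw [← integral_const_mul]
      refine integral_congr_ae (Eventually.of_forall fun x => ?_)
      simp only
      rw [h7]
      ring
    rw [h9] at h5
    rcases mul_eq_zero.1 h5 with h | h
    · exact absurd h (Real.rpow_pos_of_pos hlam _).ne'
    · exact h
  · intro Q hQ hQn
    have h1 := hPmin Q hQ hQn
    have hphicx : ∀ R : ℝ[X], Continuous fun x : I => phi q κ (4 ^ n * (R.eval (x : ℝ)) ^ 2 / g.eval (x : ℝ)) :=
      fun R => hphic.comp (continuous_id.prodMk (by fun_prop : Continuous fun x : I => (R.eval (x : ℝ)) ^ 2))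
    have h2 : ∫ x, (lam g t / vv g t x * (2 + 2 * yy N t x)) ^ q ∂γ ≤
        ∫ x : I, phi q κ (4 ^ n * (P.eval (x : ℝ)) ^ 2 / g.eval (x : ℝ)) ∂γ := by
      have h3 : ∀ x, (lam g t / vv g t x * (2 + 2 * yy N t x)) ^ q = (Y x) ^ q := fun x => by rw [hYv]
      simp only [h3]
      refine integral_mono (integrable_of_continuous (hYc.rpow_const fun x => Or.inr hq.le) _)
        (integrable_of_continuous (hphicx P) _) fun x => ?_
      simp only [hYe]
      exact phi_ge hq hq1 hκ (hY0 x)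
    have h3 : ∫ x : I, phi q κ (4 ^ n * (Q.eval (x : ℝ)) ^ 2 / g.eval (x : ℝ)) ∂γ ≤
        LL γ g q n Q + κ ^ q * γ.real univ := by
      have hQc : Continuous fun x : I => ((2 ^ n * Q.eval (x : ℝ)) ^ 2 / g.eval (x : ℝ)) ^ q :=
        (Continuous.div (by fun_prop) hgc hgne).rpow_const fun x => Or.inr hq.le
      have h4 : κ ^ q * γ.real univ = ∫ _x : I, κ ^ q ∂γ := by
        rw [integral_const, smul_eq_mul, mul_comm]
      rw [LL, h4, ← integral_add (integrable_of_continuous hQc _) (integrable_const _)]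
      refine integral_mono (integrable_of_continuous (hphicx Q) _)
        (integrable_of_continuous (hQc.add continuous_const) _) fun x => ?_
      simp only [hYe]
      exact phi_le hq hq1 hκ (div_nonneg (sq_nonneg _) (hg x).le)
    linarith

end Pool.Agent.E96
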